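import Pool.Agent.Lib.MP_6ff8d9_an_h82.EndB

/-!
# A function on an annulus without periods whose real part is bounded by the Poisson kernel, III
-/

open Metric Set MeasureTheory Filter Topology
open scoped ComplexConjugate Real Interval

namespace Pool.Agent.Lib.MP_6ff8d9_an.Rat.H82

noncomputable section

lemma conj_J (K : ℂ → ℂ) (ρ : ℝ) (m : ℤ) :
    conj (J K ρ m) = ∫ θ in (0 : ℝ)..2 * π, conj (K (circleMap 0 ρ θ)) *
      Complex.exp (m * θ * Complex.I) := by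
  unfold J
  rw [intervalIntegral.integral_of_le (by positivity), intervalIntegral.integral_of_le (by positivity),
    ← integral_conj]
  refine integral_congr_ae (Eventually.of_forall fun θ => ?_)
  simp only [map_mul, ← Complex.exp_conj, map_neg, Complex.conj_I, Complex.conj_ofReal, map_intCast]
  congr 2
  ring

lemma Er_eq {K : ℂ → ℂ} {r ρ : ℝ} (hr0 : 0 < r) (hK : DifferentiableOn ℂ K (Ann r))
    (h1 : r < ρ) (h2 : ρ < 1) (m : ℕ) :
    Er K m ρ = J K ρ m + conj (J K ρ (-m)) - (J K ρ 0 + conj (J K ρ 0)) := by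
  have hc := cont_K hr0 hK h1 h2
  have hcc : Continuous fun θ : ℝ => conj (K (circleMap 0 ρ θ)) := Complex.continuous_conj.comp hc
  rw [conj_J, conj_J]
  unfold Er J
  have i1 : IntervalIntegrable (fun θ : ℝ => K (circleMap 0 ρ θ) *
      Complex.exp (-(((m : ℕ) : ℤ) * θ * Complex.I))) volume 0 (2 * π) :=
    (hc.mul (by fun_prop)).intervalIntegrable _ _
  have i2 : IntervalIntegrable (fun θ : ℝ => conj (K (circleMap 0 ρ θ)) *
      Complex.exp ((-(m : ℕ) : ℤ) * θ * Complex.I)) volume 0 (2 * π) :=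
    (hcc.mul (by fun_prop)).intervalIntegrable _ _
  have i3 : IntervalIntegrable (fun θ : ℝ => K (circleMap 0 ρ θ) *
      Complex.exp (-((0 : ℤ) * θ * Complex.I))) volume 0 (2 * π) :=
    (hc.mul (by fun_prop)).intervalIntegrable _ _
  have i4 : IntervalIntegrable (fun θ : ℝ => conj (K (circleMap 0 ρ θ)) *
      Complex.exp ((0 : ℤ) * θ * Complex.I)) volume 0 (2 * π) :=
    (hcc.mul (by fun_prop)).intervalIntegrable _ _
  rw [← intervalIntegral.integral_add i1 i2, ← intervalIntegral.integral_add i3 i4,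
    ← intervalIntegral.integral_sub (i1.add i2) (i3.add i4)]
  refine intervalIntegral.integral_congr fun θ _ => ?_
  have e1 : ((2 * (K (circleMap 0 ρ θ)).re : ℝ) : ℂ) =
      K (circleMap 0 ρ θ) + conj (K (circleMap 0 ρ θ)) := by
    rw [Complex.add_conj]
  have e2 : Complex.exp ((-(m : ℕ) : ℤ) * θ * Complex.I) =
      Complex.exp (-(((m : ℕ) : ℤ) * θ * Complex.I)) := by
    congr 1
    push_cast
    ring
  rw [e1, e2]
  simp
  ring

/-- a function with mean zero vanishes -/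
theorem zero_of_mean_zero {K : ℂ → ℂ} {r : ℝ} (hr0 : 0 < r) (hr : r < 1)
    (hK : DifferentiableOn ℂ K (Ann r)) {C : ℝ}
    (hb : ∀ w ∈ Ann r, |(K w).re| ≤ C * (1 - ‖w‖ ^ 2) / ‖1 - w‖ ^ 2)
    (hper : ∀ j : ℕ, ∀ ρ, r < ρ → ρ < 1 → (∮ w in C(0, ρ), K w * w ^ j) = 0)
    (h0 : ∀ ρ, r < ρ → ρ < 1 → J K ρ 0 = 0) : ∀ w ∈ Ann r, K w = 0 := by
  have hneg : ∀ m : ℕ, ∀ ρ, r < ρ → ρ < 1 → J K ρ (-(m + 1 : ℕ)) = 0 := by
    intro m ρ h1 h2
    have h3 := hper m ρ h1 h2
    rw [circle_eq] at h3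
    have h4 : Complex.I * (ρ : ℂ) ^ (m + 1) ≠ 0 :=
      mul_ne_zero Complex.I_ne_zero (pow_ne_zero _ (by exact_mod_cast (hr0.trans h1).ne'))
    exact (mul_eq_zero.1 h3).resolve_left h4
  have hpos : ∀ m : ℕ, ∀ ρ₁, r < ρ₁ → ρ₁ < 1 → J K ρ₁ (m + 1 : ℕ) = 0 := by
    intro m ρ₁ h1 h2
    have h3 := tendsto_Er hr0 hr hK hb (m + 1)
    have hev : ∀ᶠ ρ : ℝ in 𝓝[<] 1, ρ₁ < ρ ∧ ρ < 1 := by
      have h1 : ∀ᶠ ρ : ℝ in 𝓝 1, ρ₁ < ρ := lt_mem_nhds h2
      filter_upwards [nhdsWithin_le_nhds h1, self_mem_nhdsWithin] with ρ h2 h3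
      exact ⟨h2, h3⟩
    have h4 : ∀ᶠ ρ : ℝ in 𝓝[<] 1, Er K (m + 1) ρ * (ρ₁ : ℂ) ^ (m + 1) =
        J K ρ₁ (m + 1 : ℕ) * (ρ : ℂ) ^ (m + 1) := by
      filter_upwards [hev] with ρ hρ
      have h5 := J_scale hr0 hK h1 hρ.1.le hρ.2 (m + 1)
      rw [← h5, Er_eq hr0 hK (h1.trans hρ.1) hρ.2, hneg m ρ (h1.trans hρ.1) hρ.2,
        h0 ρ (h1.trans hρ.1) hρ.2]
      simp
    have h5 : Tendsto (fun ρ : ℝ => Er K (m + 1) ρ * (ρ₁ : ℂ) ^ (m + 1)) (𝓝[<] 1)
        (𝓝 (0 * (ρ₁ : ℂ) ^ (m + 1))) := h3.mul_const _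
    have h6 : Tendsto (fun ρ : ℝ => J K ρ₁ (m + 1 : ℕ) * (ρ : ℂ) ^ (m + 1)) (𝓝[<] 1)
        (𝓝 (J K ρ₁ (m + 1 : ℕ) * ((1 : ℝ) : ℂ) ^ (m + 1))) := by
      have h7 : Continuous fun ρ : ℝ => J K ρ₁ (m + 1 : ℕ) * (ρ : ℂ) ^ (m + 1) := by fun_prop
      exact (h7.tendsto 1).mono_left nhdsWithin_le_nhds
    have h7 := tendsto_nhds_unique (h5.congr' h4) h6
    simpa using h7.symm
  have hall : ∀ m : ℤ, ∀ ρ, r < ρ → ρ < 1 → J K ρ m = 0 := by
    intro m ρ h1 h2
    rcases lt_trichotomy m 0 with hm | hm | hm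
    · obtain ⟨k, hk⟩ := Int.eq_ofNat_of_zero_le (show 0 ≤ -m - 1 by omega)
      have h3 : m = -(k + 1 : ℕ) := by push_cast; omega
      rw [h3]
      exact hneg k ρ h1 h2
    · rw [hm]
      exact h0 ρ h1 h2
    · obtain ⟨k, hk⟩ := Int.eq_ofNat_of_zero_le (show 0 ≤ m - 1 by omega)
      have h3 : m = (k + 1 : ℕ) := by push_cast; omega
      rw [h3]
      exact hpos k ρ h1 h2
  intro w hw
  set ρ := ‖w‖ with hρ
  have hρ0 : 0 < ρ := hr0.trans hw.1
  have hc := cont_K hr0 hK hw.1 hw.2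
  have hab : (0 : ℝ) < 2 * π := by positivity
  have hL2 : MemLp (fun θ : ℝ => K (circleMap 0 ρ θ)) 2 (volume.restrict (Ioc 0 (2 * π))) := by
    obtain ⟨B, hB⟩ := (isCompact_Icc (a := (0 : ℝ)) (b := 2 * π)).exists_bound_of_continuousOn
      hc.continuousOn
    refine MemLp.of_bound hc.aestronglyMeasurable B ?_
    filter_upwards [ae_restrict_mem measurableSet_Ioc] with x hx
    exact hB x (Ioc_subset_Icc_self hx)
  have hfc : ∀ m : ℤ, fourierCoeffOn hab (fun θ : ℝ => K (circleMap 0 ρ θ)) m = 0 := by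
    intro m
    rw [fourierCoeffOn_eq_integral]
    have h3 : (∫ x in (0 : ℝ)..2 * π, fourier (-m) (x : AddCircle (2 * π - 0)) •
        K (circleMap 0 ρ x)) = J K ρ m := by
      unfold J
      refine intervalIntegral.integral_congr fun θ _ => ?_
      simp only [fourier_coe_apply, smul_eq_mul]
      rw [mul_comm]
      congr 2
      have : (π : ℂ) ≠ 0 := by exact_mod_cast Real.pi_ne_zero
      push_cast
      field_simp
      ring
    rw [h3, hall m ρ hw.1 hw.2, smul_zero]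
  have hP := tsum_sq_fourierCoeffOn hab hL2
  simp only [hfc, norm_zero] at hP
  have hz : (∫ x in (0 : ℝ)..2 * π, ‖K (circleMap 0 ρ x)‖ ^ 2) = 0 := by
    have h3 : (2 * π - 0)⁻¹ ≠ 0 := by
      have := Real.pi_ne_zero
      rw [sub_zero]
      positivity
    have h4 := hP.symm
    rw [smul_eq_mul] at h4
    have h5 : (∑' _ : ℤ, (0 : ℝ) ^ 2) = 0 := by simp
    rw [h5] at h4
    exact (mul_eq_zero.1 h4).resolve_left h3
  obtain ⟨θ, hθ, hwθ⟩ : ∃ θ ∈ Ioc (0 : ℝ) (2 * π), circleMap 0 ρ θ = w := by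
    have h3 : w ∈ circleMap 0 ρ '' Ioc 0 (2 * π) := by
      rw [image_circleMap_Ioc, mem_sphere_zero_iff_norm, abs_of_pos hρ0]
    obtain ⟨θ, h4, h5⟩ := h3
    exact ⟨θ, h4, h5⟩
  by_contra hne
  have hlt := intervalIntegral.integral_pos hab
    (f := fun x => ‖K (circleMap 0 ρ x)‖ ^ 2) (hc.norm.pow 2).continuousOn
    (fun x _ => by positivity) ⟨θ, Ioc_subset_Icc_self hθ, by
      show 0 < ‖K (circleMap 0 ρ θ)‖ ^ 2
      rw [hwθ]
      have := norm_pos_iff.2 hne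
      positivity⟩
  rw [hz] at hlt
  exact lt_irrefl _ hlt

/-- **End step.** A holomorphic function on an annulus `r < |w| < 1` without periods, with real part
bounded by the Poisson kernel of the point `1`, is `κ + 2 Re κ · w / (1 - w)`. -/
theorem end_step {K : ℂ → ℂ} {r : ℝ} (hr0 : 0 < r) (hr : r < 1)
    (hK : DifferentiableOn ℂ K (Ann r)) {C : ℝ}
    (hb : ∀ w ∈ Ann r, |(K w).re| ≤ C * (1 - ‖w‖ ^ 2) / ‖1 - w‖ ^ 2)
    (hper : ∀ j : ℕ, ∀ ρ, r < ρ → ρ < 1 → (∮ w in C(0, ρ), K w * w ^ j) = 0) :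
    ∃ κ : ℂ, ∀ w ∈ Ann r, K w = κ + 2 * (κ.re : ℂ) * w / (1 - w) := by
  obtain ⟨ρ₀, hρ1, hρ2⟩ := exists_between hr
  set κ : ℂ := J K ρ₀ 0 / (2 * π) with hκ
  set G : ℂ → ℂ := fun w => κ + 2 * (κ.re : ℂ) * w / (1 - w) with hG
  have hne : ∀ w : ℂ, ‖w‖ < 1 → 1 - w ≠ 0 := by
    intro w hw h
    rw [sub_eq_zero] at h
    rw [← h, norm_one] at hw
    exact lt_irrefl _ hw
  have hGd : ∀ w : ℂ, ‖w‖ < 1 → DifferentiableAt ℂ G w := by
    intro w hw
    have h1 : DifferentiableAt ℂ (fun w : ℂ => (1 - w)⁻¹) w :=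
      (differentiableAt_id.const_sub 1).fun_inv (hne w hw)
    have h2 : G = fun w => κ + 2 * (κ.re : ℂ) * w * (1 - w)⁻¹ := by
      funext w
      show κ + 2 * (κ.re : ℂ) * w / (1 - w) = _
      rw [div_eq_mul_inv]
    rw [h2]
    exact ((differentiableAt_id.const_mul _).mul h1).const_add _
  have hGc : ∀ j : ℕ, ∀ ρ, 0 < ρ → ρ < 1 → (∮ w in C(0, ρ), G w * w ^ j) = 0 := by
    intro j ρ h1 h2
    refine DiffContOnCl.circleIntegral_eq_zero h1.le ?_
    refine DifferentiableOn.diffContOnCl fun w hw => ?_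
    rw [closure_ball (0 : ℂ) h1.ne', mem_closedBall_zero_iff] at hw
    exact ((hGd w (hw.trans_lt h2)).mul (differentiableAt_id.pow j)).differentiableWithinAt
  have hG0 : ∀ ρ, 0 < ρ → ρ < 1 → J G ρ 0 = 2 * π * κ := by
    intro ρ h1 h2
    have h3 : DiffContOnCl ℂ G (ball 0 ρ) := by
      refine DifferentiableOn.diffContOnCl fun w hw => ?_
      rw [closure_ball (0 : ℂ) h1.ne', mem_closedBall_zero_iff] at hw
      exact (hGd w (hw.trans_lt h2)).differentiableWithinAt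
    have h4 := h3.circleIntegral_sub_inv_smul (mem_ball_self h1)
    have h5 : G 0 = κ := by simp [hG]
    have h6 : (∮ z in C(0, ρ), (z - 0)⁻¹ • G z) = Complex.I * J G ρ 0 := by
      unfold circleIntegral J
      rw [← intervalIntegral.integral_const_mul]
      refine intervalIntegral.integral_congr fun θ _ => ?_
      simp only [deriv_circleMap, smul_eq_mul, sub_zero]
      have h7 : circleMap 0 ρ θ ≠ 0 := circleMap_ne_center h1.ne'
      simp
      field_simp
    rw [h6, h5, smul_eq_mul] at h4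
    apply mul_left_cancel₀ Complex.I_ne_zero
    rw [h4]
    ring
  have hGre : ∀ w ∈ Ann r, (G w).re = κ.re * (1 - ‖w‖ ^ 2) / ‖1 - w‖ ^ 2 := by
    intro w hw
    have h1 := hne w hw.2
    have h2 : G w = (κ.im : ℂ) * Complex.I + κ.re * ((1 + w) / (1 - w)) := by
      show κ + 2 * (κ.re : ℂ) * w / (1 - w) = _
      have h3 : κ = κ.re + κ.im * Complex.I := (Complex.re_add_im κ).symm
      nth_rw 1 [h3]
      field_simp
      ring
    have h4 : ((1 + w) / (1 - w)).re = (1 - ‖w‖ ^ 2) / ‖1 - w‖ ^ 2 := by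
      rw [Complex.div_re, ← add_div, Complex.normSq_eq_norm_sq]
      congr 1
      rw [← Complex.normSq_eq_norm_sq, Complex.normSq_apply]
      simp
      ring
    have h5 : ((κ.im : ℂ) * Complex.I).re = 0 := by simp
    rw [h2, Complex.add_re, h5, zero_add, Complex.re_ofReal_mul, h4]
    ring
  have hJlin : ∀ ρ, r < ρ → ρ < 1 → J (fun w => K w - G w) ρ 0 = J K ρ 0 - J G ρ 0 := by
    intro ρ h1 h2
    have c1 := cont_K hr0 hK h1 h2
    have c2 : Continuous fun θ : ℝ => G (circleMap 0 ρ θ) := by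
      refine continuous_iff_continuousAt.2 fun θ => ?_
      have h3 := (hGd (circleMap 0 ρ θ) (by rw [norm_circleMap (hr0.trans h1).le]; exact h2))
      exact h3.continuousAt.comp (continuous_circleMap 0 ρ).continuousAt
    unfold J
    rw [← intervalIntegral.integral_sub]
    · refine intervalIntegral.integral_congr fun θ _ => ?_
      ring
    · exact (c1.mul (by fun_prop)).intervalIntegrable _ _
    · exact (c2.mul (by fun_prop)).intervalIntegrable _ _
  have hJK : ∀ ρ, r < ρ → ρ < 1 → J K ρ 0 = 2 * π * κ := by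
    intro ρ h1 h2
    have hπ : (2 * π : ℂ) ≠ 0 := by
      have := Real.pi_ne_zero
      exact mul_ne_zero two_ne_zero (by exact_mod_cast this)
    have h3 : J K ρ 0 = J K ρ₀ 0 := by
      rcases le_total ρ ρ₀ with h | h
      · have := J_scale hr0 hK h1 h hρ2 0
        simpa using this.symm
      · have := J_scale hr0 hK hρ1 h h2 0
        simpa using this
    rw [h3, hκ]
    field_simp
  refine ⟨κ, fun w hw => ?_⟩
  have hz := zero_of_mean_zero (K := fun w => K w - G w) hr0 hr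
    (fun w hw => (hK w hw).sub (hGd w hw.2).differentiableWithinAt) (C := C + |κ.re|) ?_ ?_ ?_ w hw
  · exact sub_eq_zero.1 hz
  · intro w hw
    have h1 := hb w hw
    have h2 : 0 ≤ 1 - ‖w‖ ^ 2 := by nlinarith [hw.2, norm_nonneg w]
    rw [Complex.sub_re, hGre w hw, add_mul, add_div]
    refine (abs_sub _ _).trans (add_le_add h1 ?_)
    rw [abs_div, abs_mul, abs_of_nonneg h2, abs_of_nonneg (by positivity : 0 ≤ ‖1 - w‖ ^ 2)]
  · intro j ρ h1 h2
    have h3 : (∮ w in C(0, ρ), (K w - G w) * w ^ j) =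
        (∮ w in C(0, ρ), K w * w ^ j) - ∮ w in C(0, ρ), G w * w ^ j := by
      rw [← circleIntegral.integral_sub]
      · refine circleIntegral.integral_congr (hr0.trans h1).le fun w _ => ?_
        ring
      · refine ContinuousOn.circleIntegrable (hr0.trans h1).le ?_
        refine ContinuousOn.mul (hK.continuousOn.mono fun w hw => ?_) (by fun_prop)
        rw [mem_sphere_zero_iff_norm] at hw
        exact ⟨by rw [hw]; exact h1, by rw [hw]; exact h2⟩
      · refine ContinuousOn.circleIntegrable (hr0.trans h1).le ?_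
        refine ContinuousOn.mul (fun w hw => ?_) (by fun_prop)
        rw [mem_sphere_zero_iff_norm] at hw
        exact (hGd w (by rw [hw]; exact h2)).continuousAt.continuousWithinAt
    rw [h3, hper j ρ h1 h2, hGc j ρ (hr0.trans h1) h2, sub_zero]
  · intro ρ h1 h2
    rw [hJlin ρ h1 h2, hJK ρ h1 h2, hG0 ρ (hr0.trans h1) h2, sub_self]

end

end Pool.Agent.Lib.MP_6ff8d9_an.Rat.H82
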