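import Pool.Agent.Lib.MP_6ff8d9_an_h22.Rows

/-!
# MP_6ff8d9 RATIONAL, rows UNIQ and GLUE: germs over the circle glue to a function on an annulus
-/

open Metric Set Filter Topology

namespace Pool.Agent.Lib.MP_6ff8d9_an.Rat.H82

open Pool.Agent.Lib.MP_6ff8d9_an

/-- row UNIQ -/
theorem uniq : H22.UNIQ := by
  intro c δ φ L L' hc hδ hφ hreg S hSc hSo hS hL hL' hE
  have hev : ∀ᶠ t in 𝓝[>] (0 : ℝ), φ t ∈ S ∧ L (φ t) = L' (φ t) ∧
      ∃ d : ℂ, d ≠ 0 ∧ HasDerivAt φ d t := by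
    filter_upwards [hφ (ball_mem_nhds c hδ), hreg, hE] with t h1 h2 h3
    exact ⟨hS ⟨h1, mem_ball_zero_iff.2 h2.1⟩, h3, h2.2⟩
  rw [eventually_nhdsWithin_iff, Metric.eventually_nhds_iff] at hev
  obtain ⟨ε, hε, hev⟩ := hev
  have hev' : ∀ t : ℝ, 0 < t → t < ε → φ t ∈ S ∧ L (φ t) = L' (φ t) ∧
      ∃ d : ℂ, d ≠ 0 ∧ HasDerivAt φ d t := by
    intro t h1 h2
    exact hev (by rwa [Real.dist_eq, sub_zero, abs_of_pos h1]) h1
  obtain ⟨h1, h2, d, hd, hder⟩ := hev' (ε / 2) (by linarith) (by linarith)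
  have ht : Tendsto φ (𝓝[≠] (ε / 2)) (𝓝[≠] (φ (ε / 2))) := hder.tendsto_nhdsNE hd
  have hn : ∀ᶠ t in 𝓝[≠] (ε / 2), L (φ t) = L' (φ t) := by
    have h3 : ∀ᶠ t : ℝ in 𝓝 (ε / 2), 0 < t := lt_mem_nhds (by linarith)
    have h4 : ∀ᶠ t : ℝ in 𝓝 (ε / 2), t < ε := gt_mem_nhds (by linarith)
    filter_upwards [nhdsWithin_le_nhds h3, nhdsWithin_le_nhds h4] with t h5 h6
    exact (hev' t h5 h6).2.1
  exact (hL.analyticOnNhd hSo).eqOn_of_preconnected_of_frequently_eq (hL'.analyticOnNhd hSo)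
    hSc.isPreconnected h1 (ht.frequently hn.frequently)

/-- agreement of the germs of `L x` and `L y` at the point `c` of the circle -/
def Ag {X : Type} (L : X → ℂ → ℂ) (c : ℂ) (x y : X) : Prop :=
  ∀ᶠ w in 𝓝[ball 0 1] c, L x w = L y w

lemma Ag.symm {X : Type} {L : X → ℂ → ℂ} {c : ℂ} {x y : X} (h : Ag L c x y) : Ag L c y x := by
  unfold Ag at *
  filter_upwards [h] with w hw
  exact hw.symm

lemma Ag.trans {X : Type} {L : X → ℂ → ℂ} {c : ℂ} {x y z : X} (h : Ag L c x y) (h' : Ag L c y z) :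
    Ag L c x z := by
  unfold Ag at *
  filter_upwards [h, h'] with w h1 h2
  exact h1.trans h2

lemma ne_bot {c : ℂ} (hc : ‖c‖ = 1) : (𝓝[ball (0 : ℂ) 1] c).NeBot := by
  rw [← mem_closure_iff_nhdsWithin_neBot, closure_ball (0 : ℂ) one_ne_zero,
    mem_closedBall_zero_iff, hc]

/-- the data of GLUE after the choice of the germs -/
structure Dat {X : Type} [MetricSpace X] (F : X → ℂ) (φ κ : X → ℝ → ℂ) (δ : X → ℝ)
    (L : X → ℂ → ℂ) : Prop where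
  Fn : ∀ x, ‖F x‖ = 1
  Fc : Continuous F
  ht : ∀ x, Tendsto (φ x) (𝓝[>] 0) (𝓝 (F x))
  hr : ∀ x, ∀ᶠ t : ℝ in 𝓝[>] 0, ‖φ x t‖ < 1 ∧ ∃ d : ℂ, d ≠ 0 ∧ HasDerivAt (φ x) d t
  δ0 : ∀ x, 0 < δ x
  Ld : ∀ x, DifferentiableOn ℂ (L x) (ball (F x) (δ x) ∩ ball 0 1)
  hk : ∀ x y, dist y x < δ x → ∀ᶠ t : ℝ in 𝓝[>] 0, κ y t = L x (φ y t)
  hl : ∀ x, ∀ ε : ℝ, 0 < ε → ∃ δ' : ℝ, 0 < δ' ∧ ∀ c : ℂ, ‖c‖ = 1 → dist c (F x) < δ' →
    ∃ y, dist y x < ε ∧ F y = c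

section
variable {X : Type} [MetricSpace X] {F : X → ℂ} {φ κ : X → ℝ → ℂ} {δ : X → ℝ}
    {L : X → ℂ → ℂ}

/-- the convex common domain -/
def Cd (F : X → ℂ) (δ : X → ℝ) (x y : X) : Set ℂ :=
  ball (F x) (δ x) ∩ ball (F y) (δ y) ∩ ball 0 1

omit [MetricSpace X] in
lemma Cd_convex (x y : X) : Convex ℝ (Cd F δ x y) :=
  ((convex_ball _ _).inter (convex_ball _ _)).inter (convex_ball _ _)

omit [MetricSpace X] in
lemma Cd_open (x y : X) : IsOpen (Cd F δ x y) := (isOpen_ball.inter isOpen_ball).inter isOpen_ball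

omit [MetricSpace X] in
lemma Cd_mem {x y : X} {c : ℂ} (h1 : dist c (F x) < δ x) (h2 : dist c (F y) < δ y) :
    Cd F δ x y ∈ 𝓝[ball 0 1] c := by
  have h3 : ball (F x) (δ x) ∩ ball (F y) (δ y) ∈ 𝓝 c :=
    (isOpen_ball.inter isOpen_ball).mem_nhds ⟨h1, h2⟩
  exact inter_mem (mem_nhdsWithin_of_mem_nhds h3) self_mem_nhdsWithin

/-- a germ agreement propagates over the convex common domain -/
lemma Ag.eqOn (D : Dat F φ κ δ L) {c : ℂ} (hc : ‖c‖ = 1) {x y : X} (h1 : dist c (F x) < δ x)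
    (h2 : dist c (F y) < δ y) (h : Ag L c x y) : EqOn (L x) (L y) (Cd F δ x y) := by
  have := ne_bot hc
  obtain ⟨w, hw, hw2⟩ : ∃ w, w ∈ Cd F δ x y ∧ L x =ᶠ[𝓝 w] L y := by
    have h3 : ∀ᶠ w in 𝓝[ball 0 1] c, ∀ᶠ w' in 𝓝[ball 0 1] w, L x w' = L y w' :=
      eventually_eventually_nhdsWithin.2 h
    obtain ⟨w, h4, h5⟩ := (h3.and (Cd_mem h1 h2)).exists
    refine ⟨w, h5, ?_⟩
    rw [isOpen_ball.nhdsWithin_eq h5.2] at h4
    exact h4
  exact (((D.Ld x).mono fun z hz => ⟨hz.1.1, hz.2⟩).analyticOnNhd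
    (Cd_open x y)).eqOn_of_preconnected_of_eventuallyEq
    (((D.Ld y).mono fun z hz => ⟨hz.1.2, hz.2⟩).analyticOnNhd (Cd_open x y))
    (Cd_convex x y).isPreconnected hw hw2

omit [MetricSpace X] in
lemma ag_of_eqOn {c : ℂ} {x y : X} (h1 : dist c (F x) < δ x) (h2 : dist c (F y) < δ y)
    (h : EqOn (L x) (L y) (Cd F δ x y)) : Ag L c x y := by
  unfold Ag
  filter_upwards [Cd_mem h1 h2] with w hw
  exact h hw

/-- germs at nearby points of `X` agree -/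
lemma ag_near (D : Dat F φ κ δ L) {x y : X} (h1 : dist y x < δ x) (h2 : dist (F y) (F x) < δ x) :
    Ag L (F y) x y := by
  have h3 : dist (F y) (F y) < δ y := by rw [dist_self]; exact D.δ0 y
  refine ag_of_eqOn h2 h3 ?_
  refine uniq (F y) (min (δ x - dist (F y) (F x)) (δ y)) (φ y) (L x) (L y) (D.Fn y)
    (lt_min (by linarith) (D.δ0 y)) (D.ht y) (D.hr y) (Cd F δ x y) (Cd_convex x y) (Cd_open x y)
    ?_ ((D.Ld x).mono fun z hz => ⟨hz.1.1, hz.2⟩) ((D.Ld y).mono fun z hz => ⟨hz.1.2, hz.2⟩) ?_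
  · rintro w ⟨hw1, hw2⟩
    rw [mem_ball, lt_min_iff] at hw1
    refine ⟨⟨?_, ?_⟩, hw2⟩
    · rw [mem_ball]
      linarith [dist_triangle w (F y) (F x), hw1.1]
    · exact hw1.2
  · filter_upwards [D.hk x y h1, D.hk y y (by rw [dist_self]; exact D.δ0 y)] with t h4 h5
    exact h4.symm.trans h5

/-- all germs over `c` agree -/
def Good (F : X → ℂ) (L : X → ℂ → ℂ) (c : ℂ) : Prop := ∀ x y, F x = c → F y = c → Ag L c x y

lemma good_conn (D : Dat F φ κ δ L) {c : ℂ} (h : IsConnected (F ⁻¹' {c})) : Good F L c := by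
  intro x y hx hy
  refine h.isPreconnected.induction₂ (fun x y => Ag L c x y) ?_
    (fun a b c _ _ _ h1 h2 => h1.trans h2) (fun a b _ _ h1 => h1.symm) hx hy
  intro a ha
  have h1 : ∀ᶠ b in 𝓝[F ⁻¹' {c}] a, dist b a < δ a :=
    mem_nhdsWithin_of_mem_nhds (ball_mem_nhds a (D.δ0 a))
  filter_upwards [h1, self_mem_nhdsWithin] with b hb1 hb2
  have ha' : F a = c := ha
  have hb' : F b = c := hb2
  have h3 := ag_near D (x := a) (y := b) hb1 (by rw [ha', hb', dist_self]; exact D.δ0 a)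
  rwa [hb'] at h3

lemma good_open [CompactSpace X] (D : Dat F φ κ δ L) {c : ℂ} (hc : ‖c‖ = 1) (h : Good F L c) :
    ∀ᶠ c' in 𝓝[sphere (0 : ℂ) 1] c, Good F L c' := by
  by_contra hcon
  have hfr : ∃ᶠ c' in 𝓝[sphere (0 : ℂ) 1] c, ¬ Good F L c' := by
    rw [Filter.Frequently]
    intro h'
    apply hcon
    filter_upwards [h'] with c' hc'
    exact not_not.1 hc'
  obtain ⟨u, hu1, hu2⟩ := exists_seq_forall_of_frequently hfr
  have hu3 : Tendsto u atTop (𝓝 c) := hu1.mono_right nhdsWithin_le_nhds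
  have hx : ∀ n, ∃ p : X × X, F p.1 = u n ∧ F p.2 = u n ∧ ¬ Ag L (u n) p.1 p.2 := by
    intro n
    have h1 := hu2 n
    unfold Good at h1
    push Not at h1
    obtain ⟨x, y, h2, h3, h4⟩ := h1
    exact ⟨(x, y), h2, h3, h4⟩
  choose p hp1 hp2 hp3 using hx
  obtain ⟨q, ψ, hψ, hq⟩ := CompactSpace.tendsto_subseq p
  have hq1 : Tendsto (fun n => (p (ψ n)).1) atTop (𝓝 q.1) :=
    (continuous_fst.tendsto q).comp hq
  have hq2 : Tendsto (fun n => (p (ψ n)).2) atTop (𝓝 q.2) :=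
    (continuous_snd.tendsto q).comp hq
  have hus : Tendsto (fun n => u (ψ n)) atTop (𝓝 c) := hu3.comp hψ.tendsto_atTop
  have hF1 : F q.1 = c := by
    refine tendsto_nhds_unique ((D.Fc.tendsto q.1).comp hq1) ?_
    refine hus.congr fun n => ?_
    exact (hp1 (ψ n)).symm
  have hF2 : F q.2 = c := by
    refine tendsto_nhds_unique ((D.Fc.tendsto q.2).comp hq2) ?_
    refine hus.congr fun n => ?_
    exact (hp2 (ψ n)).symm
  have hA := h q.1 q.2 hF1 hF2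
  have hE := hA.eqOn D hc (by rw [hF1, dist_self]; exact D.δ0 _)
    (by rw [hF2, dist_self]; exact D.δ0 _)
  have e1 : ∀ᶠ n in atTop, dist (p (ψ n)).1 q.1 < δ q.1 := hq1 (ball_mem_nhds _ (D.δ0 _))
  have e2 : ∀ᶠ n in atTop, dist (p (ψ n)).2 q.2 < δ q.2 := hq2 (ball_mem_nhds _ (D.δ0 _))
  have e3 : ∀ᶠ n in atTop, dist (u (ψ n)) c < δ q.1 := hus (ball_mem_nhds _ (D.δ0 _))
  have e4 : ∀ᶠ n in atTop, dist (u (ψ n)) c < δ q.2 := hus (ball_mem_nhds _ (D.δ0 _))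
  obtain ⟨n, h1, h2, h3, h4⟩ := (e1.and (e2.and (e3.and e4))).exists
  have a1 := ag_near D h1 (by rw [hp1, hF1]; exact h3)
  have a2 := ag_near D h2 (by rw [hp2, hF2]; exact h4)
  rw [hp1] at a1
  rw [hp2] at a2
  have a3 : Ag L (u (ψ n)) q.1 q.2 := ag_of_eqOn (F := F) (δ := δ) (by rw [hF1]; exact h3)
    (by rw [hF2]; exact h4) hE
  exact hp3 (ψ n) (a1.symm.trans (a3.trans a2))

lemma bad_open (D : Dat F φ κ δ L) {c : ℂ} (h : ¬ Good F L c) :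
    ∀ᶠ c' in 𝓝[sphere (0 : ℂ) 1] c, ¬ Good F L c' := by
  unfold Good at h
  push Not at h
  obtain ⟨x, y, hx, hy, hn⟩ := h
  obtain ⟨ε₁, hε₁, h1⟩ := D.hl x (δ x) (D.δ0 x)
  obtain ⟨ε₂, hε₂, h2⟩ := D.hl y (δ y) (D.δ0 y)
  have e1 : ∀ {s : ℝ}, 0 < s → ∀ᶠ c' in 𝓝[sphere (0 : ℂ) 1] c, dist c' c < s := fun hs =>
    mem_nhdsWithin_of_mem_nhds (ball_mem_nhds _ hs)
  filter_upwards [self_mem_nhdsWithin, e1 hε₁, e1 hε₂, e1 (D.δ0 x), e1 (D.δ0 y)] with c' h0 h3 h4 h5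
    h6 hg
  rw [mem_sphere_zero_iff_norm] at h0
  obtain ⟨x', hx1, hx2⟩ := h1 c' h0 (by rw [hx]; exact h3)
  obtain ⟨y', hy1, hy2⟩ := h2 c' h0 (by rw [hy]; exact h4)
  have a1 := ag_near D hx1 (by rw [hx2, hx]; exact h5)
  have a2 := ag_near D hy1 (by rw [hy2, hy]; exact h6)
  rw [hx2] at a1
  rw [hy2] at a2
  have a3 := a1.trans ((hg x' y' hx2 hy2).trans a2.symm)
  have hE := a3.eqOn D h0 (by rw [hx]; exact h5) (by rw [hy]; exact h6)
  exact hn (ag_of_eqOn (F := F) (δ := δ) (by rw [hx, dist_self]; exact D.δ0 x)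
    (by rw [hy, dist_self]; exact D.δ0 y) hE)

lemma sphere_preconn : IsPreconnected (sphere (0 : ℂ) 1) := by
  refine isPreconnected_sphere ?_ 0 1
  rw [Complex.rank_real_complex]
  norm_num

lemma iff_of_local {p : ℂ → Prop}
    (h1 : ∀ c, ‖c‖ = 1 → p c → ∀ᶠ c' in 𝓝[sphere (0 : ℂ) 1] c, p c')
    (h2 : ∀ c, ‖c‖ = 1 → ¬ p c → ∀ᶠ c' in 𝓝[sphere (0 : ℂ) 1] c, ¬ p c')
    (h3 : p 1) : ∀ c, ‖c‖ = 1 → p c := by
  intro c hc
  have h4 := sphere_preconn.induction₂ (fun a b => (p a ↔ p b)) ?_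
    (fun a b c _ _ _ h1 h2 => h1.trans h2) (fun a b _ _ h1 => h1.symm)
    (x := 1) (y := c) (by simp) (by simpa using hc)
  · exact h4.1 h3
  · intro a ha
    rw [mem_sphere_zero_iff_norm] at ha
    by_cases h : p a
    · filter_upwards [h1 a ha h] with b hb
      exact ⟨fun _ => hb, fun _ => h⟩
    · filter_upwards [h2 a ha h] with b hb
      exact ⟨fun h' => absurd h' h, fun h' => absurd h' hb⟩

lemma good_all [CompactSpace X] (D : Dat F φ κ δ L) (h : IsConnected (F ⁻¹' {1})) :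
    ∀ c : ℂ, ‖c‖ = 1 → Good F L c :=
  iff_of_local (fun _ hc h => good_open D hc h) (fun _ _ h => bad_open D h) (good_conn D h)

lemma surj [CompactSpace X] (D : Dat F φ κ δ L) (h : IsConnected (F ⁻¹' {1})) :
    ∀ c : ℂ, ‖c‖ = 1 → ∃ x, F x = c := by
  refine iff_of_local ?_ ?_ ?_
  · rintro c hc ⟨x, hx⟩
    obtain ⟨ε, hε, h1⟩ := D.hl x 1 one_pos
    have e1 : ∀ᶠ c' in 𝓝[sphere (0 : ℂ) 1] c, dist c' c < ε :=
      mem_nhdsWithin_of_mem_nhds (ball_mem_nhds _ hε)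
    filter_upwards [self_mem_nhdsWithin, e1] with c' h0 h3
    rw [mem_sphere_zero_iff_norm] at h0
    obtain ⟨y, -, hy⟩ := h1 c' h0 (by rw [hx]; exact h3)
    exact ⟨y, hy⟩
  · intro c hc hn
    have h1 : IsClosed (range F) := (isCompact_range D.Fc).isClosed
    have h2 : (range F)ᶜ ∈ 𝓝 c := h1.isOpen_compl.mem_nhds fun ⟨x, hx⟩ => hn ⟨x, hx⟩
    filter_upwards [mem_nhdsWithin_of_mem_nhds h2] with c' hc' h3
    exact hc' h3
  · obtain ⟨x, hx⟩ := h.nonempty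
    exact ⟨x, hx⟩

/-- the glued function -/
lemma glued (D : Dat F φ κ δ L) (hgood : ∀ c : ℂ, ‖c‖ = 1 → Good F L c)
    (hsurj : ∀ c : ℂ, ‖c‖ = 1 → ∃ x, F x = c) :
    ∃ ε : ℝ, 0 < ε ∧ ε < 1 ∧ ∃ K : ℂ → ℂ, DifferentiableOn ℂ K {w | 1 - ε < ‖w‖ ∧ ‖w‖ < 1} ∧
      ∀ x, ∀ᶠ t : ℝ in 𝓝[>] 0, κ x t = K (φ x t) := by
  -- smaller discs over which points of the circle lift near `x`
  have hl : ∀ x, ∃ η : ℝ, 0 < η ∧ η ≤ δ x ∧ ∀ c : ℂ, ‖c‖ = 1 → dist c (F x) < η →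
      ∃ y, dist y x < δ x ∧ F y = c := by
    intro x
    obtain ⟨η, hη, h1⟩ := D.hl x (δ x) (D.δ0 x)
    exact ⟨min η (δ x), lt_min hη (D.δ0 x), min_le_right _ _, fun c hc h2 =>
      h1 c hc (h2.trans_le (min_le_left _ _))⟩
  choose η hη hηδ hηl using hl
  -- the germs of `L x`, `L x'` agree at every point of the circle in both small discs
  have key : ∀ x x' : X, ∀ c : ℂ, ‖c‖ = 1 → dist c (F x) < η x → dist c (F x') < η x' →
      EqOn (L x) (L x') (Cd F δ x x') := by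
    intro x x' c hc h1 h2
    obtain ⟨y, hy1, hy2⟩ := hηl x c hc h1
    obtain ⟨y', hy1', hy2'⟩ := hηl x' c hc h2
    have a1 := ag_near D hy1 (by rw [hy2]; exact h1.trans_le (hηδ x))
    have a2 := ag_near D hy1' (by rw [hy2']; exact h2.trans_le (hηδ x'))
    rw [hy2] at a1
    rw [hy2'] at a2
    exact (a1.trans ((hgood c hc y y' hy2 hy2').trans a2.symm)).eqOn D hc
      (h1.trans_le (hηδ x)) (h2.trans_le (hηδ x'))
  obtain ⟨ε₀, hε₀, hleb⟩ := lebesgue_number_lemma_of_metric (s := sphere (0 : ℂ) 1)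
    (c := fun x : X => ball (F x) (η x)) (isCompact_sphere 0 1) (fun _ => isOpen_ball) (by
      intro c hc
      rw [mem_sphere_zero_iff_norm] at hc
      obtain ⟨x, hx⟩ := hsurj c hc
      exact mem_iUnion.2 ⟨x, by rw [hx]; exact mem_ball_self (hη x)⟩)
  have hch : ∀ c : ℂ, ∃ x : X, ‖c‖ = 1 → ball c ε₀ ⊆ ball (F x) (η x) := by
    intro c
    obtain ⟨x₀, -⟩ := hsurj 1 norm_one
    by_cases hc : ‖c‖ = 1
    · obtain ⟨x, hx⟩ := hleb c (mem_sphere_zero_iff_norm.2 hc)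
      exact ⟨x, fun _ => hx⟩
    · exact ⟨x₀, fun h' => absurd h' hc⟩
  choose s hs using hch
  set K : ℂ → ℂ := fun w => L (s (w / ‖w‖)) w with hK
  have hunit : ∀ w : ℂ, w ≠ 0 → ‖w / ‖w‖‖ = 1 := by
    intro w hw
    rw [norm_div, Complex.norm_real, norm_norm, div_self (norm_ne_zero_iff.2 hw)]
  have hdist : ∀ w : ℂ, w ≠ 0 → ‖w‖ < 1 → dist w (w / ‖w‖) = 1 - ‖w‖ := by
    intro w hw hw1
    have h0 : (‖w‖ : ℂ) ≠ 0 := by exact_mod_cast norm_ne_zero_iff.2 hw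
    have h1 : w - w / ‖w‖ = -((1 - ‖w‖ : ℝ) : ℂ) * (w / ‖w‖) := by
      push_cast
      field_simp
      ring
    rw [dist_eq_norm, h1, norm_mul, hunit w hw, norm_neg, Complex.norm_real, mul_one,
      Real.norm_of_nonneg (by linarith)]
  set ε := min ε₀ (1 / 2) with hε
  have hε1 : 0 < ε := lt_min hε₀ (by norm_num)
  have hε2 : ε < 1 := (min_le_right _ _).trans_lt (by norm_num)
  have hne0 : ∀ w : ℂ, 1 - ε < ‖w‖ → w ≠ 0 := by
    intro w hw h0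
    rw [h0, norm_zero] at hw
    linarith
  have hcdiv : ∀ w : ℂ, w ≠ 0 → ContinuousAt (fun w : ℂ => w / (‖w‖ : ℂ)) w := by
    intro w hw
    exact continuousAt_id.div (Complex.continuous_ofReal.comp continuous_norm).continuousAt
      (by exact_mod_cast norm_ne_zero_iff.2 hw)
  refine ⟨ε, hε1, hε2, K, ?_, ?_⟩
  · rintro w ⟨hw1, hw2⟩
    have hw0 := hne0 w hw1
    set c := w / (‖w‖ : ℂ) with hc
    have hc1 : ‖c‖ = 1 := hunit w hw0
    have hwc : dist w c < ε₀ := by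
      rw [hdist w hw0 hw2]
      have := min_le_left ε₀ (1 / 2 : ℝ)
      linarith
    have hdiff : DifferentiableAt ℂ (L (s c)) w := by
      refine ((D.Ld (s c)) w ⟨?_, ?_⟩).differentiableAt ?_
      · exact ball_subset_ball (hηδ _) (hs c hc1 hwc)
      · exact mem_ball_zero_iff.2 hw2
      · exact (isOpen_ball.inter isOpen_ball).mem_nhds
          ⟨ball_subset_ball (hηδ _) (hs c hc1 hwc), mem_ball_zero_iff.2 hw2⟩
    have heq : K =ᶠ[𝓝 w] L (s c) := by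
      have e1 : ∀ᶠ w' in 𝓝 w, dist (w' / (‖w'‖ : ℂ)) c < ε₀ :=
        (hcdiv w hw0) (ball_mem_nhds _ hε₀)
      have e2 : ∀ᶠ w' in 𝓝 w, dist w' c < ε₀ := isOpen_ball.mem_nhds hwc
      have e3 : ∀ᶠ w' : ℂ in 𝓝 w, 1 - ε < ‖w'‖ := continuous_norm.continuousAt (lt_mem_nhds hw1)
      have e4 : ∀ᶠ w' : ℂ in 𝓝 w, ‖w'‖ < 1 := continuous_norm.continuousAt (gt_mem_nhds hw2)
      filter_upwards [e1, e2, e3, e4] with w' h1 h2 h3 h4
      have hw0' := hne0 w' h3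
      have hc1' := hunit w' hw0'
      have hwc' : dist w' (w' / (‖w'‖ : ℂ)) < ε₀ := by
        rw [hdist w' hw0' h4]
        have := min_le_left ε₀ (1 / 2 : ℝ)
        linarith
      have h5 := key (s (w' / (‖w'‖ : ℂ))) (s c) (w' / (‖w'‖ : ℂ)) hc1'
        (hs _ hc1' (mem_ball_self hε₀)) (hs c hc1 h1)
      exact h5 ⟨⟨ball_subset_ball (hηδ _) (hs _ hc1' hwc'), ball_subset_ball (hηδ _) (hs c hc1 h2)⟩,
        mem_ball_zero_iff.2 h4⟩
    exact (hdiff.congr_of_eventuallyEq heq).differentiableWithinAt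
  · intro x
    have hF0 : F x ≠ 0 := by
      intro h0
      have := D.Fn x
      rw [h0, norm_zero] at this
      exact zero_ne_one this
    have hlim : Tendsto (fun t => φ x t / (‖φ x t‖ : ℂ)) (𝓝[>] 0) (𝓝 (F x)) := by
      have h1 := (hcdiv (F x) hF0).tendsto.comp (D.ht x)
      simp only [D.Fn x, Complex.ofReal_one, div_one] at h1
      exact h1
    have e1 : ∀ᶠ t in 𝓝[>] (0 : ℝ), dist (φ x t / (‖φ x t‖ : ℂ)) (F x) < η x :=
      hlim (ball_mem_nhds _ (hη x))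
    have e2 : ∀ᶠ t in 𝓝[>] (0 : ℝ), dist (φ x t) (F x) < η x :=
      (D.ht x) (ball_mem_nhds _ (hη x))
    have e3 : ∀ᶠ t in 𝓝[>] (0 : ℝ), 1 - ε < ‖φ x t‖ := by
      have h1 : Tendsto (fun t => ‖φ x t‖) (𝓝[>] 0) (𝓝 ‖F x‖) := (D.ht x).norm
      rw [D.Fn x] at h1
      exact h1 (lt_mem_nhds (by linarith))
    filter_upwards [e1, e2, e3, D.hr x, D.hk x x (by rw [dist_self]; exact D.δ0 x)] with t h1 h2 h3
      h4 h5
    have hw0 := hne0 _ h3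
    have hc1 := hunit _ hw0
    have hwc : dist (φ x t) (φ x t / (‖φ x t‖ : ℂ)) < ε₀ := by
      rw [hdist _ hw0 h4.1]
      have := min_le_left ε₀ (1 / 2 : ℝ)
      linarith
    rw [h5]
    have h6 := key x (s (φ x t / (‖φ x t‖ : ℂ))) (φ x t / (‖φ x t‖ : ℂ)) hc1 h1
      (hs _ hc1 (mem_ball_self hε₀))
    exact h6 ⟨⟨ball_subset_ball (hηδ _) h2, ball_subset_ball (hηδ _) (hs _ hc1 hwc)⟩,
      mem_ball_zero_iff.2 h4.1⟩

end

/-- row GLUE -/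
theorem glue : H22.GLUE := by
  intro X _ _ F φ κ hF hFn hφ hreg hloc hlift hconn
  choose δ hδ L hL hκ using hloc
  have D : Dat F φ κ δ L := ⟨hFn, hF, hφ, hreg, hδ, hL, hκ, hlift⟩
  exact ⟨surj D hconn, glued D (good_all D hconn) (surj D hconn)⟩

end Pool.Agent.Lib.MP_6ff8d9_an.Rat.H82
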