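import Pool.Agent.Lib.MP_6ff8d9_an_h11.Rows

/-!
# MP_6ff8d9 PERRON, row MINP: minimum principle
-/

open Metric Set Filter Topology Real

namespace Pool.Agent.Lib.MP_6ff8d9_an.Rat.H82

open Pool.Agent.Lib.MP_6ff8d9_an

/-- row MINP -/
theorem minp : H11.MINP := by
  intro Ω u hΩ hbd hsup hfr w₀ hw₀
  by_contra hneg
  push Not at hneg
  obtain ⟨hcont, hmean⟩ := hsup
  set K : Set ℂ := {w | w ∈ Ω ∧ u w ≤ u w₀} with hK
  have hKcl : IsClosed K := by
    refine isClosed_of_closure_subset fun ζ hζ => ?_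
    have hζΩ : ζ ∈ closure Ω := closure_mono (fun w hw => hw.1) hζ
    have hne : (𝓝[K] ζ).NeBot := mem_closure_iff_nhdsWithin_neBot.1 hζ
    by_cases h : ζ ∈ Ω
    · refine ⟨h, ?_⟩
      have h1 : Tendsto u (𝓝[K] ζ) (𝓝 (u ζ)) :=
        (hcont ζ h).mono_left (nhdsWithin_mono ζ fun w hw => hw.1)
      refine le_of_tendsto h1 ?_
      filter_upwards [self_mem_nhdsWithin] with w hw
      exact hw.2
    · exfalso
      have h1 : ζ ∈ frontier Ω := ⟨hζΩ, fun h' => h (interior_subset h')⟩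
      have h2 := hfr ζ h1 (-(u w₀) / 2) (by linarith)
      have h3 : ∀ᶠ w in 𝓝[K] ζ, -(-(u w₀) / 2) ≤ u w :=
        h2.filter_mono (nhdsWithin_mono ζ fun w hw => hw.1)
      obtain ⟨w, h4, h5⟩ := (h3.and self_mem_nhdsWithin).exists
      have h6 : u w ≤ u w₀ := h5.2
      linarith
  have hKc : IsCompact K := Metric.isCompact_of_isClosed_isBounded hKcl
    (hbd.subset fun w hw => hw.1)
  have hKcont : ContinuousOn u K := hcont.mono fun w hw => hw.1
  obtain ⟨a, haK, ha⟩ := hKc.exists_isMinOn ⟨w₀, hw₀, le_rfl⟩ hKcont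
  have hmin : ∀ w ∈ Ω, u a ≤ u w := by
    intro w hw
    by_cases h : u w ≤ u w₀
    · exact ha ⟨hw, h⟩
    · push Not at h
      exact haK.2.trans h.le
  have hK' : IsCompact {w | w ∈ K ∧ u w = u a} := by
    refine Metric.isCompact_of_isClosed_isBounded ?_ (hbd.subset fun w hw => hw.1.1)
    have h1 := hKcont.preimage_isClosed_of_isClosed hKcl (isClosed_singleton (x := u a))
    exact h1
  obtain ⟨c, hc, hcmax⟩ := hK'.exists_isMaxOn ⟨a, haK, rfl⟩ Complex.continuous_re.continuousOn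
  have hcΩ : c ∈ Ω := hc.1.1
  obtain ⟨ε, hε, hball⟩ := Metric.isOpen_iff.1 hΩ c hcΩ
  have hev : ∀ᶠ r : ℝ in 𝓝[>] 0, r < ε := mem_nhdsWithin_of_mem_nhds (gt_mem_nhds hε)
  obtain ⟨r, ⟨hr1, hr2⟩, hr3⟩ := (((hmean c hcΩ).and hev).and self_mem_nhdsWithin).exists
  have hr0 : 0 < r := hr3
  have hmem : ∀ θ : ℝ, circleMap c r θ ∈ Ω := by
    intro θ
    refine hball ?_
    rw [mem_ball, dist_eq_norm]
    have : ‖circleMap c r θ - c‖ = r := by simp [circleMap, abs_of_pos hr0]
    rw [this]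
    exact hr2
  have hcm : Continuous fun θ : ℝ => u (circleMap c r θ) :=
    hcont.comp_continuous (continuous_circleMap c r) hmem
  have hpt : u (c + r) = u a := by
    by_contra hne
    have h1 : c + r = circleMap c r 0 := by simp [circleMap]
    have h2 : u a < u (circleMap c r 0) := by
      rw [← h1]
      refine lt_of_le_of_ne (hmin _ ?_) (Ne.symm hne)
      rw [h1]
      exact hmem 0
    have h3 := intervalIntegral.integral_pos (a := 0) (b := 2 * π)
      (f := fun θ => u (circleMap c r θ) - u a) (by positivity) (hcm.sub continuous_const).continuousOn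
      (fun θ _ => by linarith [hmin _ (hmem θ)]) ⟨0, ⟨le_rfl, by positivity⟩, by linarith⟩
    rw [intervalIntegral.integral_sub (hcm.intervalIntegrable _ _)
      intervalIntegrable_const, intervalIntegral.integral_const, sub_zero, smul_eq_mul] at h3
    have h4 : circleAverage u c r ≤ u a := by
      rw [← hc.2]
      exact hr1
    unfold circleAverage at h4
    rw [smul_eq_mul] at h4
    have hπ : 0 < 2 * π := by positivity
    have h5 : (2 * π) * ((2 * π)⁻¹ * ∫ θ in (0 : ℝ)..2 * π, u (circleMap c r θ)) =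
        ∫ θ in (0 : ℝ)..2 * π, u (circleMap c r θ) := by
      rw [← mul_assoc, mul_inv_cancel₀ hπ.ne', one_mul]
    have h6 := mul_le_mul_of_nonneg_left h4 hπ.le
    rw [h5] at h6
    linarith
  have hcr : c + r ∈ Ω := by
    have h1 : c + r = circleMap c r 0 := by simp [circleMap]
    rw [h1]
    exact hmem 0
  have hcr' : c + r ∈ {w | w ∈ K ∧ u w = u a} := ⟨⟨hcr, by rw [hpt]; exact haK.2⟩, hpt⟩
  have h1 := hcmax hcr'
  simp at h1
  linarith

end Pool.Agent.Lib.MP_6ff8d9_an.Rat.H82
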