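import Pool.Agent.Lib.MP_6ff8d9_an_h69.Rows

/-!
# MP_6ff8d9 PRIME rows, GREEN: the Green function of one sheet
-/

open Metric Filter Topology MvPolynomial InnerProductSpace Real
open scoped ComplexConjugate

namespace Pool.Agent.Lib.MP_6ff8d9_an.H82L

open Pool.Agent.Lib.MP_6ff8d9_an Pool.Agent.Lib.MP_6ff8d9_an.H11
open Pool.Agent.Lib.MP_6ff8d9_an.P69

noncomputable section

/-! ## mean values -/

lemma ev_closedBall {s : Set ℂ} (hs : IsOpen s) {c : ℂ} (hc : c ∈ s) :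
    ∀ᶠ r : ℝ in 𝓝[>] 0, closedBall c |r| ⊆ s := by
  obtain ⟨ε, hε, hb⟩ := Metric.isOpen_iff.1 hs c hc
  have h1 : ∀ᶠ r : ℝ in 𝓝[>] 0, r < ε := mem_nhdsWithin_of_mem_nhds (gt_mem_nhds hε)
  filter_upwards [h1, self_mem_nhdsWithin] with r hr hr0
  have hr0' : 0 < r := hr0
  rw [abs_of_pos hr0']
  exact (closedBall_subset_ball hr).trans hb

lemma ci {U : ℂ → ℝ} {s : Set ℂ} {c : ℂ} {r : ℝ} (h : ContinuousOn U s)
    (hr : closedBall c |r| ⊆ s) : CircleIntegrable U c r :=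
  ContinuousOn.circleIntegrable' (h.mono (sphere_subset_closedBall.trans hr))

lemma har_cont {q : ℂ → ℝ} {s : Set ℂ} (hq : HarmonicOnNhd q s) : ContinuousOn q s := fun w hw =>
  (hq w hw).1.continuousAt.continuousWithinAt

lemma har_mean {q : ℂ → ℝ} {s : Set ℂ} (hq : HarmonicOnNhd q s) {c : ℂ} {r : ℝ}
    (hr : closedBall c |r| ⊆ s) : circleAverage q c r = q c :=
  InnerProductSpace.HarmonicOnNhd.circleAverage_eq (fun w hw => hq w (hr hw))

lemma supM_har {q : ℂ → ℝ} {s : Set ℂ} (hs : IsOpen s) (hq : HarmonicOnNhd q s) : SupM q s := by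
  refine ⟨har_cont hq, fun c hc => ?_⟩
  filter_upwards [ev_closedBall hs hc] with r hr
  exact (har_mean hq hr).le

lemma supM_har_min {q : ℂ → ℝ} {s : Set ℂ} (hs : IsOpen s) (hq : HarmonicOnNhd q s) (C : ℝ) :
    SupM (fun c => min (q c) C) s := by
  have hcont : ContinuousOn (fun c => min (q c) C) s :=
    continuous_min.comp_continuousOn ((har_cont hq).prodMk continuousOn_const)
  refine ⟨hcont, fun c hc => ?_⟩
  filter_upwards [ev_closedBall hs hc] with r hr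
  refine le_min ?_ ?_
  · rw [← har_mean hq hr]
    exact circleAverage_mono (ci hcont hr) (ci (har_cont hq) hr) (fun x _ => min_le_left _ _)
  · have h1 : circleAverage (fun _ : ℂ => C) c r = C := circleAverage_const _ _ _
    have h2 := circleAverage_mono (f₁ := fun c => min (q c) C) (f₂ := fun _ : ℂ => C)
      (ci hcont hr) (ci continuousOn_const hr) (fun x _ => min_le_right _ _)
    rwa [h1] at h2

lemma subM_har_max {q : ℂ → ℝ} {s : Set ℂ} (hs : IsOpen s) (hq : HarmonicOnNhd q s) (C : ℝ) :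
    SubM (fun c => max (q c - C) 0) s := by
  have hcont : ContinuousOn (fun c => max (q c - C) 0) s :=
    continuous_max.comp_continuousOn (((har_cont hq).sub continuousOn_const).prodMk
      continuousOn_const)
  have hc2 : ContinuousOn (fun c => q c - C) s := (har_cont hq).sub continuousOn_const
  refine ⟨hcont, fun c hc => ?_⟩
  filter_upwards [ev_closedBall hs hc] with r hr
  have h0 : circleAverage (fun _ : ℂ => C) c r = C := circleAverage_const _ _ _
  refine max_le ?_ ?_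
  · have h1 : circleAverage (fun x => q x - C) c r = q c - C := by
      rw [circleAverage_fun_sub (ci (har_cont hq) hr) (ci continuousOn_const hr),
        har_mean hq hr, h0]
    rw [← h1]
    exact circleAverage_mono (ci hc2 hr) (ci hcont hr) (fun x _ => le_max_left _ _)
  · have h1 : circleAverage (fun _ : ℂ => (0 : ℝ)) c r = 0 := circleAverage_const _ _ _
    have h2 := circleAverage_mono (f₁ := fun _ : ℂ => (0 : ℝ)) (f₂ := fun c => max (q c - C) 0)
      (ci continuousOn_const hr) (ci hcont hr) (fun x _ => le_max_right _ _)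
    rwa [h1] at h2

lemma subM_zero' (s : Set ℂ) : SubM (fun _ => (0 : ℝ)) s := by
  refine ⟨continuousOn_const, fun c _ => ?_⟩
  filter_upwards with r
  rw [circleAverage_const]

/-! ## the function `q` -/

/-- the Green function of the disc -/
def gq (w0 w : ℂ) : ℝ := -Real.log ‖mob w0 w‖

lemma den_ne {w0 w : ℂ} (h0 : ‖w0‖ < 1) (h : ‖w‖ < 1) : 1 - conj w0 * w ≠ 0 := by
  intro h1
  have h2 : ‖conj w0 * w‖ < 1 := by
    rw [norm_mul, Complex.norm_conj]
    exact mul_lt_one_of_nonneg_of_lt_one_left (norm_nonneg _) h0 h.le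
  rw [← sub_eq_zero.1 h1, norm_one] at h2
  exact lt_irrefl _ h2

lemma norm_mob {w0 : ℂ} (h0 : ‖w0‖ < 1) (w : ℂ) :
    ‖mob w0 w‖ = ‖w - w0‖ / ‖1 - conj w0 * w‖ := by
  unfold mob
  rw [norm_mul, norm_div, norm_div]
  have h1 : ‖1 - conj w0‖ = ‖1 - w0‖ := by
    rw [← Complex.norm_conj (1 - w0), map_sub, map_one]
  have h2 : ‖1 - w0‖ ≠ 0 := by
    intro h
    have h3 := sub_eq_zero.1 (norm_eq_zero.1 h)
    rw [← h3, norm_one] at h0
    exact lt_irrefl _ h0
  rw [h1, div_self h2, one_mul]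

lemma norm_mob_lt {w0 w : ℂ} (h0 : ‖w0‖ < 1) (h : ‖w‖ < 1) : ‖mob w0 w‖ < 1 := by
  have h1 : 0 < ‖1 - conj w0 * w‖ := norm_pos_iff.2 (den_ne h0 h)
  rw [norm_mob h0, div_lt_one h1]
  have e1 : ‖w - w0‖ ^ 2 = ‖w‖ ^ 2 + ‖w0‖ ^ 2 - 2 * (conj w0 * w).re := by
    rw [Complex.sq_norm, Complex.sq_norm, Complex.sq_norm, Complex.normSq_apply,
      Complex.normSq_apply, Complex.normSq_apply]
    simp
    ring
  have e2 : ‖1 - conj w0 * w‖ ^ 2 = 1 + ‖w‖ ^ 2 * ‖w0‖ ^ 2 - 2 * (conj w0 * w).re := by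
    rw [Complex.sq_norm, Complex.sq_norm, Complex.sq_norm, Complex.normSq_apply,
      Complex.normSq_apply, Complex.normSq_apply]
    simp
    ring
  have h2 : ‖w - w0‖ ^ 2 < ‖1 - conj w0 * w‖ ^ 2 := by
    rw [e1, e2]
    have h3 : 0 < (1 - ‖w‖ ^ 2) * (1 - ‖w0‖ ^ 2) := by
      refine mul_pos ?_ ?_
      · nlinarith [norm_nonneg w]
      · nlinarith [norm_nonneg w0]
    nlinarith
  exact lt_of_pow_lt_pow_left₀ 2 (norm_nonneg _) h2

lemma mob_ne {w0 w : ℂ} (h0 : ‖w0‖ < 1) (h : ‖w‖ < 1) (hne : w ≠ w0) : mob w0 w ≠ 0 := by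
  rw [← norm_pos_iff, norm_mob h0]
  exact div_pos (norm_pos_iff.2 (sub_ne_zero.2 hne)) (norm_pos_iff.2 (den_ne h0 h))

lemma gq_nonneg {w0 w : ℂ} (h0 : ‖w0‖ < 1) (h : ‖w‖ < 1) : 0 ≤ gq w0 w := by
  unfold gq
  have h1 := Real.log_nonpos (norm_nonneg (mob w0 w)) (norm_mob_lt h0 h).le
  linarith

lemma gq_lt {w0 w : ℂ} (h0 : ‖w0‖ < 1) (h : ‖w‖ < 1) {ρ : ℝ} (hρ : 0 < ρ)
    (hw : ρ / 2 ≤ ‖w - w0‖) : gq w0 w < |Real.log (4 / ρ)| + 1 := by
  unfold gq
  have h1 : 0 < ‖1 - conj w0 * w‖ := norm_pos_iff.2 (den_ne h0 h)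
  have h2 : ‖1 - conj w0 * w‖ ≤ 2 := by
    refine (norm_sub_le _ _).trans ?_
    rw [norm_one, norm_mul, Complex.norm_conj]
    nlinarith [norm_nonneg w0, norm_nonneg w]
  have h3 : ρ / 4 ≤ ‖mob w0 w‖ := by
    rw [norm_mob h0, le_div_iff₀ h1]
    nlinarith
  have h4 : Real.log (ρ / 4) ≤ Real.log ‖mob w0 w‖ := Real.log_le_log (by positivity) h3
  have h5 : Real.log (4 / ρ) = -Real.log (ρ / 4) := by
    rw [← Real.log_inv, inv_div]
  have h6 := le_abs_self (Real.log (4 / ρ))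
  linarith

lemma gq_har {w0 : ℂ} (h0 : ‖w0‖ < 1) : HarmonicOnNhd (gq w0) (ball 0 1 \ {w0}) := by
  intro w hw
  have hw1 : ‖w‖ < 1 := mem_ball_zero_iff.1 hw.1
  have hne : w ≠ w0 := hw.2
  have han : AnalyticAt ℂ (mob w0) w := by
    unfold mob
    have h1 : AnalyticAt ℂ (fun w : ℂ => (w - w0) / (1 - conj w0 * w)) w :=
      (analyticAt_id.sub analyticAt_const).div
        (analyticAt_const.sub (analyticAt_const.mul analyticAt_id)) (den_ne h0 hw1)
    exact analyticAt_const.mul h1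
  exact (han.harmonicAt_log_norm (mob_ne h0 hw1 hne)).neg

lemma isOpen_D (w0 : ℂ) : IsOpen (ball (0 : ℂ) 1 \ {w0}) := isOpen_ball.sdiff isClosed_singleton

/-- row GREEN -/
theorem green (hP : PERRE) (hS : SECT) : GREEN := by
  intro n F O E hR hlt z1 hz1 z2 hz2 h12 hnE
  set w0 := F z1 with hw0
  have h0 : ‖w0‖ < 1 := hlt z1 hz1
  obtain ⟨ρ, hρ, σ, hσ0, hσd, hσ⟩ := hS n F O hR.op hR.an z1 hz1 (hR.sub z1 hz1)
  have hFc : ∀ z ∈ O, ContinuousAt F z := fun z hz =>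
    ((hR.an z hz).differentiableAt (hR.op.mem_nhds hz)).continuousAt
  have hσc : ∀ w ∈ ball w0 ρ, ContinuousAt σ w := fun w hw =>
    ((hσd w hw).differentiableAt (isOpen_ball.mem_nhds hw)).continuousAt
  set B : Set (Cn n) := {z | z ∈ O ∧ F z ∈ ball w0 ρ} with hB
  set T : Set (Cn n) := {z | z ∈ O ∧ F z ∈ ball w0 ρ ∧ E z (σ (F z))} with hT
  have hBo : IsOpen B := by
    rw [isOpen_iff_mem_nhds]
    rintro z ⟨h1, h2⟩
    filter_upwards [hR.op.mem_nhds h1, (hFc z h1) (isOpen_ball.mem_nhds h2)] with z' h3 h4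
    exact ⟨h3, h4⟩
  have hpair : ∀ z ∈ O, F z ∈ ball w0 ρ → ContinuousAt (fun z' => (z', σ (F z'))) z :=
    fun z h1 h2 => continuousAt_id.prodMk
      (ContinuousAt.comp (g := σ) (f := F) (hσc _ h2) (hFc z h1))
  have hTo : IsOpen T := by
    rw [isOpen_iff_mem_nhds]
    rintro z ⟨h1, h2, h3⟩
    have h4 := (hpair z h1 h2).eventually (hR.opn z h1 _ (hσ _ h2).1 h3)
    filter_upwards [hBo.mem_nhds (⟨h1, h2⟩ : z ∈ B), h4] with z' h5 h6
    exact ⟨h5.1, h5.2, h6 (hσ _ h5.2).2.symm⟩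
  have hTc : IsOpen (B \ T) := by
    rw [isOpen_iff_mem_nhds]
    rintro z ⟨⟨h1, h2⟩, h3⟩
    have h3' : ¬ E z (σ (F z)) := fun h => h3 ⟨h1, h2, h⟩
    have h4 := (hpair z h1 h2).eventually
      (hR.cls z h1 _ (hσ _ h2).1 (hσ _ h2).2.symm h3')
    filter_upwards [hBo.mem_nhds (⟨h1, h2⟩ : z ∈ B), h4] with z' h5 h6
    exact ⟨h5, fun h7 => h6 (hσ _ h5.2).2.symm h7.2.2⟩
  have hz1T : z1 ∈ T := ⟨hz1, mem_ball_self hρ, by
    rw [← hw0, hσ0]
    exact hR.refl z1 hz1⟩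
  have hz2T : z2 ∉ T := by
    rintro ⟨-, -, h⟩
    rw [← h12, hσ0] at h
    exact hnE (hR.symm z2 hz2 z1 hz1 h)
  have hinv : ∀ z ∈ O, ∀ z' ∈ O, E z z' → (z ∈ T → z' ∈ T) := by
    rintro z hz z' hz' h ⟨-, h2, h3⟩
    have h4 := hR.fib z z' h
    rw [h4] at h2 h3
    exact ⟨hz', h2, hR.trans z' hz' z hz _ (hσ _ h2).1 (hR.symm z hz z' hz' h) h3⟩
  have hinv' : ∀ z ∈ O, ∀ z' ∈ O, E z z' → (z ∈ T ↔ z' ∈ T) := fun z hz z' hz' h =>
    ⟨hinv z hz z' hz' h, hinv z' hz' z hz (hR.symm z hz z' hz' h)⟩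
  -- the open part
  set O' : Set (Cn n) := {z | z ∈ O ∧ F z ≠ w0} with hO'
  have hO'o : IsOpen O' := by
    rw [isOpen_iff_mem_nhds]
    rintro z ⟨h1, h2⟩
    filter_upwards [hR.op.mem_nhds h1, (hFc z h1).eventually_ne h2] with z' h3 h4
    exact ⟨h3, h4⟩
  have hR' : Rel n F O' E :=
    { op := hO'o
      an := hR.an.mono fun z hz => hz.1
      sub := fun z hz => hR.sub z hz.1
      refl := fun z hz => hR.refl z hz.1
      symm := fun z hz z' hz' => hR.symm z hz.1 z' hz'.1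
      trans := fun z hz z' hz' z'' hz'' => hR.trans z hz.1 z' hz'.1 z'' hz''.1
      fib := hR.fib
      opn := fun z hz z' hz' => hR.opn z hz.1 z' hz'.1
      cls := fun z hz z' hz' => hR.cls z hz.1 z' hz'.1 }
  set C : ℝ := |Real.log (4 / ρ)| + 1 with hC
  have hC0 : 0 < C := by positivity
  have hD : ∀ z ∈ O', F z ∈ ball (0 : ℂ) 1 \ {w0} := fun z hz =>
    ⟨mem_ball_zero_iff.2 (hlt z hz.1), hz.2⟩
  classical
  set H : Cn n → ℝ := fun z => if z ∈ T then gq w0 (F z) else min (gq w0 (F z)) C with hH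
  set u0 : Cn n → ℝ := fun z => if z ∈ T then max (gq w0 (F z) - C) 0 else 0 with hu0
  have hnear : ∀ z ∈ O', ∃ ε : ℝ, 0 < ε ∧ ball (F z) ε ⊆ ball (0 : ℂ) 1 \ {w0} := fun z hz =>
    Metric.isOpen_iff.1 (isOpen_D w0) _ (hD z hz)
  have hfar : ∀ z ∈ O', F z ∉ ball w0 ρ → ∀ᶠ z' in 𝓝 z, z' ∈ O' ∧ gq w0 (F z') < C := by
    intro z hz h1
    have h2 : ρ / 2 < ‖F z - w0‖ := by
      rw [mem_ball, dist_eq_norm, not_lt] at h1
      linarith
    have h3 : ∀ᶠ z' in 𝓝 z, ρ / 2 < ‖F z' - w0‖ :=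
      ((hFc z hz.1).sub continuousAt_const).norm.eventually (lt_mem_nhds h2)
    filter_upwards [hO'o.mem_nhds hz, h3] with z' h4 h5
    exact ⟨h4, gq_lt h0 (hlt z' h4.1) hρ h5.le⟩
  have hSup : SupE F O' E H := by
    refine ⟨fun z hz z' hz' h => ?_, fun z hz => ?_⟩
    · have h1 := hinv' z hz.1 z' hz'.1 h
      have h2 := hR.fib z z' h
      simp only [hH, h2, h1]
    · obtain ⟨ε, hε, hsub⟩ := hnear z hz
      have hq : HarmonicOnNhd (gq w0) (ball (F z) ε) := fun w hw => gq_har h0 w (hsub hw)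
      by_cases hzT : z ∈ T
      · refine ⟨ε, hε, gq w0, supM_har isOpen_ball hq, ?_⟩
        filter_upwards [hTo.mem_nhds hzT] with z' h1
        simp only [hH, if_pos h1]
      · by_cases hzB : F z ∈ ball w0 ρ
        · refine ⟨ε, hε, fun c => min (gq w0 c) C, supM_har_min isOpen_ball hq C, ?_⟩
          filter_upwards [hTc.mem_nhds (⟨⟨hz.1, hzB⟩, hzT⟩ : z ∈ B \ T)] with z' h1
          simp only [hH, if_neg h1.2]
        · refine ⟨ε, hε, gq w0, supM_har isOpen_ball hq, ?_⟩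
          filter_upwards [hfar z hz hzB] with z' h1
          simp only [hH]
          split_ifs
          · rfl
          · exact min_eq_left h1.2.le
  have hSub : SubE F O' E u0 := by
    refine ⟨fun z hz z' hz' h => ?_, fun z hz => ?_⟩
    · have h1 := hinv' z hz.1 z' hz'.1 h
      have h2 := hR.fib z z' h
      simp only [hu0, h2, h1]
    · obtain ⟨ε, hε, hsub⟩ := hnear z hz
      have hq : HarmonicOnNhd (gq w0) (ball (F z) ε) := fun w hw => gq_har h0 w (hsub hw)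
      by_cases hzT : z ∈ T
      · refine ⟨ε, hε, fun c => max (gq w0 c - C) 0, subM_har_max isOpen_ball hq C, ?_⟩
        filter_upwards [hTo.mem_nhds hzT] with z' h1
        simp only [hu0, if_pos h1]
      · by_cases hzB : F z ∈ ball w0 ρ
        · refine ⟨ε, hε, fun _ => 0, subM_zero' _, ?_⟩
          filter_upwards [hTc.mem_nhds (⟨⟨hz.1, hzB⟩, hzT⟩ : z ∈ B \ T)] with z' h1
          simp only [hu0, if_neg h1.2]
        · refine ⟨ε, hε, fun _ => 0, subM_zero' _, ?_⟩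
          filter_upwards [hfar z hz hzB] with z' h1
          simp only [hu0]
          split_ifs
          · exact max_eq_right (by linarith [h1.2])
          · rfl
  have hle : ∀ z ∈ O', u0 z ≤ H z := by
    intro z hz
    have h1 := gq_nonneg h0 (hlt z hz.1)
    simp only [hu0, hH]
    split_ifs
    · exact max_le (by linarith) h1
    · exact le_min h1 hC0.le
  obtain ⟨v, hv1, hv2⟩ := hP n F O' E H u0 hR' hSup hSub hle
  refine ⟨v, T, C, ρ, hρ, fun z hz => ⟨hz.1, hz.2.1⟩, hTo, hTc, hz1T, hz2T, fun z hz hne => ?_⟩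
  have hzO' : z ∈ O' := ⟨hz, hne⟩
  have hb := hv1 z hzO'
  have hu0n : 0 ≤ u0 z := by
    simp only [hu0]
    split_ifs
    · exact le_max_right _ _
    · exact le_rfl
  have hHq : H z ≤ gq w0 (F z) := by
    simp only [hH]
    split_ifs
    · exact le_rfl
    · exact min_le_left _ _
  refine ⟨?_, hu0n.trans hb.1, hb.2.trans hHq, fun h => ?_, fun h => ?_⟩
  · obtain ⟨ε, hε, U, hU, hev⟩ := hv2 z hzO'
    obtain ⟨f, hf, hfU⟩ := InnerProductSpace.HarmonicOnNhd.exists_analyticOnNhd_ball_re_eq hU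
    refine ⟨fun z => f (F z), ?_⟩
    have h1 : ∀ᶠ z' in 𝓝 z, F z' ∈ ball (F z) ε := (hFc z hz) (ball_mem_nhds _ hε)
    filter_upwards [hev, h1, hR.op.mem_nhds hz] with z' h2 h3 h4
    refine ⟨?_, ?_⟩
    · exact DifferentiableAt.comp z' (hf _ h3).differentiableAt
        ((hR.an z' h4).differentiableAt (hR.op.mem_nhds h4))
    · rw [h2]
      exact (hfU h3).symm
  · have h1 : u0 z = max (gq w0 (F z) - C) 0 := by simp only [hu0, if_pos h]
    have h2 := hb.1
    rw [h1] at h2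
    exact (le_max_left _ _).trans h2
  · have h1 : H z = min (gq w0 (F z)) C := by simp only [hH, if_neg h]
    have h2 := hb.2
    rw [h1] at h2
    exact h2.trans (min_le_right _ _)

end

end Pool.Agent.Lib.MP_6ff8d9_an.H82L
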