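import Pool.Agent.Lib.MP_6ff8d9_an_h82.Glob
import Pool.Agent.Lib.MP_6ff8d9_an_h22.Ext
import Pool.Agent.Lib.MP_6ff8d9_an_h99.LocalRow
import Pool.Agent.Lib.MP_6ff8d9_an_h99.Leaf
import Pool.Agent.Lib.MP_6ff8d9_an_h1.Contact
import Pool.Agent.Lib.MP_6ff8d9_an_h1.Radial
import Pool.Agent.Lib.MP_6ff8d9_an_h20r.Adm

/-!
# MP_6ff8d9 RATIONAL: FINAL2 from all rows
-/

open Metric Filter Topology MvPolynomial
open scoped ComplexConjugate

namespace Pool.Agent.Lib.MP_6ff8d9_an.Rat.H82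

open Pool.Agent.Lib.MP_6ff8d9_an Pool.Agent.Lib.MP_6ff8d9_an.H22

noncomputable section

/-- a contact point with `P ≠ Q` -/
lemma exists_ne_one {n : ℕ} {P Q : MvPolynomial (Fin n) ℂ} (hLIFT : LIFT) (hA : Adm P Q)
    (hD : Dual P Q) {m₀ : Fin n → ℂ} (h1 : ∑ i, ‖m₀ i‖ ^ 2 = 1) (h2 : eval m₀ P = eval m₀ Q) :
    ∃ m ∈ Ct P Q, eval m P ≠ eval m Q := by
  have hm₀ : m₀ ∈ Ct P Q := ⟨h1, by rw [h2]⟩
  have hf0 : fr P Q m₀ = 1 := by
    unfold fr
    rw [h2, div_self (Ct_ne hA hm₀)]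
  obtain ⟨ε, hε, hsec⟩ := hLIFT n P Q hA hD m₀ hm₀ 1 one_pos
  rw [hf0] at hsec
  obtain ⟨c, hc1, hcε, hcne⟩ : ∃ c : ℂ, ‖c‖ = 1 ∧ dist c 1 < ε ∧ c ≠ 1 := by
    have h1 : Tendsto (fun s : ℝ => Complex.exp (s * Complex.I)) (𝓝[≠] 0) (𝓝 1) := by
      have : Continuous fun s : ℝ => Complex.exp (s * Complex.I) := by fun_prop
      have h := this.tendsto 0
      simp only [Complex.ofReal_zero, zero_mul, Complex.exp_zero] at h
      exact h.mono_left nhdsWithin_le_nhds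
    have h2 : ∀ᶠ s : ℝ in 𝓝[≠] 0, dist (Complex.exp (s * Complex.I)) 1 < ε :=
      h1.eventually (ball_mem_nhds _ hε)
    have h3 : ∀ᶠ s : ℝ in 𝓝[≠] 0, Complex.exp (s * Complex.I) ≠ 1 := by
      have h4 : HasDerivAt (fun s : ℝ => Complex.exp (s * Complex.I)) Complex.I 0 := by
        have h5 : HasDerivAt (fun s : ℝ => (s : ℂ) * Complex.I) (1 * Complex.I) (0 : ℝ) :=
          (Complex.ofRealCLM.hasDerivAt (x := (0 : ℝ))).mul_const Complex.I
        have h6 := h5.cexp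
        simpa using h6
      have h7 := h4.tendsto_nhdsNE Complex.I_ne_zero
      simp only [Complex.ofReal_zero, zero_mul, Complex.exp_zero] at h7
      exact h7.eventually self_mem_nhdsWithin
    obtain ⟨s, hs1, hs2⟩ := (h2.and h3).exists
    exact ⟨_, Complex.norm_exp_ofReal_mul_I s, hs1, hs2⟩
  obtain ⟨m, hm, -, hfm⟩ := hsec c hc1 hcε
  refine ⟨m, hm, fun h => hcne ?_⟩
  rw [← hfm]
  unfold fr
  rw [h, div_self (Ct_ne hA hm)]

/-- **FINAL2** -/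
theorem final2 : FINAL2 := by
  intro n P Q hn hNB hQ hD hcon
  have hCon : CONTACT := H1R.contact_row
  have hA : Adm P Q := (H20R.adm n P Q hn hNB).2.1 hQ
  have hc : IsConnected {z : Fin n → ℂ | ∑ i, ‖z i‖ ^ 2 = 1 ∧ eval z P = eval z Q} := by
    have h1 : {z : Fin n → ℂ | ∑ i, ‖z i‖ ^ 2 = 1 ∧ eval z P = eval z Q} =
        (fun z : Cn n => (fun i => z i)) ''
          {z : Cn n | ‖z‖ = 1 ∧ eval (fun i => z i) P = eval (fun i => z i) Q} := by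
      ext z
      constructor
      · rintro ⟨h1, h2⟩
        refine ⟨WithLp.toLp 2 z, ⟨?_, h2⟩, rfl⟩
        have h3 : ‖(WithLp.toLp 2 z : Cn n)‖ ^ 2 = 1 := by
          rw [EuclideanSpace.norm_sq_eq]
          exact h1
        nlinarith [norm_nonneg (WithLp.toLp 2 z : Cn n)]
      · rintro ⟨y, ⟨h1, h2⟩, rfl⟩
        refine ⟨?_, h2⟩
        show ∑ i, ‖y i‖ ^ 2 = 1
        rw [← EuclideanSpace.norm_sq_eq, h1, one_pow]
    rw [h1]
    refine hcon.image _ (Continuous.continuousOn ?_)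
    fun_prop
  obtain ⟨m₀, h1, h2⟩ := hc.nonempty
  obtain ⟨m, hm, hmne⟩ := exists_ne_one (H99.lift_of hCon) hA hD h1 h2
  refine H22.ext n P Q hNB fun k hk hk0 hre => ?_
  exact glob (H99.leaf_of hCon) (H99.lift_of hCon) H1R.radial_row hA hD hc hk hk0 hre
    (H99.local_of hCon n P Q hA hD m hm hmne k hk hre)

end

end Pool.Agent.Lib.MP_6ff8d9_an.Rat.H82
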