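import Pool.Agent.Lib.MP_6ff8d9_an_h82.Glue
import Pool.Agent.Lib.MP_6ff8d9_an_h22.Rows0

/-!
# MP_6ff8d9 RATIONAL, row GLUE0: gluing without compactness
-/

open Metric Set Filter Topology

namespace Pool.Agent.Lib.MP_6ff8d9_an.Rat.H82

open Pool.Agent.Lib.MP_6ff8d9_an

/-- row GLUE0 -/
theorem glue0 : H22.GLUE0 := by
  intro X _ F φ κ hF hFn hφ hreg hloc hlift hconn
  choose δ hδ L hL hκ using hloc
  have D : Dat F φ κ δ L := ⟨hFn, hF, hφ, hreg, hδ, hL, hκ, hlift⟩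
  refine glued D (fun c hc => good_conn D (hconn c hc)) fun c hc => ?_
  obtain ⟨x, hx⟩ := (hconn c hc).nonempty
  exact ⟨x, hx⟩

end Pool.Agent.Lib.MP_6ff8d9_an.Rat.H82
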