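import Pool.Agent.Lib.MP_6ff8d9_an_h69.RowsI
import Pool.Agent.Lib.MP_6ff8d9_an_h82.Green

/-!
# MP_6ff8d9 IRREDUCIBLE rows, GREEN2: the Green function of one sheet, with a lower bound
-/

open Metric Filter Topology MvPolynomial InnerProductSpace Real
open scoped ComplexConjugate

namespace Pool.Agent.Lib.MP_6ff8d9_an.H82L

open Pool.Agent.Lib.MP_6ff8d9_an Pool.Agent.Lib.MP_6ff8d9_an.H11
open Pool.Agent.Lib.MP_6ff8d9_an.P69

noncomputable section

/-- the second barrier, as a function of the two moduli -/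
def ml (a b : ℂ) : ℝ := -Real.log (max ‖a‖ ‖b‖)

lemma ml_le_right {a b : ℂ} (hb : b ≠ 0) : ml a b ≤ -Real.log ‖b‖ :=
  neg_le_neg (Real.log_le_log (norm_pos_iff.2 hb) (le_max_right _ _))

lemma ml_le_left {a b : ℂ} (ha : a ≠ 0) : ml a b ≤ -Real.log ‖a‖ :=
  neg_le_neg (Real.log_le_log (norm_pos_iff.2 ha) (le_max_left _ _))

lemma ml_cont {κ m : ℂ → ℂ} {c : ℂ} (hκ : ContinuousAt κ c) (hm : ContinuousAt m c)
    (h : m c ≠ 0) : ContinuousAt (fun c => ml (κ c) (m c)) c := by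
  have h1 : ContinuousAt (fun c => max ‖κ c‖ ‖m c‖) c := hκ.norm.max hm.norm
  have h2 : max ‖κ c‖ ‖m c‖ ≠ 0 := (lt_of_lt_of_le (norm_pos_iff.2 h) (le_max_right _ _)).ne'
  exact (h1.log h2).neg

/-- `-log max (|κ|, |m|)` is super-mean-valued -/
lemma supM_ml {κ m : ℂ → ℂ} {s : Set ℂ} (hs : IsOpen s) (hκ : DifferentiableOn ℂ κ s)
    (hm : DifferentiableOn ℂ m s) (hne : ∀ c ∈ s, m c ≠ 0) :
    SupM (fun c => ml (κ c) (m c)) s := by
  have hκa : ∀ c ∈ s, AnalyticAt ℂ κ c := fun c hc => hκ.analyticAt (hs.mem_nhds hc)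
  have hma : ∀ c ∈ s, AnalyticAt ℂ m c := fun c hc => hm.analyticAt (hs.mem_nhds hc)
  have hcont : ContinuousOn (fun c => ml (κ c) (m c)) s := fun c hc =>
    (ml_cont (hκa c hc).continuousAt (hma c hc).continuousAt (hne c hc)).continuousWithinAt
  have hmh : HarmonicOnNhd (fun c => -Real.log ‖m c‖) s := fun c hc =>
    ((hma c hc).harmonicAt_log_norm (hne c hc)).neg
  refine ⟨hcont, fun c hc => ?_⟩
  by_cases hle : ‖κ c‖ ≤ ‖m c‖
  · filter_upwards [ev_closedBall hs hc] with r hr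
    have h1 : ml (κ c) (m c) = -Real.log ‖m c‖ := by rw [ml, max_eq_right hle]
    show circleAverage (fun c => ml (κ c) (m c)) c r ≤ ml (κ c) (m c)
    rw [h1, ← har_mean hmh hr]
    refine circleAverage_mono (ci hcont hr) (ci (har_cont hmh) hr) fun x hx => ?_
    exact ml_le_right (hne x (hr (sphere_subset_closedBall hx)))
  · push Not at hle
    have hκc : κ c ≠ 0 := norm_pos_iff.1 ((norm_nonneg _).trans_lt hle)
    set s' : Set ℂ := {x | x ∈ s ∧ κ x ≠ 0} with hs'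
    have hs'o : IsOpen s' := by
      rw [isOpen_iff_mem_nhds]
      rintro x ⟨h1, h2⟩
      filter_upwards [hs.mem_nhds h1, (hκa x h1).continuousAt.eventually_ne h2] with y h3 h4
      exact ⟨h3, h4⟩
    have hκh : HarmonicOnNhd (fun c => -Real.log ‖κ c‖) s' := fun x hx =>
      ((hκa x hx.1).harmonicAt_log_norm hx.2).neg
    filter_upwards [ev_closedBall hs'o (⟨hc, hκc⟩ : c ∈ s')] with r hr
    have hr' : closedBall c |r| ⊆ s := fun x hx => (hr hx).1
    have h1 : ml (κ c) (m c) = -Real.log ‖κ c‖ := by rw [ml, max_eq_left hle.le]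
    show circleAverage (fun c => ml (κ c) (m c)) c r ≤ ml (κ c) (m c)
    rw [h1, ← har_mean hκh hr]
    refine circleAverage_mono (ci hcont hr') (ci (har_cont hκh) hr) fun x hx => ?_
    exact ml_le_left (hr (sphere_subset_closedBall hx)).2

lemma supM_min {q : ℂ → ℝ} {s : Set ℂ} (hs : IsOpen s) (hq : SupM q s) (C : ℝ) :
    SupM (fun c => min (q c) C) s := by
  have hcont : ContinuousOn (fun c => min (q c) C) s :=
    continuous_min.comp_continuousOn (hq.1.prodMk continuousOn_const)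
  refine ⟨hcont, fun c hc => ?_⟩
  filter_upwards [ev_closedBall hs hc, hq.2 c hc] with r hr hqr
  refine le_min ?_ ?_
  · refine le_trans ?_ hqr
    exact circleAverage_mono (ci hcont hr) (ci hq.1 hr) (fun x _ => min_le_left _ _)
  · have h1 : circleAverage (fun _ : ℂ => C) c r = C := circleAverage_const _ _ _
    have h2 := circleAverage_mono (f₁ := fun c => min (q c) C) (f₂ := fun _ : ℂ => C)
      (ci hcont hr) (ci continuousOn_const hr) (fun x _ => min_le_right _ _)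
    rwa [h1] at h2

lemma mob_diffOn {w0 : ℂ} (h0 : ‖w0‖ < 1) : DifferentiableOn ℂ (mob w0) (ball 0 1) := by
  intro w hw
  have hw1 : ‖w‖ < 1 := mem_ball_zero_iff.1 hw
  have h1 : DifferentiableAt ℂ (fun w : ℂ => (w - w0) / (1 - conj w0 * w)) w := by
    refine DifferentiableAt.div (by fun_prop) (by fun_prop) (den_ne h0 hw1)
  have h2 : DifferentiableAt ℂ (mob w0) w := by
    unfold mob
    exact h1.const_mul _
  exact h2.differentiableWithinAt

/-- row GREEN2 -/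
theorem green2 (hP : PERRE) (hS : SECT) : GREEN2 := by
  intro n F φ O E hR hlt hφ1 hφE hφF z1 hz1 hφz
  set w0 := F z1 with hw0
  have h0 : ‖w0‖ < 1 := hlt z1 hz1
  obtain ⟨ρ, hρ, σ, hσ0, hσd, hσ⟩ := hS n F O hR.op hR.an z1 hz1 (hR.sub z1 hz1)
  have hFc : ∀ z ∈ O, ContinuousAt F z := fun z hz =>
    ((hR.an z hz).differentiableAt (hR.op.mem_nhds hz)).continuousAt
  have hσc : ∀ w ∈ ball w0 ρ, ContinuousAt σ w := fun w hw =>
    ((hσd w hw).differentiableAt (isOpen_ball.mem_nhds hw)).continuousAt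
  set B : Set (Cn n) := {z | z ∈ O ∧ F z ∈ ball w0 ρ} with hB
  set T : Set (Cn n) := {z | z ∈ O ∧ F z ∈ ball w0 ρ ∧ E z (σ (F z))} with hT
  have hBo : IsOpen B := by
    rw [isOpen_iff_mem_nhds]
    rintro z ⟨h1, h2⟩
    filter_upwards [hR.op.mem_nhds h1, (hFc z h1) (isOpen_ball.mem_nhds h2)] with z' h3 h4
    exact ⟨h3, h4⟩
  have hpair : ∀ z ∈ O, F z ∈ ball w0 ρ → ContinuousAt (fun z' => (z', σ (F z'))) z :=
    fun z h1 h2 => continuousAt_id.prodMk
      (ContinuousAt.comp (g := σ) (f := F) (hσc _ h2) (hFc z h1))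
  have hTo : IsOpen T := by
    rw [isOpen_iff_mem_nhds]
    rintro z ⟨h1, h2, h3⟩
    have h4 := (hpair z h1 h2).eventually (hR.opn z h1 _ (hσ _ h2).1 h3)
    filter_upwards [hBo.mem_nhds (⟨h1, h2⟩ : z ∈ B), h4] with z' h5 h6
    exact ⟨h5.1, h5.2, h6 (hσ _ h5.2).2.symm⟩
  have hTc : IsOpen (B \ T) := by
    rw [isOpen_iff_mem_nhds]
    rintro z ⟨⟨h1, h2⟩, h3⟩
    have h3' : ¬ E z (σ (F z)) := fun h => h3 ⟨h1, h2, h⟩
    have h4 := (hpair z h1 h2).eventually
      (hR.cls z h1 _ (hσ _ h2).1 (hσ _ h2).2.symm h3')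
    filter_upwards [hBo.mem_nhds (⟨h1, h2⟩ : z ∈ B), h4] with z' h5 h6
    exact ⟨h5, fun h7 => h6 (hσ _ h5.2).2.symm h7.2.2⟩
  have hz1T : z1 ∈ T := ⟨hz1, mem_ball_self hρ, by
    rw [← hw0, hσ0]
    exact hR.refl z1 hz1⟩
  have hz2T : ∀ z2 ∈ O, F z2 = w0 → ¬ E z1 z2 → z2 ∉ T := by
    rintro z2 hz2 h12 hnE ⟨-, -, h⟩
    rw [h12, hσ0] at h
    exact hnE (hR.symm z2 hz2 z1 hz1 h)
  have hinv : ∀ z ∈ O, ∀ z' ∈ O, E z z' → (z ∈ T → z' ∈ T) := by
    rintro z hz z' hz' h ⟨-, h2, h3⟩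
    have h4 := hR.fib z z' h
    rw [h4] at h2 h3
    exact ⟨hz', h2, hR.trans z' hz' z hz _ (hσ _ h2).1 (hR.symm z hz z' hz' h) h3⟩
  have hinv' : ∀ z ∈ O, ∀ z' ∈ O, E z z' → (z ∈ T ↔ z' ∈ T) := fun z hz z' hz' h =>
    ⟨hinv z hz z' hz' h, hinv z' hz' z hz (hR.symm z hz z' hz' h)⟩
  -- the function `φ` on the sheet
  have hκd : DifferentiableOn ℂ (fun w => φ (σ w)) (ball w0 ρ) := by
    intro w hw
    obtain ⟨ε, hε, κ, hκ, hκe⟩ := hφF (σ w) (hσ w hw).1
    rw [(hσ w hw).2] at hκ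
    have h1 : ∀ᶠ w' in 𝓝 w, φ (σ w') = κ (F (σ w')) := (hσc w hw).eventually hκe
    have h2 : (fun w => φ (σ w)) =ᶠ[𝓝 w] κ := by
      filter_upwards [h1, isOpen_ball.mem_nhds hw] with w' h3 h4
      rw [h3, (hσ w' h4).2]
    have h3 : DifferentiableAt ℂ κ w := (hκ w (mem_ball_self hε)).differentiableAt (ball_mem_nhds _ hε)
    exact (h2.differentiableAt_iff.2 h3).differentiableWithinAt
  have hφT : ∀ z ∈ T, ‖φ z‖ ≤ 2 / ρ * ‖F z - w0‖ := by
    rintro z ⟨h1, h2, h3⟩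
    rw [hφE z h1 _ (hσ _ h2).1 h3]
    have h4 : φ (σ w0) = 0 := by rw [hσ0, hφz]
    have h5 : Set.MapsTo (fun w => φ (σ w)) (ball w0 ρ) (closedBall (φ (σ w0)) 2) := by
      intro w hw
      show φ (σ w) ∈ closedBall (φ (σ w0)) 2
      rw [h4, mem_closedBall_zero_iff]
      exact (hφ1 _ (hσ w hw).1).trans one_le_two
    have h6 := Complex.dist_le_div_mul_dist_of_mapsTo_ball hκd h5 h2
    rw [h4, dist_zero_right, dist_eq_norm] at h6
    exact h6
  -- the open part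
  set O' : Set (Cn n) := {z | z ∈ O ∧ F z ≠ w0} with hO'
  have hO'o : IsOpen O' := by
    rw [isOpen_iff_mem_nhds]
    rintro z ⟨h1, h2⟩
    filter_upwards [hR.op.mem_nhds h1, (hFc z h1).eventually_ne h2] with z' h3 h4
    exact ⟨h3, h4⟩
  have hR' : Rel n F O' E :=
    { op := hO'o
      an := hR.an.mono fun z hz => hz.1
      sub := fun z hz => hR.sub z hz.1
      refl := fun z hz => hR.refl z hz.1
      symm := fun z hz z' hz' => hR.symm z hz.1 z' hz'.1
      trans := fun z hz z' hz' z'' hz'' => hR.trans z hz.1 z' hz'.1 z'' hz''.1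
      fib := hR.fib
      opn := fun z hz z' hz' => hR.opn z hz.1 z' hz'.1
      cls := fun z hz z' hz' => hR.cls z hz.1 z' hz'.1 }
  set C : ℝ := |Real.log (4 / ρ)| + 1 with hC
  have hC0 : 0 < C := by positivity
  have hD : ∀ z ∈ O', F z ∈ ball (0 : ℂ) 1 \ {w0} := fun z hz =>
    ⟨mem_ball_zero_iff.2 (hlt z hz.1), hz.2⟩
  have hmne : ∀ z ∈ O', mob w0 (F z) ≠ 0 := fun z hz => mob_ne h0 (hlt z hz.1) hz.2
  have hmlq : ∀ z ∈ O', ml (φ z) (mob w0 (F z)) ≤ gq w0 (F z) := fun z hz =>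
    ml_le_right (hmne z hz)
  have hml0 : ∀ z ∈ O', 0 ≤ ml (φ z) (mob w0 (F z)) := by
    intro z hz
    unfold ml
    have h1 : max ‖φ z‖ ‖mob w0 (F z)‖ ≤ 1 :=
      max_le (hφ1 z hz.1) (norm_mob_lt h0 (hlt z hz.1)).le
    have h2 := Real.log_nonpos ((norm_nonneg _).trans (le_max_left _ _)) h1
    linarith
  have hmlT : ∀ z ∈ O', z ∈ T → gq w0 (F z) - C ≤ ml (φ z) (mob w0 (F z)) := by
    intro z hz hzT
    have hlz := hlt z hz.1
    have h1 : 0 < ‖1 - conj w0 * F z‖ := norm_pos_iff.2 (den_ne h0 hlz)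
    have h2 : ‖1 - conj w0 * F z‖ ≤ 2 := by
      refine (norm_sub_le _ _).trans ?_
      rw [norm_one, norm_mul, Complex.norm_conj]
      nlinarith [norm_nonneg w0, norm_nonneg (F z)]
    have h3 : ‖F z - w0‖ ≤ 2 * ‖mob w0 (F z)‖ := by
      rw [norm_mob h0, mul_div_assoc', le_div_iff₀ h1]
      nlinarith [norm_nonneg (F z - w0)]
    have hmp : 0 < ‖mob w0 (F z)‖ := norm_pos_iff.2 (hmne z hz)
    have hρ4 : (0 : ℝ) < 4 / ρ := by positivity
    have hCl : Real.log (4 / ρ) ≤ C := by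
      have := le_abs_self (Real.log (4 / ρ))
      linarith
    have h4 : 4 / ρ ≤ Real.exp C := by
      rw [← Real.exp_log hρ4]
      exact Real.exp_le_exp.2 hCl
    have h5 : ‖φ z‖ ≤ Real.exp C * ‖mob w0 (F z)‖ := by
      calc ‖φ z‖ ≤ 2 / ρ * ‖F z - w0‖ := hφT z hzT
        _ ≤ 2 / ρ * (2 * ‖mob w0 (F z)‖) := mul_le_mul_of_nonneg_left h3 (by positivity)
        _ = 4 / ρ * ‖mob w0 (F z)‖ := by ring
        _ ≤ _ := mul_le_mul_of_nonneg_right h4 hmp.le
    have h6 : max ‖φ z‖ ‖mob w0 (F z)‖ ≤ Real.exp C * ‖mob w0 (F z)‖ := by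
      refine max_le h5 ?_
      have h7 : 1 ≤ Real.exp C := Real.one_le_exp hC0.le
      nlinarith
    have h7 : Real.log (max ‖φ z‖ ‖mob w0 (F z)‖) ≤ C + Real.log ‖mob w0 (F z)‖ := by
      refine (Real.log_le_log (lt_of_lt_of_le hmp (le_max_right _ _)) h6).trans_eq ?_
      rw [Real.log_mul (Real.exp_pos C).ne' hmp.ne', Real.log_exp]
    unfold ml gq
    linarith
  classical
  set H : Cn n → ℝ := fun z => if z ∈ T then ml (φ z) (mob w0 (F z)) else
    min (ml (φ z) (mob w0 (F z))) C with hH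
  set u0 : Cn n → ℝ := fun z => if z ∈ T then max (gq w0 (F z) - C) 0 else 0 with hu0
  have hnear : ∀ z ∈ O', ∃ ε : ℝ, 0 < ε ∧ ball (F z) ε ⊆ ball (0 : ℂ) 1 \ {w0} := fun z hz =>
    Metric.isOpen_iff.1 (isOpen_D w0) _ (hD z hz)
  have hfar : ∀ z ∈ O', F z ∉ ball w0 ρ → ∀ᶠ z' in 𝓝 z, z' ∈ O' ∧ gq w0 (F z') < C := by
    intro z hz h1
    have h2 : ρ / 2 < ‖F z - w0‖ := by
      rw [mem_ball, dist_eq_norm, not_lt] at h1
      linarith
    have h3 : ∀ᶠ z' in 𝓝 z, ρ / 2 < ‖F z' - w0‖ :=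
      ((hFc z hz.1).sub continuousAt_const).norm.eventually (lt_mem_nhds h2)
    filter_upwards [hO'o.mem_nhds hz, h3] with z' h4 h5
    exact ⟨h4, gq_lt h0 (hlt z' h4.1) hρ h5.le⟩
  have hSup : SupE F O' E H := by
    refine ⟨fun z hz z' hz' h => ?_, fun z hz => ?_⟩
    · have h1 := hinv' z hz.1 z' hz'.1 h
      have h2 := hR.fib z z' h
      have h3 := hφE z hz.1 z' hz'.1 h
      simp only [hH, h2, h1, h3]
    · obtain ⟨ε₁, hε₁, hsub⟩ := hnear z hz
      obtain ⟨ε₂, hε₂, κ, hκ, hκe⟩ := hφF z hz.1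
      set ε := min ε₁ ε₂ with hε
      have hε0 : 0 < ε := lt_min hε₁ hε₂
      have hs1 : ball (F z) ε ⊆ ball (F z) ε₁ := ball_subset_ball (min_le_left _ _)
      have hs2 : ball (F z) ε ⊆ ball (F z) ε₂ := ball_subset_ball (min_le_right _ _)
      have hm1 : SupM (fun c => ml (κ c) (mob w0 c)) (ball (F z) ε) :=
        supM_ml isOpen_ball (hκ.mono hs2)
          ((mob_diffOn h0).mono fun c hc => (hsub (hs1 hc)).1)
          (fun c hc => mob_ne h0 (mem_ball_zero_iff.1 (hsub (hs1 hc)).1) (hsub (hs1 hc)).2)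
      by_cases hzT : z ∈ T
      · refine ⟨ε, hε0, fun c => ml (κ c) (mob w0 c), hm1, ?_⟩
        filter_upwards [hTo.mem_nhds hzT, hκe] with z' h1 h2
        simp only [hH, if_pos h1, h2]
      · by_cases hzB : F z ∈ ball w0 ρ
        · refine ⟨ε, hε0, fun c => min (ml (κ c) (mob w0 c)) C, supM_min isOpen_ball hm1 C, ?_⟩
          filter_upwards [hTc.mem_nhds (⟨⟨hz.1, hzB⟩, hzT⟩ : z ∈ B \ T), hκe] with z' h1 h2
          simp only [hH, if_neg h1.2, h2]
        · refine ⟨ε, hε0, fun c => ml (κ c) (mob w0 c), hm1, ?_⟩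
          filter_upwards [hfar z hz hzB, hκe] with z' h1 h2
          simp only [hH]
          split_ifs
          · rw [h2]
          · rw [min_eq_left ((hmlq z' h1.1).trans h1.2.le), h2]
  have hSub : SubE F O' E u0 := by
    refine ⟨fun z hz z' hz' h => ?_, fun z hz => ?_⟩
    · have h1 := hinv' z hz.1 z' hz'.1 h
      have h2 := hR.fib z z' h
      simp only [hu0, h2, h1]
    · obtain ⟨ε, hε, hsub⟩ := hnear z hz
      have hq : HarmonicOnNhd (gq w0) (ball (F z) ε) := fun w hw => gq_har h0 w (hsub hw)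
      by_cases hzT : z ∈ T
      · refine ⟨ε, hε, fun c => max (gq w0 c - C) 0, subM_har_max isOpen_ball hq C, ?_⟩
        filter_upwards [hTo.mem_nhds hzT] with z' h1
        simp only [hu0, if_pos h1]
      · by_cases hzB : F z ∈ ball w0 ρ
        · refine ⟨ε, hε, fun _ => 0, subM_zero' _, ?_⟩
          filter_upwards [hTc.mem_nhds (⟨⟨hz.1, hzB⟩, hzT⟩ : z ∈ B \ T)] with z' h1
          simp only [hu0, if_neg h1.2]
        · refine ⟨ε, hε, fun _ => 0, subM_zero' _, ?_⟩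
          filter_upwards [hfar z hz hzB] with z' h1
          simp only [hu0]
          split_ifs
          · exact max_eq_right (by linarith [h1.2])
          · rfl
  have hle : ∀ z ∈ O', u0 z ≤ H z := by
    intro z hz
    have h1 := hml0 z hz
    simp only [hu0, hH]
    split_ifs with h
    · exact max_le (hmlT z hz h) h1
    · exact le_min h1 hC0.le
  obtain ⟨v, hv1, hv2⟩ := hP n F O' E H u0 hR' hSup hSub hle
  refine ⟨v, T, C, ρ, hρ, fun z hz => ⟨hz.1, hz.2.1⟩, hTo, hTc, hz1T, hz2T, fun z hz hne => ?_⟩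
  have hzO' : z ∈ O' := ⟨hz, hne⟩
  have hb := hv1 z hzO'
  have hu0n : 0 ≤ u0 z := by
    simp only [hu0]
    split_ifs
    · exact le_max_right _ _
    · exact le_rfl
  have hHq : H z ≤ ml (φ z) (mob w0 (F z)) := by
    simp only [hH]
    split_ifs
    · exact le_rfl
    · exact min_le_left _ _
  refine ⟨hv2 z hzO', hu0n.trans hb.1, (hb.2.trans hHq).trans (hmlq z hzO'),
    fun h => (hb.2.trans hHq).trans (ml_le_left h), fun h => ?_, fun h => ?_⟩
  · have h1 : u0 z = max (gq w0 (F z) - C) 0 := by simp only [hu0, if_pos h]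
    have h2 := hb.1
    rw [h1] at h2
    exact (le_max_left _ _).trans h2
  · have h1 : H z = min (ml (φ z) (mob w0 (F z))) C := by simp only [hH, if_neg h]
    have h2 := hb.2
    rw [h1] at h2
    exact h2.trans (min_le_right _ _)

end

end Pool.Agent.Lib.MP_6ff8d9_an.H82L
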