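import Pool.Agent.Lib.MP_6ff8d9_an_h8.SymRows
import Pool.Agent.Lib.MP_6ff8d9_an_h33.Exp3

/-!
# MP_6ff8d9, SymmetricTwo, row FLH: the hyperbolic flow is a real translation in the chart
-/

open Metric Filter Topology MvPolynomial Matrix
open scoped ComplexConjugate

namespace Pool.Agent.Lib.MP_6ff8d9_an.H82L

open Pool.Agent.Lib.MP_6ff8d9_an Pool.Agent.Lib.MP_6ff8d9_an.H22
open Pool.Agent.Lib.MP_6ff8d9_an.N2

noncomputable section

lemma exp_add_one_ne {ζ : ℂ} (h : |ζ.im| < Real.pi / 2) : Complex.exp ζ + 1 ≠ 0 := by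
  intro h1
  have h2 := congrArg Complex.re h1
  rw [Complex.add_re, Complex.exp_re, Complex.one_re, Complex.zero_re] at h2
  have h3 : 0 < Real.cos ζ.im := Real.cos_pos_of_mem_Ioo (abs_lt.1 h)
  have h4 := mul_pos (Real.exp_pos ζ.re) h3
  linarith

/-- row FLH -/
theorem flh : FLH := by
  intro τ b hb w ζ _ hζ s
  have hE : Complex.exp ζ + 1 ≠ 0 := exp_add_one_ne hζ.1
  set ζ' : ℂ := ζ + ((-(2 * s * b) : ℝ) : ℂ) with hζ'
  have him : ζ'.im = ζ.im := by simp [hζ']
  have hE' : Complex.exp ζ' + 1 ≠ 0 := exp_add_one_ne (by rw [him]; exact hζ.1)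
  have hbC : (b : ℂ) ≠ 0 := Complex.ofReal_ne_zero.2 hb
  set e : ℂ := Complex.exp (s * b) with he
  have he0 : e ≠ 0 := Complex.exp_ne_zero _
  have hcos : Complex.cos ((b : ℂ) * (s * Complex.I)) = (e⁻¹ + e) / 2 := by
    rw [Complex.cos, he, ← Complex.exp_neg]
    congr 3
    · linear_combination (b * s : ℂ) * Complex.I_mul_I
    · linear_combination (-b * s : ℂ) * Complex.I_mul_I
  have hsin : Complex.sin ((b : ℂ) * (s * Complex.I)) = (e - e⁻¹) * Complex.I / 2 := by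
    rw [Complex.sin, he, ← Complex.exp_neg]
    congr 4
    · linear_combination (-b * s : ℂ) * Complex.I_mul_I
    · linear_combination (b * s : ℂ) * Complex.I_mul_I
  have hexp : Complex.exp ζ = Complex.exp ζ' * e ^ 2 := by
    rw [he, ← Complex.exp_nat_mul, ← Complex.exp_add, hζ']
    congr 1
    push_cast
    ring
  have hexp2 : Complex.exp (ζ * ((1 + ((τ / b : ℝ) : ℂ) * Complex.I) / 2)) =
      Complex.exp (ζ' * ((1 + ((τ / b : ℝ) : ℂ) * Complex.I) / 2)) *
        (Complex.exp (τ * (s * Complex.I)) * e) := by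
    rw [he, ← Complex.exp_add, ← Complex.exp_add, hζ']
    congr 1
    push_cast
    field_simp
    ring
  have hτ0 : Complex.exp (τ * (s * Complex.I)) ≠ 0 := Complex.exp_ne_zero _
  set θ : ℝ := τ / b with hθ
  set U : ℂ := Complex.exp ζ' with hU
  have hE2 : U * e ^ 2 + 1 ≠ 0 := by rwa [← hexp]
  have hx : (U * e ^ 2 - 1) / (U * e ^ 2 + 1) * (U * e ^ 2 + 1) = U * e ^ 2 - 1 :=
    div_mul_cancel₀ _ hE2
  have hf : e⁻¹ * e = 1 := inv_mul_cancel₀ he0
  -- the three coordinates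
  have hZ : hz (psH θ w ζ) = ![1, psH θ w ζ 0, psH θ w ζ 1] := rfl
  have hden : Complex.cos ((b : ℂ) * (s * Complex.I)) * 1 -
      Complex.sin ((b : ℂ) * (s * Complex.I)) * psH θ w ζ 0 = e * (U + 1) / (U * e ^ 2 + 1) := by
    show _ * 1 - _ * (-Complex.I * ((Complex.exp ζ - 1) / (Complex.exp ζ + 1))) = _
    rw [hcos, hsin, hexp, eq_div_iff hE2]
    linear_combination ((e - e⁻¹) / 2 * Complex.I ^ 2) * hx +
      ((e - e⁻¹) / 2 * (U * e ^ 2 - 1)) * Complex.I_sq + (U * e) * hf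
  have hnum : Complex.sin ((b : ℂ) * (s * Complex.I)) * 1 +
      Complex.cos ((b : ℂ) * (s * Complex.I)) * psH θ w ζ 0 =
        e * (-Complex.I * (U - 1)) / (U * e ^ 2 + 1) := by
    show _ * 1 + _ * (-Complex.I * ((Complex.exp ζ - 1) / (Complex.exp ζ + 1))) = _
    rw [hcos, hsin, hexp, eq_div_iff hE2]
    linear_combination (-((e⁻¹ + e) / 2 * Complex.I)) * hx - (Complex.I * U * e) * hf
  have hact : act (grp (hmat τ b) (s * Complex.I)) (psH θ w ζ) =
      ![Complex.exp (τ * (s * Complex.I)) * (e * (-Complex.I * (U - 1)) / (U * e ^ 2 + 1)) /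
          (Complex.exp (τ * (s * Complex.I)) * (e * (U + 1) / (U * e ^ 2 + 1))),
        psH θ w ζ 1 / (Complex.exp (τ * (s * Complex.I)) * (e * (U + 1) / (U * e ^ 2 + 1)))] := by
    rw [act, grp_h, hZ]
    simp only [Matrix.cons_val_zero, Matrix.cons_val_one, Matrix.cons_val]
    rw [hden, hnum]
    rfl
  rw [hact]
  have h1 : psH θ w ζ 1 = 2 * (w * Complex.exp (ζ * ((1 + (θ : ℂ) * Complex.I) / 2)) / kH θ) /
      (Complex.exp ζ + 1) := rfl
  have hk : (kH θ : ℂ) ≠ 0 := by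
    have : 0 < kH θ := by
      unfold kH
      positivity
    exact Complex.ofReal_ne_zero.2 this.ne'
  rw [h1, hexp2, hexp]
  funext i
  fin_cases i
  · show Complex.exp (τ * (s * Complex.I)) * (e * (-Complex.I * (U - 1)) / (U * e ^ 2 + 1)) /
      (Complex.exp (τ * (s * Complex.I)) * (e * (U + 1) / (U * e ^ 2 + 1))) =
        -Complex.I * ((U - 1) / (U + 1))
    generalize U * e ^ 2 + 1 = D at hE2 ⊢
    field_simp
  · show 2 * (w * (Complex.exp (ζ' * ((1 + (θ : ℂ) * Complex.I) / 2)) *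
      (Complex.exp (τ * (s * Complex.I)) * e)) / kH θ) / (U * e ^ 2 + 1) /
        (Complex.exp (τ * (s * Complex.I)) * (e * (U + 1) / (U * e ^ 2 + 1))) =
          2 * (w * Complex.exp (ζ' * ((1 + (θ : ℂ) * Complex.I) / 2)) / kH θ) / (U + 1)
    generalize U * e ^ 2 + 1 = D at hE2 ⊢
    field_simp

end

end Pool.Agent.Lib.MP_6ff8d9_an.H82L
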