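import Pool.Agent.Lib.MP_6ff8d9_an_h8.SymRows2

/-!
# MP_6ff8d9, SymmetricTwo, rows CAN3 and CAN4: canonical forms of the two transcendental families
-/

open Metric Filter Topology MvPolynomial Matrix
open scoped ComplexConjugate

namespace Pool.Agent.Lib.MP_6ff8d9_an.H82L

open Pool.Agent.Lib.MP_6ff8d9_an Pool.Agent.Lib.MP_6ff8d9_an.H22
open Pool.Agent.Lib.MP_6ff8d9_an.N2

noncomputable section

/-- a diagonal map -/
def dgm (u₁ u₂ : ℂ) (z : Cn 2) : Cn 2 := WithLp.toLp 2 ![u₁ * z 0, u₂ * z 1]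

lemma dgm_norm {u₁ u₂ : ℂ} (h₁ : ‖u₁‖ = 1) (h₂ : ‖u₂‖ = 1) (z : Cn 2) : ‖dgm u₁ u₂ z‖ = ‖z‖ := by
  rw [EuclideanSpace.norm_eq, EuclideanSpace.norm_eq, Fin.sum_univ_two, Fin.sum_univ_two]
  show √(‖u₁ * z 0‖ ^ 2 + ‖u₂ * z 1‖ ^ 2) = _
  rw [norm_mul, norm_mul, h₁, h₂, one_mul, one_mul]

lemma dgm_diff (u₁ u₂ : ℂ) : Differentiable ℂ (dgm u₁ u₂) := by
  rw [differentiable_euclidean]
  intro i
  fin_cases i
  · show Differentiable ℂ fun z : Cn 2 => u₁ * z 0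
    fun_prop
  · show Differentiable ℂ fun z : Cn 2 => u₂ * z 1
    fun_prop

lemma dgm_dgm {u₁ u₂ v₁ v₂ : ℂ} (h₁ : u₁ * v₁ = 1) (h₂ : u₂ * v₂ = 1) (z : Cn 2) :
    dgm u₁ u₂ (dgm v₁ v₂ z) = z := by
  ext i
  fin_cases i
  · show u₁ * (v₁ * z 0) = z 0
    rw [← mul_assoc, h₁, one_mul]
  · show u₂ * (v₂ * z 1) = z 1
    rw [← mul_assoc, h₂, one_mul]

lemma dgm_zero (u₁ u₂ : ℂ) : dgm u₁ u₂ 0 = 0 := by
  ext i
  fin_cases i
  · show u₁ * 0 = 0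
    rw [mul_zero]
  · show u₂ * 0 = 0
    rw [mul_zero]

lemma dgm_aut {u₁ u₂ : ℂ} (h₁ : ‖u₁‖ = 1) (h₂ : ‖u₂‖ = 1) :
    BallAut 2 (dgm u₁ u₂) (dgm u₁⁻¹ u₂⁻¹) := by
  have h₁' : ‖u₁⁻¹‖ = 1 := by rw [norm_inv, h₁, inv_one]
  have h₂' : ‖u₂⁻¹‖ = 1 := by rw [norm_inv, h₂, inv_one]
  have e₁ : u₁ ≠ 0 := norm_ne_zero_iff.1 (by rw [h₁]; exact one_ne_zero)
  have e₂ : u₂ ≠ 0 := norm_ne_zero_iff.1 (by rw [h₂]; exact one_ne_zero)
  refine ⟨(dgm_diff _ _).differentiableOn, (dgm_diff _ _).differentiableOn, ?_, ?_, ?_, ?_⟩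
  · intro z hz
    rw [mem_ball_zero_iff] at hz ⊢
    rwa [dgm_norm h₁ h₂]
  · intro z hz
    rw [mem_ball_zero_iff] at hz ⊢
    rwa [dgm_norm h₁' h₂']
  · intro z _
    exact dgm_dgm (inv_mul_cancel₀ e₁) (inv_mul_cancel₀ e₂) z
  · intro z _
    exact dgm_dgm (mul_inv_cancel₀ e₁) (mul_inv_cancel₀ e₂) z

lemma equi_dgm {F F' : (Fin 2 → ℂ) → ℂ} {c u₁ u₂ : ℂ} (h₁ : ‖u₁‖ = 1) (h₂ : ‖u₂‖ = 1)
    (h0 : F' 0 = 0) (h : ∀ z : Fin 2 → ℂ, F' ![u₁ * z 0, u₂ * z 1] = c * F z) :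
    Equi (cay F c) (cay F' 1) := by
  refine ⟨dgm u₁ u₂, dgm u₁⁻¹ u₂⁻¹, dgm_aut h₁ h₂, fun z _ => ?_⟩
  have e0 : cay F' 1 (dgm u₁ u₂ 0) = 1 := by
    rw [dgm_zero]
    have e1 : F' (fun i => (0 : Cn 2) i) = 0 := h0
    rw [cay, e1, mul_zero, add_zero, sub_zero, div_one]
  rw [nrm, e0]
  have e2 : (fun i => dgm u₁ u₂ z i) = ![u₁ * z 0, u₂ * z 1] := rfl
  have e3 : cay F' 1 (dgm u₁ u₂ z) = cay F c z := by
    rw [cay, e2, h (fun i => z i), one_mul, cay]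
  rw [e3]
  simp

lemma kH_neg (θ : ℝ) : kH (-θ) = kH θ := by
  unfold kH
  rw [Real.arctan_neg, neg_sq]
  congr 2
  ring

/-- row CAN3 -/
theorem can3 : CAN3 := by
  intro θ c hc
  show Equi (cay (fH θ) c) (cay (fH |θ|) 1)
  have h0 : fH |θ| 0 = 0 := by
    unfold fH
    rw [Pi.zero_apply, mul_zero, zero_mul]
  rcases le_or_gt 0 θ with hθ | hθ
  · rw [abs_of_nonneg hθ] at h0 ⊢
    refine equi_dgm (u₁ := 1) (u₂ := c) norm_one hc h0 fun z => ?_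
    unfold fH
    simp only [Matrix.cons_val_zero, Matrix.cons_val_one, Matrix.cons_val_fin_one, one_mul]
    ring
  · rw [abs_of_neg hθ] at h0 ⊢
    refine equi_dgm (u₁ := -1) (u₂ := c) (by simp) hc h0 fun z => ?_
    unfold fH
    simp only [Matrix.cons_val_zero, Matrix.cons_val_one, Matrix.cons_val_fin_one]
    have e1 : (1 : ℂ) + Complex.I * (-1 * z 0) = 1 - Complex.I * z 0 := by ring
    have e2 : (1 : ℂ) - Complex.I * (-1 * z 0) = 1 + Complex.I * z 0 := by ring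
    rw [e1, e2, kH_neg]
    have e3 : -((1 + ((-θ : ℝ) : ℂ) * Complex.I) / 2 * Complex.log (1 - Complex.I * z 0)) -
        (1 - ((-θ : ℝ) : ℂ) * Complex.I) / 2 * Complex.log (1 + Complex.I * z 0) =
        -((1 + θ * Complex.I) / 2 * Complex.log (1 + Complex.I * z 0)) -
          (1 - θ * Complex.I) / 2 * Complex.log (1 - Complex.I * z 0) := by
      push_cast
      ring
    rw [e3]
    ring

/-- row CAN4 -/
theorem can4 : CAN4 := by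
  intro c hc
  show Equi (cay fP c) (cay fP 1)
  refine equi_dgm (u₁ := 1) (u₂ := c) norm_one hc ?_ fun z => ?_
  · unfold fP
    simp
  · unfold fP
    simp only [Matrix.cons_val_zero, Matrix.cons_val_one, Matrix.cons_val_fin_one, one_mul]
    ring

end

end Pool.Agent.Lib.MP_6ff8d9_an.H82L
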