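import Mathlib

/-!
# A function on an annulus without periods whose real part is bounded by the Poisson kernel
-/

open Metric Set MeasureTheory Filter Topology
open scoped ComplexConjugate Real Interval

namespace Pool.Agent.Lib.MP_6ff8d9_an.Rat.H82

noncomputable section

/-- the open annulus `r < |w| < 1` -/
def Ann (r : ℝ) : Set ℂ := {w | r < ‖w‖ ∧ ‖w‖ < 1}

/-- unnormalised Fourier coefficients on the circle of radius `ρ` -/
def J (K : ℂ → ℂ) (ρ : ℝ) (m : ℤ) : ℂ :=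
  ∫ θ in (0 : ℝ)..2 * π, K (circleMap 0 ρ θ) * Complex.exp (-(m * θ * Complex.I))

lemma norm_circleMap {ρ : ℝ} (hρ : 0 ≤ ρ) (θ : ℝ) : ‖circleMap 0 ρ θ‖ = ρ := by
  simp [abs_of_nonneg hρ]

lemma circleMap_mem {r ρ : ℝ} (hr0 : 0 < r) (h1 : r < ρ) (h2 : ρ < 1) (θ : ℝ) :
    circleMap 0 ρ θ ∈ Ann r := by
  have h := norm_circleMap (hr0.trans h1).le θ
  exact ⟨by rw [h]; exact h1, by rw [h]; exact h2⟩

lemma cont_K {K : ℂ → ℂ} {r ρ : ℝ} (hr0 : 0 < r) (hK : DifferentiableOn ℂ K (Ann r))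
    (h1 : r < ρ) (h2 : ρ < 1) : Continuous fun θ : ℝ => K (circleMap 0 ρ θ) :=
  hK.continuousOn.comp_continuous (continuous_circleMap 0 ρ) (circleMap_mem hr0 h1 h2)

lemma isOpen_Ann (r : ℝ) : IsOpen (Ann r) := by
  have h1 : IsOpen {w : ℂ | r < ‖w‖} := isOpen_lt continuous_const continuous_norm
  have h2 : IsOpen {w : ℂ | ‖w‖ < 1} := isOpen_lt continuous_norm continuous_const
  exact h1.inter h2

/-- periods in terms of Fourier coefficients -/
lemma circle_eq (K : ℂ → ℂ) (ρ : ℝ) (j : ℕ) :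
    (∮ w in C(0, ρ), K w * w ^ j) = Complex.I * (ρ : ℂ) ^ (j + 1) * J K ρ (-(j + 1 : ℕ)) := by
  unfold circleIntegral J
  rw [← intervalIntegral.integral_const_mul]
  refine intervalIntegral.integral_congr fun θ _ => ?_
  simp only [deriv_circleMap, smul_eq_mul]
  have h1 : circleMap 0 ρ θ = (ρ : ℂ) * Complex.exp (θ * Complex.I) := by simp [circleMap]
  have h2 : Complex.exp (-((-(j + 1 : ℕ) : ℤ) * θ * Complex.I)) =
      Complex.exp (θ * Complex.I) ^ (j + 1) := by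
    rw [← Complex.exp_nat_mul]
    congr 1
    push_cast
    ring
  rw [h1, h2]
  ring

/-- the coefficients scale with the radius -/
lemma J_scale {K : ℂ → ℂ} {r : ℝ} (hr0 : 0 < r) (hK : DifferentiableOn ℂ K (Ann r)) {ρ₁ ρ₂ : ℝ}
    (h1 : r < ρ₁) (h12 : ρ₁ ≤ ρ₂) (h2 : ρ₂ < 1) (m : ℕ) :
    J K ρ₂ m * (ρ₁ : ℂ) ^ m = J K ρ₁ m * (ρ₂ : ℂ) ^ m := by
  have hρ1 : 0 < ρ₁ := hr0.trans h1
  have hρ2 : 0 < ρ₂ := hρ1.trans_le h12
  have key : ∀ ρ : ℝ, 0 < ρ → (∮ w in C(0, ρ), (w - 0)⁻¹ • (K w * (w ^ m)⁻¹)) =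
      Complex.I * ((ρ : ℂ) ^ m)⁻¹ * J K ρ m := by
    intro ρ hρ
    unfold circleIntegral J
    rw [← intervalIntegral.integral_const_mul]
    refine intervalIntegral.integral_congr fun θ _ => ?_
    simp only [deriv_circleMap, smul_eq_mul, sub_zero]
    have h1 : circleMap 0 ρ θ = (ρ : ℂ) * Complex.exp (θ * Complex.I) := by simp [circleMap]
    have h2 : Complex.exp (-((m : ℤ) * θ * Complex.I)) =
        (Complex.exp (θ * Complex.I) ^ m)⁻¹ := by
      rw [← Complex.exp_nat_mul, ← Complex.exp_neg]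
      congr 1
      push_cast
      ring
    have h3 : (ρ : ℂ) ≠ 0 := by exact_mod_cast hρ.ne'
    have h4 : Complex.exp (θ * Complex.I) ≠ 0 := Complex.exp_ne_zero _
    rw [h1, h2, mul_pow]
    field_simp
  have hmem : ∀ w : ℂ, ρ₁ ≤ ‖w‖ → ‖w‖ ≤ ρ₂ → w ∈ Ann r := fun w ha hb =>
    ⟨h1.trans_le ha, hb.trans_lt h2⟩
  have hdiff : ∀ w : ℂ, ρ₁ ≤ ‖w‖ → ‖w‖ ≤ ρ₂ → DifferentiableAt ℂ (fun w => K w * (w ^ m)⁻¹) w := by
    intro w ha hb
    have h3 := (hK w (hmem w ha hb)).differentiableAt ((isOpen_Ann r).mem_nhds (hmem w ha hb))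
    have h4 : w ≠ 0 := by
      rintro rfl
      rw [norm_zero] at ha
      linarith
    exact h3.mul ((differentiableAt_id.pow m).inv (pow_ne_zero m h4))
  have h := Complex.circleIntegral_sub_center_inv_smul_eq_of_differentiable_on_annulus_off_countable
    (c := 0) hρ1 h12 (f := fun w => K w * (w ^ m)⁻¹) (s := ∅) countable_empty
    (by
      intro w hw
      rw [Set.mem_sdiff, mem_closedBall_zero_iff, mem_ball_zero_iff, not_lt] at hw
      exact (hdiff w hw.2 hw.1).continuousAt.continuousWithinAt)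
    (by
      intro w hw
      rw [sdiff_empty, Set.mem_sdiff, mem_closedBall_zero_iff, mem_ball_zero_iff, not_le] at hw
      exact hdiff w hw.2.le hw.1.le)
  rw [key _ hρ2, key _ hρ1] at h
  have e1 : ((ρ₁ : ℂ) ^ m) ≠ 0 := pow_ne_zero _ (by exact_mod_cast hρ1.ne')
  have e2 : ((ρ₂ : ℂ) ^ m) ≠ 0 := pow_ne_zero _ (by exact_mod_cast hρ2.ne')
  have h5 : ((ρ₂ : ℂ) ^ m)⁻¹ * J K ρ₂ m = ((ρ₁ : ℂ) ^ m)⁻¹ * J K ρ₁ m := by
    apply mul_left_cancel₀ Complex.I_ne_zero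
    linear_combination h
  field_simp at h5
  linear_combination h5

lemma norm_pow_sub_one {u : ℂ} (hn : ‖u‖ = 1) (m : ℕ) : ‖u ^ m - 1‖ ≤ m * ‖u - 1‖ := by
  induction m with
  | zero => simp
  | succ m ih =>
    have h3 : u ^ (m + 1) - 1 = u * (u ^ m - 1) + (u - 1) := by ring
    rw [h3]
    refine (norm_add_le _ _).trans ?_
    rw [norm_mul, hn, one_mul]
    push_cast
    linarith

lemma norm_exp_sub_one (m : ℕ) (θ : ℝ) :
    ‖Complex.exp (-((m : ℤ) * θ * Complex.I)) - 1‖ ≤ m * ‖Complex.exp (θ * Complex.I) - 1‖ := by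
  have h1 : Complex.exp (-((m : ℤ) * θ * Complex.I)) =
      (Complex.exp (-(θ * Complex.I))) ^ m := by
    rw [← Complex.exp_nat_mul]
    congr 1
    push_cast
    ring
  have h4 : ‖Complex.exp (-(θ * Complex.I))‖ = 1 := by
    have := Complex.norm_exp_ofReal_mul_I (-θ)
    rwa [Complex.ofReal_neg, neg_mul] at this
  have h2 : ‖Complex.exp (-(θ * Complex.I)) - 1‖ = ‖Complex.exp (θ * Complex.I) - 1‖ := by
    have h3 : Complex.exp (-(θ * Complex.I)) - 1 =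
        -(Complex.exp (-(θ * Complex.I)) * (Complex.exp (θ * Complex.I) - 1)) := by
      rw [mul_sub, ← Complex.exp_add]
      simp
    rw [h3, norm_neg, norm_mul, h4, one_mul]
  rw [h1, ← h2]
  exact norm_pow_sub_one h4 m

end

end Pool.Agent.Lib.MP_6ff8d9_an.Rat.H82
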