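import Pool.Agent.Lib.MP_6ff8d9_an_h82.EndA

/-!
# A function on an annulus without periods whose real part is bounded by the Poisson kernel, II
-/

open Metric Set MeasureTheory Filter Topology
open scoped ComplexConjugate Real Interval

namespace Pool.Agent.Lib.MP_6ff8d9_an.Rat.H82

noncomputable section

lemma one_sub_le {ρ : ℝ} (hρ0 : 0 ≤ ρ) (θ : ℝ) :
    1 - ρ ≤ ‖1 - circleMap 0 ρ θ‖ := by
  have h := norm_sub_norm_le (1 : ℂ) (circleMap 0 ρ θ)
  rw [norm_one, norm_circleMap hρ0] at h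
  exact h

lemma exp_sub_le {ρ : ℝ} (hρ0 : 0 ≤ ρ) (hρ : ρ < 1) (θ : ℝ) :
    ‖Complex.exp (θ * Complex.I) - 1‖ ≤ 2 * ‖1 - circleMap 0 ρ θ‖ := by
  have h1 := one_sub_le hρ0 θ
  have h2 : circleMap 0 ρ θ = (ρ : ℂ) * Complex.exp (θ * Complex.I) := by simp [circleMap]
  have h3 : Complex.exp (θ * Complex.I) - 1 =
      ((1 - ρ : ℝ) : ℂ) * Complex.exp (θ * Complex.I) - (1 - circleMap 0 ρ θ) := by
    rw [h2]
    push_cast
    ring
  rw [h3]
  refine (norm_sub_le _ _).trans ?_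
  rw [norm_mul, Complex.norm_exp_ofReal_mul_I, Complex.norm_real,
    Real.norm_of_nonneg (by linarith : 0 ≤ 1 - ρ)]
  linarith

/-- `2 Re K` paired with `e^{-imθ} - 1` -/
def Er (K : ℂ → ℂ) (m : ℕ) (ρ : ℝ) : ℂ :=
  ∫ θ in (0 : ℝ)..2 * π, ((2 * (K (circleMap 0 ρ θ)).re : ℝ) : ℂ) *
    (Complex.exp (-((m : ℤ) * θ * Complex.I)) - 1)

lemma tendsto_Er {K : ℂ → ℂ} {r : ℝ} (hr0 : 0 < r) (hr : r < 1)
    (hK : DifferentiableOn ℂ K (Ann r)) {C : ℝ}
    (hb : ∀ w ∈ Ann r, |(K w).re| ≤ C * (1 - ‖w‖ ^ 2) / ‖1 - w‖ ^ 2) (m : ℕ) :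
    Tendsto (fun ρ => Er K m ρ) (𝓝[<] 1) (𝓝 0) := by
  have hC : 0 ≤ C := by
    obtain ⟨ρ, h1, h2⟩ := exists_between hr
    have h3 := hb (circleMap 0 ρ π) (circleMap_mem hr0 h1 h2 _)
    have h4 := norm_circleMap (hr0.trans h1).le π
    rw [h4] at h3
    have h5 := one_sub_le (hr0.trans h1).le π
    have h6 : 0 < ‖1 - circleMap 0 ρ π‖ ^ 2 := by
      have : 0 < ‖1 - circleMap 0 ρ π‖ := lt_of_lt_of_le (by linarith) h5
      positivity
    have h7 : 0 ≤ C * (1 - ρ ^ 2) / ‖1 - circleMap 0 ρ π‖ ^ 2 := (abs_nonneg _).trans h3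
    rw [le_div_iff₀ h6, zero_mul] at h7
    have h8 : 0 < 1 - ρ ^ 2 := by nlinarith [hr0.trans h1]
    exact nonneg_of_mul_nonneg_left h7 h8
  have hev : ∀ᶠ ρ : ℝ in 𝓝[<] 1, r < ρ ∧ ρ < 1 := by
    have h1 : ∀ᶠ ρ : ℝ in 𝓝 1, r < ρ := lt_mem_nhds hr
    filter_upwards [nhdsWithin_le_nhds h1, self_mem_nhdsWithin] with ρ h2 h3
    exact ⟨h2, h3⟩
  -- pointwise estimate
  have hest : ∀ ρ : ℝ, r < ρ → ρ < 1 → ∀ θ : ℝ,
      ‖((2 * (K (circleMap 0 ρ θ)).re : ℝ) : ℂ) *
        (Complex.exp (-((m : ℤ) * θ * Complex.I)) - 1)‖ ≤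
        4 * C * m * ((1 - ρ ^ 2) / ‖1 - circleMap 0 ρ θ‖) := by
    intro ρ h1 h2 θ
    have hρ0 : 0 ≤ ρ := (hr0.trans h1).le
    have h3 := hb _ (circleMap_mem hr0 h1 h2 θ)
    rw [norm_circleMap hρ0] at h3
    have h4 := one_sub_le hρ0 θ
    have h5 : 0 < ‖1 - circleMap 0 ρ θ‖ := lt_of_lt_of_le (by linarith) h4
    have h6 := norm_exp_sub_one m θ
    have h7 := exp_sub_le hρ0 h2 θ
    rw [norm_mul, Complex.norm_real, Real.norm_eq_abs, abs_mul, abs_two]
    have h8 : ‖Complex.exp (-((m : ℤ) * θ * Complex.I)) - 1‖ ≤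
        m * (2 * ‖1 - circleMap 0 ρ θ‖) :=
      h6.trans (mul_le_mul_of_nonneg_left h7 (Nat.cast_nonneg m))
    calc 2 * |(K (circleMap 0 ρ θ)).re| * ‖Complex.exp (-((m : ℤ) * θ * Complex.I)) - 1‖
        ≤ 2 * (C * (1 - ρ ^ 2) / ‖1 - circleMap 0 ρ θ‖ ^ 2) *
          (m * (2 * ‖1 - circleMap 0 ρ θ‖)) := by
          refine mul_le_mul (by linarith) h8 (norm_nonneg _) ?_
          have := (abs_nonneg _).trans h3
          linarith
      _ = 4 * C * m * ((1 - ρ ^ 2) / ‖1 - circleMap 0 ρ θ‖) := by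
          field_simp
          ring
  have hlim : Tendsto (fun ρ => Er K m ρ) (𝓝[<] 1)
      (𝓝 (∫ _θ in (0 : ℝ)..2 * π, (0 : ℂ))) := by
    unfold Er
    refine intervalIntegral.tendsto_integral_filter_of_dominated_convergence
      (fun _ => 4 * C * m * 2) ?_ ?_ intervalIntegrable_const ?_
    · filter_upwards [hev] with ρ hρ
      have h1 := cont_K hr0 hK hρ.1 hρ.2
      refine Continuous.aestronglyMeasurable ?_
      have h2 : Continuous fun θ : ℝ => 2 * (K (circleMap 0 ρ θ)).re :=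
        continuous_const.mul (Complex.continuous_re.comp h1)
      have h3 : Continuous fun θ : ℝ => Complex.exp (-((m : ℤ) * θ * Complex.I)) - 1 := by
        fun_prop
      exact (Complex.continuous_ofReal.comp h2).mul h3
    · filter_upwards [hev] with ρ hρ
      refine Eventually.of_forall fun θ _ => ?_
      refine (hest ρ hρ.1 hρ.2 θ).trans ?_
      have h4 := one_sub_le (hr0.trans hρ.1).le θ
      have h5 : 0 < ‖1 - circleMap 0 ρ θ‖ := lt_of_lt_of_le (by linarith [hρ.2]) h4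
      refine mul_le_mul_of_nonneg_left ?_ (by positivity)
      rw [div_le_iff₀ h5]
      nlinarith [hρ.2, hr0.trans hρ.1]
    · have hne : ∀ᵐ θ : ℝ, θ ≠ 2 * π := by
        rw [ae_iff]
        simp
      filter_upwards [hne] with θ hθ hmem
      rw [uIoc_of_le (by positivity)] at hmem
      have hx : Complex.exp (θ * Complex.I) ≠ 1 := by
        intro h
        rw [Complex.exp_eq_one_iff] at h
        obtain ⟨k, hk⟩ := h
        have h1 : (θ : ℂ) = k * (2 * π) := by
          apply mul_right_cancel₀ Complex.I_ne_zero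
          rw [hk]
          ring
        have h2 : θ = k * (2 * π) := by exact_mod_cast h1
        have h3 : 0 < (k : ℝ) * (2 * π) := by rw [← h2]; exact hmem.1
        have h4 : (k : ℝ) * (2 * π) < 2 * π := by
          rw [← h2]
          exact lt_of_le_of_ne hmem.2 hθ
        have h5 : 0 < (k : ℝ) := by
          by_contra hcon
          push Not at hcon
          nlinarith [Real.pi_pos]
        have h6 : (k : ℝ) < 1 := by
          by_contra hcon
          push Not at hcon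
          nlinarith [Real.pi_pos]
        have h7 : 0 < k := by exact_mod_cast h5
        have h8 : k < 1 := by exact_mod_cast h6
        omega
      have hcm : Tendsto (fun ρ : ℝ => circleMap 0 ρ θ) (𝓝[<] 1)
          (𝓝 (Complex.exp (θ * Complex.I))) := by
        have h1 : Continuous fun ρ : ℝ => circleMap 0 ρ θ := by
          unfold circleMap
          fun_prop
        have h2 := (h1.tendsto 1).mono_left (nhdsWithin_le_nhds (s := Iio (1 : ℝ)))
        simpa [circleMap] using h2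
      have hgo : Tendsto (fun ρ : ℝ => 4 * C * m * ((1 - ρ ^ 2) / ‖1 - circleMap 0 ρ θ‖))
          (𝓝[<] 1) (𝓝 (4 * C * m * ((1 - 1 ^ 2) / ‖1 - Complex.exp (θ * Complex.I)‖))) := by
        refine Tendsto.const_mul _ ?_
        refine Tendsto.div ?_ (hcm.const_sub 1).norm ?_
        · have h1 : Continuous fun ρ : ℝ => 1 - ρ ^ 2 := by fun_prop
          exact (h1.tendsto 1).mono_left nhdsWithin_le_nhds
        · rw [norm_ne_zero_iff]
          exact sub_ne_zero.2 (Ne.symm hx)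
      have h0 : 4 * C * m * ((1 - 1 ^ 2) / ‖1 - Complex.exp (θ * Complex.I)‖) = 0 := by
        norm_num
      rw [h0] at hgo
      refine squeeze_zero_norm' ?_ hgo
      filter_upwards [hev] with ρ hρ
      exact hest ρ hρ.1 hρ.2 θ
  rw [intervalIntegral.integral_zero] at hlim
  exact hlim

end

end Pool.Agent.Lib.MP_6ff8d9_an.Rat.H82
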