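import Pool.Agent.Lib.MP_6ff8d9_an_h82.LevPrime

/-!
# MP_6ff8d9: the explicit irrational extreme points `z₀ / √(1 - z₁² - … - z_n²)`
-/

open Metric Filter Topology Set
open scoped ComplexConjugate

namespace Pool.Agent.Lib.MP_6ff8d9_an.H82L

open Pool.Agent.Lib.MP_6ff8d9_an

noncomputable section

variable {n : ℕ}

/-- the sum of the squares of the last coordinates -/
def ssq (y : Fin n → ℂ) : ℂ := ∑ j, y j ^ 2

/-- `√(1 - s)`, principal branch -/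
def rt (y : Fin n → ℂ) : ℂ := Complex.exp (Complex.log (1 - ssq y) / 2)

/-- the function `z₀ / √(1 - z₁² - … - z_n²)` -/
def Fq (z : Cn (n + 1)) : ℂ := z 0 / rt fun j : Fin n => z j.succ

lemma norm_sq_split (z : Cn (n + 1)) : ‖z‖ ^ 2 = ‖z 0‖ ^ 2 + ∑ j : Fin n, ‖z j.succ‖ ^ 2 := by
  rw [EuclideanSpace.norm_sq_eq, Fin.sum_univ_succ]

lemma ssq_le (y : Fin n → ℂ) : ‖ssq y‖ ≤ ∑ j, ‖y j‖ ^ 2 := by
  unfold ssq
  refine (norm_sum_le _ _).trans (Finset.sum_le_sum fun j _ => ?_)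
  rw [norm_pow]

lemma slit {y : Fin n → ℂ} (h : ∑ j, ‖y j‖ ^ 2 < 1) : 1 - ssq y ∈ Complex.slitPlane := by
  left
  have h1 := (ssq_le y).trans_lt h
  have h2 := Complex.re_le_norm (ssq y)
  rw [Complex.sub_re, Complex.one_re]
  linarith

lemma slit_ne {y : Fin n → ℂ} (h : ∑ j, ‖y j‖ ^ 2 < 1) : 1 - ssq y ≠ 0 :=
  Complex.slitPlane_ne_zero (slit h)

lemma rt_ne (y : Fin n → ℂ) : rt y ≠ 0 := Complex.exp_ne_zero _

lemma rt_sq {y : Fin n → ℂ} (h : 1 - ssq y ≠ 0) : rt y ^ 2 = 1 - ssq y := by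
  unfold rt
  rw [← Complex.exp_nat_mul]
  have : ((2 : ℕ) : ℂ) * (Complex.log (1 - ssq y) / 2) = Complex.log (1 - ssq y) := by
    push_cast
    ring
  rw [this, Complex.exp_log h]

lemma norm_rt {y : Fin n → ℂ} (h : 1 - ssq y ≠ 0) : ‖rt y‖ ^ 2 = ‖1 - ssq y‖ := by
  rw [← norm_pow, rt_sq h]

lemma norm_one_sub (y : Fin n → ℂ) : 1 - ∑ j, ‖y j‖ ^ 2 ≤ ‖1 - ssq y‖ := by
  have h1 := norm_sub_norm_le (1 : ℂ) (ssq y)
  rw [norm_one] at h1
  linarith [ssq_le y]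

lemma rt_eq : (rt : (Fin n → ℂ) → ℂ) =
    fun y => Complex.exp (Complex.log (1 - ssq y) * (2 : ℂ)⁻¹) := by
  funext y
  unfold rt
  rw [div_eq_mul_inv]

lemma rt_diffAt {y : Fin n → ℂ} (h : 1 - ssq y ∈ Complex.slitPlane) : DifferentiableAt ℂ rt y := by
  have h1 : DifferentiableAt ℂ (fun y : Fin n → ℂ => 1 - ssq y) y := by
    unfold ssq
    fun_prop
  rw [rt_eq]
  exact ((h1.clog h).mul_const _).cexp

lemma tail_diff (z : Cn (n + 1)) :
    DifferentiableAt ℂ (fun z : Cn (n + 1) => fun j : Fin n => z j.succ) z := by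
  fun_prop

lemma tail_lt {z : Cn (n + 1)} (hz : ‖z‖ < 1) : ∑ j : Fin n, ‖z j.succ‖ ^ 2 < 1 := by
  have h1 := norm_sq_split z
  have h2 : ‖z‖ ^ 2 < 1 := by nlinarith [norm_nonneg z]
  nlinarith [sq_nonneg ‖z 0‖]

lemma Fq_diffAt {z : Cn (n + 1)} (h : 1 - ssq (fun j : Fin n => z j.succ) ∈ Complex.slitPlane) :
    DifferentiableAt ℂ Fq z := by
  have h1 : DifferentiableAt ℂ (fun z : Cn (n + 1) => rt fun j : Fin n => z j.succ) z :=
    DifferentiableAt.comp z (g := rt) (f := fun z : Cn (n + 1) => fun j : Fin n => z j.succ)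
      (rt_diffAt h) (tail_diff z)
  have h2 : DifferentiableAt ℂ (fun z : Cn (n + 1) => z 0) z := by fun_prop
  have e : (Fq : Cn (n + 1) → ℂ) =
      fun z => z 0 * (rt fun j : Fin n => z j.succ)⁻¹ := by
    funext z
    exact div_eq_mul_inv _ _
  rw [e]
  exact h2.fun_mul (h1.fun_inv (rt_ne _))

lemma Fq_norm_sq {z : Cn (n + 1)} (h : 1 - ssq (fun j : Fin n => z j.succ) ≠ 0) :
    ‖Fq z‖ ^ 2 = ‖z 0‖ ^ 2 / ‖1 - ssq fun j : Fin n => z j.succ‖ := by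
  unfold Fq
  rw [norm_div, div_pow, norm_rt h]

lemma Fq_lt {z : Cn (n + 1)} (hz : ‖z‖ < 1) : ‖Fq z‖ < 1 := by
  have h1 := tail_lt hz
  have h2 := slit_ne h1
  have h3 := norm_one_sub fun j : Fin n => z j.succ
  have h4 := norm_sq_split z
  have h5 : ‖z‖ ^ 2 < 1 := by nlinarith [norm_nonneg z]
  have h6 : ‖Fq z‖ ^ 2 < 1 := by
    rw [Fq_norm_sq h2, div_lt_one (norm_pos_iff.2 h2)]
    linarith
  nlinarith [norm_nonneg (Fq z)]

lemma Fq_zero : Fq (0 : Cn (n + 1)) = 0 := by simp [Fq]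

lemma Fq_hol : P69.Hol (n + 1) (Fq : Cn (n + 1) → ℂ) :=
  ⟨fun z hz => (Fq_diffAt (slit (tail_lt (mem_ball_zero_iff.1 hz)))).differentiableWithinAt,
    fun _ hz => Fq_lt (mem_ball_zero_iff.1 hz)⟩

/-- the point of the level set over `y` -/
def lv (c : ℂ) (y : Fin n → ℂ) : Cn (n + 1) := WithLp.toLp 2 (Fin.cons (c * rt y) y)

lemma lv_zero (c : ℂ) (y : Fin n → ℂ) : lv c y 0 = c * rt y := rfl

lemma lv_succ (c : ℂ) (y : Fin n → ℂ) (j : Fin n) : lv c y j.succ = y j := rfl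

lemma Fq_lv (c : ℂ) (y : Fin n → ℂ) : Fq (lv c y) = c := by
  unfold Fq
  simp only [lv_zero, lv_succ]
  exact mul_div_cancel_right₀ c (rt_ne y)

lemma Fq_onto {c : ℂ} (hc : c ∈ ball (0 : ℂ) 1) : ∃ z ∈ ball (0 : Cn (n + 1)) 1, Fq z = c := by
  refine ⟨lv c 0, ?_, Fq_lv c 0⟩
  have h1 := norm_sq_split (lv c (0 : Fin n → ℂ))
  have h2 : rt (0 : Fin n → ℂ) = 1 := by simp [rt, ssq]
  simp only [lv_zero, lv_succ, h2, mul_one, Pi.zero_apply, norm_zero] at h1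
  have h3 : ‖lv c (0 : Fin n → ℂ)‖ ^ 2 = ‖c‖ ^ 2 := by
    rw [h1]
    simp
  rw [mem_ball_zero_iff] at hc ⊢
  nlinarith [norm_nonneg (lv c (0 : Fin n → ℂ)), norm_nonneg c]

/-- the base of the level set -/
def Sc (n : ℕ) (c : ℂ) : Set (Fin n → ℂ) := {y | ∑ j, ‖y j‖ ^ 2 + ‖c‖ ^ 2 * ‖1 - ssq y‖ < 1}

lemma Sc_lt {c : ℂ} {y : Fin n → ℂ} (h : y ∈ Sc n c) : ∑ j, ‖y j‖ ^ 2 < 1 := by
  have h1 : ∑ j, ‖y j‖ ^ 2 + ‖c‖ ^ 2 * ‖1 - ssq y‖ < 1 := h
  have h2 : 0 ≤ ‖c‖ ^ 2 * ‖1 - ssq y‖ := by positivity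
  linarith

lemma Sc_star {c : ℂ} (hc : ‖c‖ < 1) : StarConvex ℝ 0 (Sc n c) := by
  rw [starConvex_zero_iff]
  intro y hy t ht0 ht1
  have h1 : ∑ j, ‖y j‖ ^ 2 + ‖c‖ ^ 2 * ‖1 - ssq y‖ < 1 := hy
  show ∑ j, ‖(t • y) j‖ ^ 2 + ‖c‖ ^ 2 * ‖1 - ssq (t • y)‖ < 1
  have e1 : ∑ j, ‖(t • y) j‖ ^ 2 = t ^ 2 * ∑ j, ‖y j‖ ^ 2 := by
    rw [Finset.mul_sum]
    refine Finset.sum_congr rfl fun j _ => ?_
    rw [Pi.smul_apply, norm_smul, Real.norm_of_nonneg ht0, mul_pow]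
  have e2 : ssq (t • y) = (t ^ 2 : ℝ) * ssq y := by
    unfold ssq
    rw [Finset.mul_sum]
    refine Finset.sum_congr rfl fun j _ => ?_
    rw [Pi.smul_apply, Complex.real_smul]
    push_cast
    ring
  have ht2 : t ^ 2 ≤ 1 := pow_le_one₀ ht0 ht1
  have ht3 : 0 ≤ t ^ 2 := sq_nonneg t
  have e3 : ‖1 - ssq (t • y)‖ ≤ (1 - t ^ 2) + t ^ 2 * ‖1 - ssq y‖ := by
    have h2 : 1 - ssq (t • y) = ((1 - t ^ 2 : ℝ) : ℂ) + ((t ^ 2 : ℝ) : ℂ) * (1 - ssq y) := by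
      rw [e2]
      push_cast
      ring
    rw [h2]
    refine (norm_add_le _ _).trans ?_
    rw [norm_mul, Complex.norm_real, Complex.norm_real, Real.norm_of_nonneg (by linarith),
      Real.norm_of_nonneg ht3]
  have hc2 : ‖c‖ ^ 2 < 1 := by nlinarith [norm_nonneg c]
  have hc3 : 0 ≤ ‖c‖ ^ 2 := sq_nonneg _
  have h5 : ‖c‖ ^ 2 * ‖1 - ssq (t • y)‖ ≤ ‖c‖ ^ 2 * ((1 - t ^ 2) + t ^ 2 * ‖1 - ssq y‖) :=
    mul_le_mul_of_nonneg_left e3 hc3
  rw [e1]
  rcases eq_or_lt_of_le ht2 with h6 | h6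
  · rw [h6] at h5 ⊢
    linarith
  · nlinarith

lemma level_preconn {c : ℂ} (hc : c ∈ ball (0 : ℂ) 1) :
    IsPreconnected {z : Cn (n + 1) | ‖z‖ < 1 ∧ Fq z = c} := by
  have hc' : ‖c‖ < 1 := mem_ball_zero_iff.1 hc
  have hS : IsPreconnected (Sc n c) := by
    refine ((Sc_star hc').isPathConnected ?_).isConnected.isPreconnected
    show ∑ j, ‖(0 : Fin n → ℂ) j‖ ^ 2 + ‖c‖ ^ 2 * ‖1 - ssq (0 : Fin n → ℂ)‖ < 1
    have : ssq (0 : Fin n → ℂ) = 0 := by simp [ssq]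
    rw [this]
    have h1 : ‖c‖ ^ 2 < 1 := by nlinarith [norm_nonneg c]
    simpa using h1
  have himg : {z : Cn (n + 1) | ‖z‖ < 1 ∧ Fq z = c} = lv c '' Sc n c := by
    ext z
    constructor
    · rintro ⟨h1, h2⟩
      have h3 := slit_ne (tail_lt h1)
      have h4 : z 0 = c * rt fun j : Fin n => z j.succ := by
        rw [← h2]
        unfold Fq
        exact (div_mul_cancel₀ _ (rt_ne _)).symm
      refine ⟨fun j => z j.succ, ?_, ?_⟩
      · show ∑ j : Fin n, ‖z j.succ‖ ^ 2 + ‖c‖ ^ 2 * ‖1 - ssq fun j : Fin n => z j.succ‖ < 1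
        have h5 := norm_sq_split z
        rw [h4, norm_mul, mul_pow, norm_rt h3] at h5
        have h6 : ‖z‖ ^ 2 < 1 := by nlinarith [norm_nonneg z]
        linarith
      · ext i
        refine Fin.cases ?_ (fun j => ?_) i
        · rw [lv_zero, ← h4]
        · rw [lv_succ]
    · rintro ⟨y, hy, rfl⟩
      refine ⟨?_, Fq_lv c y⟩
      have h1 := norm_sq_split (lv c y)
      simp only [lv_zero, lv_succ] at h1
      rw [norm_mul, mul_pow, norm_rt (slit_ne (Sc_lt hy))] at h1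
      have h2 : ∑ j, ‖y j‖ ^ 2 + ‖c‖ ^ 2 * ‖1 - ssq y‖ < 1 := hy
      nlinarith [norm_nonneg (lv c y)]
  rw [himg]
  refine hS.image _ fun y hy => ?_
  have h1 : ContinuousAt rt y := (rt_diffAt (slit (Sc_lt hy))).continuousAt
  have h2 : ContinuousAt (fun y : Fin n → ℂ => (Fin.cons (c * rt y) y : Fin (n + 1) → ℂ)) y := by
    refine continuousAt_pi.2 fun i => ?_
    refine Fin.cases ?_ (fun j => ?_) i
    · simp only [Fin.cons_zero]
      exact continuousAt_const.mul h1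
    · simp only [Fin.cons_succ]
      exact (continuous_apply j).continuousAt
  have h3 : ContinuousAt (lv c) y :=
    ContinuousAt.comp (g := fun y : Fin (n + 1) → ℂ => (WithLp.toLp 2 y : Cn (n + 1)))
      (PiLp.continuous_toLp 2 _).continuousAt h2
  exact h3.continuousWithinAt

/-- the chart at the point `(i, 0, …, 0)` -/
def Tq (y : Cn (n + 1)) : Cn (n + 1) :=
  lv (Complex.I * Complex.exp (-(Complex.I * y 0))) fun j : Fin n => y j.succ

lemma Tq_zero (y : Cn (n + 1)) : Tq y 0 =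
    Complex.I * Complex.exp (-(Complex.I * y 0)) * rt fun j : Fin n => y j.succ := rfl

lemma Tq_succ (y : Cn (n + 1)) (j : Fin n) : Tq y j.succ = y j.succ := rfl

lemma rt_deriv_zero : HasFDerivAt (rt : (Fin n → ℂ) → ℂ) (0 : (Fin n → ℂ) →L[ℂ] ℂ) 0 := by
  have h0 : ssq (0 : Fin n → ℂ) = 0 := by simp [ssq]
  have h1 : HasFDerivAt (fun y : Fin n → ℂ => 1 - ssq y) (0 : (Fin n → ℂ) →L[ℂ] ℂ) 0 := by
    have h2 : HasFDerivAt (ssq : (Fin n → ℂ) → ℂ) (0 : (Fin n → ℂ) →L[ℂ] ℂ) 0 := by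
      unfold ssq
      have h3 : ∀ j ∈ (Finset.univ : Finset (Fin n)), HasFDerivAt (fun y : Fin n → ℂ => y j ^ 2)
          (0 : (Fin n → ℂ) →L[ℂ] ℂ) 0 := by
        intro j _
        have h4 := (hasFDerivAt_apply (𝕜 := ℂ) j (0 : Fin n → ℂ)).pow 2
        exact h4.congr_fderiv (by ext; simp)
      have h5 := HasFDerivAt.fun_sum h3
      exact h5.congr_fderiv (by simp)
    have h6 := h2.const_sub 1
    exact h6.congr_fderiv (by simp)
  have hs : 1 - ssq (0 : Fin n → ℂ) ∈ Complex.slitPlane := by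
    rw [h0, sub_zero]
    exact Complex.one_mem_slitPlane
  have h2 := h1.clog hs
  have h3 := (h2.mul_const ((2 : ℂ)⁻¹)).cexp
  rw [rt_eq]
  exact h3.congr_fderiv (by ext; simp)

lemma Tq_deriv : HasFDerivAt (Tq : Cn (n + 1) → Cn (n + 1))
    ((ContinuousLinearEquiv.refl ℂ (Cn (n + 1)) : Cn (n + 1) ≃L[ℂ] Cn (n + 1)) :
      Cn (n + 1) →L[ℂ] Cn (n + 1)) 0 := by
  rw [← hasFDerivWithinAt_univ, hasFDerivWithinAt_euclidean]
  intro i
  rw [hasFDerivWithinAt_univ]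
  refine Fin.cases ?_ (fun j => ?_) i
  · have h1 : HasFDerivAt (fun y : Cn (n + 1) => y 0)
        (EuclideanSpace.proj (0 : Fin (n + 1)) : Cn (n + 1) →L[ℂ] ℂ) 0 :=
      (EuclideanSpace.proj (0 : Fin (n + 1)) : Cn (n + 1) →L[ℂ] ℂ).hasFDerivAt
    have h2 : HasFDerivAt (fun y : Cn (n + 1) => Complex.I * Complex.exp (-(Complex.I * y 0)))
        (EuclideanSpace.proj (0 : Fin (n + 1)) : Cn (n + 1) →L[ℂ] ℂ) 0 := by
      have h3 := ((h1.const_mul Complex.I).neg.cexp).const_mul Complex.I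
      refine h3.congr_fderiv ?_
      ext v
      simp
      rw [← mul_assoc, Complex.I_mul_I]
      ring
    have h4 : HasFDerivAt (fun y : Cn (n + 1) => rt fun j : Fin n => y j.succ)
        (0 : Cn (n + 1) →L[ℂ] ℂ) 0 := by
      have h5 : HasFDerivAt (fun y : Cn (n + 1) => fun j : Fin n => y j.succ)
          (fderiv ℂ (fun y : Cn (n + 1) => fun j : Fin n => y j.succ) 0) 0 :=
        (tail_diff 0).hasFDerivAt
      have h6 : (fun j : Fin n => (0 : Cn (n + 1)) j.succ) = 0 := rfl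
      have h7 := rt_deriv_zero (n := n)
      rw [← h6] at h7
      have h8 := HasFDerivAt.comp (0 : Cn (n + 1)) h7 h5
      exact HasFDerivAt.congr_fderiv h8 (by simp)
    have h9 := h2.mul h4
    refine (h9.congr_fderiv ?_)
    ext v
    have h10 : rt (fun _ : Fin n => (0 : ℂ)) = 1 := by simp [rt, ssq]
    simp [h10]
  · have h1 : HasFDerivAt (fun y : Cn (n + 1) => y j.succ)
        (EuclideanSpace.proj (j.succ : Fin (n + 1)) : Cn (n + 1) →L[ℂ] ℂ) 0 :=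
      (EuclideanSpace.proj (j.succ : Fin (n + 1)) : Cn (n + 1) →L[ℂ] ℂ).hasFDerivAt
    exact h1

/-- the point `(i, 0, …, 0)` is a good boundary point -/
lemma Fq_good : GoodPt (Fq : Cn (n + 1) → ℂ) (Tq 0) := by
  have hrt0 : rt (fun j : Fin n => (0 : Cn (n + 1)) j.succ) = 1 := by simp [rt, ssq]
  have hev : ∀ z : Cn (n + 1), (∑ j : Fin n, ‖z j.succ‖ ^ 2 < 1) →
      ∀ᶠ y in 𝓝 z, ∑ j : Fin n, ‖y j.succ‖ ^ 2 < 1 := by
    intro z hz
    have hc : Continuous fun y : Cn (n + 1) => ∑ j : Fin n, ‖y j.succ‖ ^ 2 := by fun_prop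
    exact hc.continuousAt.eventually (gt_mem_nhds hz)
  have h0 : ∑ j : Fin n, ‖(0 : Cn (n + 1)) j.succ‖ ^ 2 < 1 := by simp
  have hT0 : ∑ j : Fin n, ‖(Tq (0 : Cn (n + 1))) j.succ‖ ^ 2 < 1 := by
    simp only [Tq_succ]
    exact h0
  refine ⟨?_, Tq, rfl, ?_, ⟨ContinuousLinearEquiv.refl ℂ _, Tq_deriv⟩, ?_⟩
  · filter_upwards [hev _ hT0] with y hy
    exact Fq_diffAt (slit hy)
  · filter_upwards [hev _ h0] with y hy
    rw [differentiableAt_euclidean]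
    intro i
    refine Fin.cases ?_ (fun j => ?_) i
    · have h1 : DifferentiableAt ℂ (fun z : Cn (n + 1) => rt fun j : Fin n => z j.succ) y :=
        DifferentiableAt.comp y (g := rt) (f := fun z : Cn (n + 1) => fun j : Fin n => z j.succ)
          (rt_diffAt (slit hy)) (tail_diff y)
      have h2 : DifferentiableAt ℂ
          (fun z : Cn (n + 1) => Complex.I * Complex.exp (-(Complex.I * z 0))) y := by fun_prop
      exact h2.mul h1
    · have : DifferentiableAt ℂ (fun z : Cn (n + 1) => z j.succ) y := by fun_prop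
      exact this
  · filter_upwards [hev _ h0] with y hy hreal
    have hyr : ∀ i, ((y i).re : ℂ) = y i := fun i =>
      Complex.ext (by simp) (by simp [hreal i])
    have hssq : ssq (fun j : Fin n => y j.succ) = ((∑ j : Fin n, ‖y j.succ‖ ^ 2 : ℝ) : ℂ) := by
      unfold ssq
      push_cast
      refine Finset.sum_congr rfl fun j _ => ?_
      have h1 := hyr j.succ
      rw [← h1, Complex.norm_real]
      norm_cast
      rw [Real.norm_eq_abs, sq_abs]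
    have hnorm : ‖Complex.I * Complex.exp (-(Complex.I * y 0))‖ = 1 := by
      rw [norm_mul, Complex.norm_I, one_mul, Complex.norm_exp]
      have : (-(Complex.I * y 0)).re = 0 := by
        simp [hreal 0]
      rw [this, Real.exp_zero]
    constructor
    · have h1 := norm_sq_split (Tq y)
      simp only [Tq_zero, Tq_succ] at h1
      rw [norm_mul, hnorm, one_mul, norm_rt (slit_ne hy), hssq] at h1
      have h2 : ‖(1 : ℂ) - ((∑ j : Fin n, ‖y j.succ‖ ^ 2 : ℝ) : ℂ)‖ =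
          1 - ∑ j : Fin n, ‖y j.succ‖ ^ 2 := by
        rw [← Complex.ofReal_one, ← Complex.ofReal_sub, Complex.norm_real,
          Real.norm_of_nonneg (by linarith)]
      rw [h2] at h1
      have h3 : ‖Tq y‖ ^ 2 = 1 := by linarith
      exact (pow_eq_one_iff_of_nonneg (norm_nonneg _) two_ne_zero).1 h3
    · have h1 : Fq (Tq y) = Complex.I * Complex.exp (-(Complex.I * y 0)) := Fq_lv _ _
      rw [h1, hnorm]

lemma Fq_ne_one : Fq (Tq (0 : Cn (n + 1))) ≠ 1 := by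
  have h1 : Fq (Tq (0 : Cn (n + 1))) = Complex.I * Complex.exp (-(Complex.I * (0 : Cn (n + 1)) 0)) :=
    Fq_lv _ _
  rw [h1]
  simp
  intro h
  have := congrArg Complex.re h
  simp at this

/-- the functions `z₀ / √(1 - z₁² - … - z_n²)` give extreme points -/
theorem exq (hC : CONTL) (hX : EXTL) (hFI : FIBC) (hKOF : P69.KOF) (hS : P69.SECT) (n : ℕ) :
    IsExtremePoint (n + 1) (fun z => (1 + Fq z) / (1 - Fq z)) :=
  primeext hC hX (n + 1) Fq (Tq 0) Fq_hol.an Fq_hol.lt Fq_zero Fq_good Fq_ne_one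
    ((primeF_iff _).1 (levprime hFI hKOF hS Fq ∅ Fq_hol finite_empty (fun _ hc => Fq_onto hc)
      (fun _ hc => level_preconn hc.1)))

end

end Pool.Agent.Lib.MP_6ff8d9_an.H82L
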