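import Pool.Agent.Lib.MP_6ff8d9_an_h82.EndC
import Pool.Agent.Lib.MP_6ff8d9_an_h82.Glue
import Pool.Agent.Lib.MP_6ff8d9_an_h77.Poinc

/-!
# MP_6ff8d9 RATIONAL: the global block

From LEAF, LIFT, RADIAL: if `{P = Q}` is connected in the sphere, a holomorphic `k` on the ball with
`dk ∧ df = 0`, `k(0) = 0`, `|Re k| ≤ Re (1+f)/(1-f)` vanishes.
-/

open Metric Set Filter Topology MvPolynomial

namespace Pool.Agent.Lib.MP_6ff8d9_an.Rat.H82

open Pool.Agent.Lib.MP_6ff8d9_an Pool.Agent.Lib.MP_6ff8d9_an.H22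
open Pool.Agent.Lib.MP_6ff8d9_an.H22.Poinc

noncomputable section

lemma ev_ev {p : ℝ → Prop} (h : ∀ᶠ t in 𝓝[>] (0 : ℝ), p t) :
    ∀ᶠ t in 𝓝[>] (0 : ℝ), ∀ᶠ s in 𝓝 t, p s := by
  have h1 := eventually_eventually_nhdsWithin.2 h
  filter_upwards [h1, self_mem_nhdsWithin] with t h2 h3
  rwa [isOpen_Ioi.nhdsWithin_eq h3] at h2

/-- the integrals over circles do not depend on the radius -/
lemma per_indep {K : ℂ → ℂ} {r : ℝ} (hr0 : 0 < r) (hK : DifferentiableOn ℂ K (Ann r)) {ρ₁ ρ₂ : ℝ}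
    (h1 : r < ρ₁) (h12 : ρ₁ ≤ ρ₂) (h2 : ρ₂ < 1) (j : ℕ) :
    (∮ w in C(0, ρ₂), K w * w ^ j) = ∮ w in C(0, ρ₁), K w * w ^ j := by
  have hρ1 : 0 < ρ₁ := hr0.trans h1
  have hmem : ∀ w : ℂ, ρ₁ ≤ ‖w‖ → ‖w‖ ≤ ρ₂ → w ∈ Ann r := fun w ha hb =>
    ⟨h1.trans_le ha, hb.trans_lt h2⟩
  have hdiff : ∀ w : ℂ, ρ₁ ≤ ‖w‖ → ‖w‖ ≤ ρ₂ → DifferentiableAt ℂ (fun w => K w * w ^ j) w := by
    intro w ha hb
    have h3 := (hK w (hmem w ha hb)).differentiableAt ((isOpen_Ann r).mem_nhds (hmem w ha hb))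
    exact h3.mul (differentiableAt_id.pow j)
  refine Complex.circleIntegral_eq_of_differentiable_on_annulus_off_countable (s := ∅) hρ1 h12
    countable_empty ?_ ?_
  · intro w hw
    rw [Set.mem_sdiff, mem_closedBall_zero_iff, mem_ball_zero_iff, not_lt] at hw
    exact (hdiff w hw.2 hw.1).continuousAt.continuousWithinAt
  · intro w hw
    rw [sdiff_empty, Set.mem_sdiff, mem_closedBall_zero_iff, mem_ball_zero_iff, not_le] at hw
    exact hdiff w hw.2.le hw.1.le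

/-- end step with the moments vanishing on one circle each -/
theorem end_step' {K : ℂ → ℂ} {r : ℝ} (hr0 : 0 < r) (hr : r < 1)
    (hK : DifferentiableOn ℂ K (Ann r)) {C : ℝ}
    (hb : ∀ w ∈ Ann r, |(K w).re| ≤ C * (1 - ‖w‖ ^ 2) / ‖1 - w‖ ^ 2)
    (hper : ∀ j : ℕ, ∃ ρ, r < ρ ∧ ρ < 1 ∧ (∮ w in C(0, ρ), K w * w ^ j) = 0) :
    ∃ κ : ℂ, ∀ w ∈ Ann r, K w = κ + 2 * (κ.re : ℂ) * w / (1 - w) := by
  refine end_step hr0 hr hK hb fun j ρ h1 h2 => ?_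
  obtain ⟨ρ', h3, h4, h5⟩ := hper j
  rcases le_total ρ ρ' with h | h
  · rw [← per_indep hr0 hK h1 h h4 j, h5]
  · rw [per_indep hr0 hK h3 h h2 j, h5]

section
variable {n : ℕ} {P Q : MvPolynomial (Fin n) ℂ}

lemma frac_re (w : ℂ) : ((1 + w) / (1 - w)).re = (1 - ‖w‖ ^ 2) / ‖1 - w‖ ^ 2 := by
  rw [Complex.div_re, ← add_div, Complex.normSq_eq_norm_sq]
  congr 1
  rw [← Complex.normSq_eq_norm_sq, Complex.normSq_apply]
  simp
  ring

lemma g_re (hA : Adm P Q) {z : Fin n → ℂ} (hz : z ∈ Bn n) :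
    ((eval z Q + eval z P) / (eval z Q - eval z P)).re =
      (1 - ‖fr P Q z‖ ^ 2) / ‖1 - fr P Q z‖ ^ 2 := by
  have hQ : eval z Q ≠ 0 := hA.Qne z (le_of_lt hz)
  rw [← frac_re]
  congr 1
  unfold fr
  have h1 : eval z Q * (1 + eval z P / eval z Q) = eval z Q + eval z P := by field_simp
  have h2 : eval z Q * (1 - eval z P / eval z Q) = eval z Q - eval z P := by field_simp
  rw [← h1, ← h2, mul_div_mul_left _ _ hQ]

lemma fr_lt (hA : Adm P Q) {z : Fin n → ℂ} (hz : z ∈ Bn n) : ‖fr P Q z‖ < 1 := by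
  have hQ : eval z Q ≠ 0 := hA.Qne z (le_of_lt hz)
  unfold fr
  rw [norm_div, div_lt_one (norm_pos_iff.2 hQ)]
  exact hA.lt z hz

lemma Ct_ne (hA : Adm P Q) {z : Fin n → ℂ} (hz : z ∈ Ct P Q) : eval z Q ≠ 0 := hA.Qne z hz.1.le

lemma fr_one (hA : Adm P Q) {z : Fin n → ℂ} (hz : z ∈ Ct P Q) : ‖fr P Q z‖ = 1 := by
  unfold fr
  rw [norm_div, hz.2, div_self (norm_ne_zero_iff.2 (Ct_ne hA hz))]

lemma isCompact_Ct (P Q : MvPolynomial (Fin n) ℂ) : IsCompact (Ct P Q) := by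
  have hc : ∀ p : MvPolynomial (Fin n) ℂ, Continuous fun z : Fin n → ℂ => eval z p := fun p =>
    continuous_iff_continuousAt.2 fun z => (analyticAt_eval p z).continuousAt
  refine Metric.isCompact_of_isClosed_isBounded ?_ ?_
  · have h1 : IsClosed {z : Fin n → ℂ | ∑ i, ‖z i‖ ^ 2 = 1} :=
      isClosed_eq (by fun_prop) continuous_const
    have h2 : IsClosed {z : Fin n → ℂ | ‖eval z P‖ = ‖eval z Q‖} :=
      isClosed_eq (hc P).norm (hc Q).norm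
    exact h1.inter h2
  · refine (isBounded_iff_forall_norm_le).2 ⟨1, fun z hz => ?_⟩
    refine (pi_norm_le_iff_of_nonneg zero_le_one).2 fun i => ?_
    have h1 : ‖z i‖ ^ 2 ≤ ∑ i, ‖z i‖ ^ 2 :=
      Finset.single_le_sum (f := fun i => ‖z i‖ ^ 2) (fun _ _ => by positivity) (Finset.mem_univ i)
    rw [hz.1] at h1
    nlinarith [norm_nonneg (z i)]

/-- radial segments stay in the ball -/
lemma radial_mem {m : Fin n → ℂ} (hm : m ∈ Ct P Q) :
    ∀ᶠ t : ℝ in 𝓝[>] 0, (1 - (t : ℂ)) • m ∈ Bn n := by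
  have h1 : ∀ᶠ t : ℝ in 𝓝[>] 0, t < 1 := mem_nhdsWithin_of_mem_nhds (gt_mem_nhds one_pos)
  filter_upwards [self_mem_nhdsWithin, h1] with t h2 h3
  have h2' : 0 < t := h2
  have h4 : ∑ i, ‖((1 - (t : ℂ)) • m) i‖ ^ 2 = (1 - t) ^ 2 * ∑ i, ‖m i‖ ^ 2 := by
    rw [Finset.mul_sum]
    refine Finset.sum_congr rfl fun i _ => ?_
    have h5 : ‖(1 - (t : ℂ))‖ = 1 - t := by
      have : (1 - (t : ℂ)) = ((1 - t : ℝ) : ℂ) := by push_cast; ring
      rw [this, Complex.norm_real, Real.norm_of_nonneg (by linarith)]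
    rw [Pi.smul_apply, smul_eq_mul, norm_mul, h5, mul_pow]
  show ∑ i, ‖((1 - (t : ℂ)) • m) i‖ ^ 2 < 1
  rw [h4, hm.1]
  nlinarith

lemma hasDerivAt_radial {h : (Fin n → ℂ) → ℂ} {m : Fin n → ℂ} {t : ℝ}
    (hh : DifferentiableAt ℂ h ((1 - (t : ℂ)) • m)) :
    HasDerivAt (fun s : ℝ => h ((1 - (s : ℂ)) • m))
      (fderiv ℂ h ((1 - (t : ℂ)) • m) (-m)) t := by
  have h1 : HasDerivAt (fun s : ℝ => (1 - (s : ℂ)) • m) (-m) t := by
    have h2 : HasDerivAt (fun s : ℝ => (1 - (s : ℂ))) (-1) t := by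
      simpa using (Complex.ofRealCLM.hasDerivAt (x := t)).const_sub 1
    have h3 := h2.smul_const m
    simpa using h3
  have h2 := (hh.hasFDerivAt.restrictScalars ℝ).comp_hasDerivAt t h1
  exact h2

/-- gluing for a function with `dk ∧ df = 0` -/
lemma glue_k (hLEAF : LEAF) (hLIFT : LIFT) (hRAD : RADIAL) (hA : Adm P Q) (hD : Dual P Q)
    (hconn : IsConnected {z : Fin n → ℂ | ∑ i, ‖z i‖ ^ 2 = 1 ∧ eval z P = eval z Q})
    {k : (Fin n → ℂ) → ℂ} (hk : DifferentiableOn ℂ k (Bn n)) (hW : Wedge P Q k) :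
    (∀ c : ℂ, ‖c‖ = 1 → ∃ x ∈ Ct P Q, fr P Q x = c) ∧
    ∃ δ : ℝ, 0 < δ ∧ δ < 1 ∧ ∃ K : ℂ → ℂ, DifferentiableOn ℂ K {w | 1 - δ < ‖w‖ ∧ ‖w‖ < 1} ∧
      ∀ x ∈ Ct P Q, ∀ᶠ t : ℝ in 𝓝[>] 0,
        k ((1 - (t : ℂ)) • x) = K (fr P Q ((1 - (t : ℂ)) • x)) := by
  have hcomp : CompactSpace (Ct P Q) := isCompact_iff_compactSpace.1 (isCompact_Ct P Q)
  have hcont : Continuous fun x : Ct P Q => fr P Q x.1 := by
    refine continuous_iff_continuousAt.2 fun x => ?_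
    exact (analyticAt_fr P Q x.1 (Ct_ne hA x.2)).continuousAt.comp continuous_subtype_val.continuousAt
  have hconn' : IsConnected ((fun x : Ct P Q => fr P Q x.1) ⁻¹' {1}) := by
    have himg : (Subtype.val : Ct P Q → Fin n → ℂ) '' ((fun x : Ct P Q => fr P Q x.1) ⁻¹' {1}) =
        {z : Fin n → ℂ | ∑ i, ‖z i‖ ^ 2 = 1 ∧ eval z P = eval z Q} := by
      ext z
      constructor
      · rintro ⟨x, hx, rfl⟩
        have hx' : fr P Q x.1 = 1 := hx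
        refine ⟨x.2.1, ?_⟩
        unfold fr at hx'
        rwa [div_eq_one_iff_eq (Ct_ne hA x.2)] at hx'
      · rintro ⟨h1, h2⟩
        have hz : z ∈ Ct P Q := ⟨h1, by rw [h2]⟩
        refine ⟨⟨z, hz⟩, ?_, rfl⟩
        show fr P Q z = 1
        unfold fr
        rw [div_eq_one_iff_eq (Ct_ne hA hz)]
        exact h2
    refine ⟨?_, ?_⟩
    · obtain ⟨z, hz⟩ := hconn.nonempty
      rw [← himg] at hz
      obtain ⟨x, hx, -⟩ := hz
      exact ⟨x, hx⟩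
    · rw [← IsInducing.subtypeVal.isPreconnected_image, himg]
      exact hconn.isPreconnected
  have h := glue (Ct P Q) (fun x => fr P Q x.1) (fun x t => fr P Q ((1 - (t : ℂ)) • x.1))
    (fun x t => k ((1 - (t : ℂ)) • x.1)) hcont (fun x => fr_one hA x.2)
    (fun x => (hRAD n P Q hA x.1 x.2).1) (fun x => (hRAD n P Q hA x.1 x.2).2)
    (by
      intro x
      obtain ⟨δ, hδ, L, hL, h1, -, -⟩ := hLEAF n P Q hA hD k hk hW x.1 x.2
      exact ⟨δ, hδ, L, hL, fun y hy => h1 y.1 y.2 hy⟩)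
    (by
      intro x ε hε
      obtain ⟨δ, hδ, h1⟩ := hLIFT n P Q hA hD x.1 x.2 ε hε
      refine ⟨δ, hδ, fun c hc hd => ?_⟩
      obtain ⟨y, hy1, hy2, hy3⟩ := h1 c hc hd
      exact ⟨⟨y, hy1⟩, hy2, hy3⟩)
    hconn'
  obtain ⟨hs, δ, hδ0, hδ1, K, hK, hKk⟩ := h
  refine ⟨fun c hc => ?_, δ, hδ0, hδ1, K, hK, fun x hx => hKk ⟨x, hx⟩⟩
  obtain ⟨x, hx⟩ := hs c hc
  exact ⟨x.1, x.2, hx⟩

lemma ball_sub_ann {c : ℂ} (hc : ‖c‖ = 1) {δ : ℝ} {w : ℂ} (hw : w ∈ ball c δ ∩ ball 0 1) :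
    1 - δ < ‖w‖ ∧ ‖w‖ < 1 := by
  refine ⟨?_, mem_ball_zero_iff.1 hw.2⟩
  have h1 : dist w c < δ := hw.1
  rw [dist_eq_norm] at h1
  have h2 : ‖c‖ - ‖w‖ ≤ ‖w - c‖ := by
    rw [norm_sub_rev]
    exact norm_sub_norm_le c w
  rw [hc] at h2
  linarith

/-- the primitives of the moments -/
lemma deriv_H (hRAD : RADIAL) (hA : Adm P Q)
    (hsurj : ∀ c : ℂ, ‖c‖ = 1 → ∃ x ∈ Ct P Q, fr P Q x = c)
    {k h : (Fin n → ℂ) → ℂ} (hh : DifferentiableOn ℂ h (Bn n))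
    (j : ℕ) (hhk : ∀ z ∈ Bn n, fderiv ℂ h z = (k z * fr P Q z ^ j) • fderiv ℂ (fr P Q) z)
    {δ : ℝ} (hδ : 0 < δ) {K H : ℂ → ℂ}
    (hK : DifferentiableOn ℂ K {w | 1 - δ < ‖w‖ ∧ ‖w‖ < 1})
    (hH : DifferentiableOn ℂ H {w | 1 - δ < ‖w‖ ∧ ‖w‖ < 1})
    (hKk : ∀ x ∈ Ct P Q, ∀ᶠ t : ℝ in 𝓝[>] 0,
        k ((1 - (t : ℂ)) • x) = K (fr P Q ((1 - (t : ℂ)) • x)))
    (hHh : ∀ x ∈ Ct P Q, ∀ᶠ t : ℝ in 𝓝[>] 0,
        h ((1 - (t : ℂ)) • x) = H (fr P Q ((1 - (t : ℂ)) • x))) :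
    ∀ w : ℂ, 1 - δ < ‖w‖ → ‖w‖ < 1 → w ≠ 0 → HasDerivAt H (K w * w ^ j) w := by
  intro w hw1 hw2 hw0
  have hopA : IsOpen {w : ℂ | 1 - δ < ‖w‖ ∧ ‖w‖ < 1} :=
    (isOpen_lt continuous_const continuous_norm).inter (isOpen_lt continuous_norm continuous_const)
  have hHd : ∀ w : ℂ, 1 - δ < ‖w‖ → ‖w‖ < 1 → DifferentiableAt ℂ H w := fun w h1 h2 =>
    (hH w ⟨h1, h2⟩).differentiableAt (hopA.mem_nhds ⟨h1, h2⟩)
  have h0 : (‖w‖ : ℂ) ≠ 0 := by exact_mod_cast norm_ne_zero_iff.2 hw0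
  have hc : ‖w / (‖w‖ : ℂ)‖ = 1 := by
    rw [norm_div, Complex.norm_real, norm_norm, div_self (norm_ne_zero_iff.2 hw0)]
  obtain ⟨x, hx, hxc⟩ := hsurj _ hc
  have hsub : ball (fr P Q x) δ ∩ ball 0 1 ⊆ {w : ℂ | 1 - δ < ‖w‖ ∧ ‖w‖ < 1} := fun w hw =>
    ball_sub_ann (fr_one hA hx) hw
  have hE : EqOn (deriv H) (fun w => K w * w ^ j) (ball (fr P Q x) δ ∩ ball 0 1) := by
    refine uniq (fr P Q x) δ (fun t => fr P Q ((1 - (t : ℂ)) • x)) (deriv H)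
      (fun w => K w * w ^ j) (fr_one hA hx) hδ (hRAD n P Q hA x hx).1 (hRAD n P Q hA x hx).2
      (ball (fr P Q x) δ ∩ ball 0 1) ((convex_ball _ _).inter (convex_ball _ _))
      (isOpen_ball.inter isOpen_ball) subset_rfl ?_ ?_ ?_
    · exact (hH.mono hsub).deriv (isOpen_ball.inter isOpen_ball)
    · exact (hK.mono hsub).mul (differentiableOn_id.pow j)
    · have e1 : ∀ᶠ t : ℝ in 𝓝[>] 0, 1 - δ < ‖fr P Q ((1 - (t : ℂ)) • x)‖ := by
        have h1 : Tendsto (fun t : ℝ => ‖fr P Q ((1 - (t : ℂ)) • x)‖) (𝓝[>] 0)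
          (𝓝 ‖fr P Q x‖) := (hRAD n P Q hA x hx).1.norm
        rw [fr_one hA hx] at h1
        exact h1 (lt_mem_nhds (by linarith))
      filter_upwards [e1, (hRAD n P Q hA x hx).2, hKk x hx, ev_ev (hHh x hx), radial_mem hx]
        with t h1 h2 h3 h4 h5
      obtain ⟨h6, d, hd, hder⟩ := h2
      have hz := (isOpen_Bn n).mem_nhds h5
      have d1 := hasDerivAt_radial ((hh _ h5).differentiableAt hz)
      have d2 := hasDerivAt_radial (h := fr P Q)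
        (analyticAt_fr P Q _ (hA.Qne _ (le_of_lt h5))).differentiableAt
      have hd2 := d2.unique hder
      have d3 : HasDerivAt (fun s : ℝ => H (fr P Q ((1 - (s : ℂ)) • x)))
          (deriv H (fr P Q ((1 - (t : ℂ)) • x)) * d) t := by
        have h8 := (hHd _ h1 h6).hasDerivAt.scomp t hder
        rw [smul_eq_mul, mul_comm] at h8
        exact h8
      have d4 : HasDerivAt (fun s : ℝ => h ((1 - (s : ℂ)) • x))
          (deriv H (fr P Q ((1 - (t : ℂ)) • x)) * d) t :=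
        d3.congr_of_eventuallyEq h4
      have h7 := d1.unique d4
      rw [hhk _ h5, smul_apply, hd2, smul_eq_mul, h3] at h7
      exact (mul_right_cancel₀ hd h7).symm
  have hwm : w ∈ ball (fr P Q x) δ ∩ ball 0 1 := by
    refine ⟨?_, mem_ball_zero_iff.2 hw2⟩
    rw [mem_ball, hxc]
    have h1 : w - w / ‖w‖ = -((1 - ‖w‖ : ℝ) : ℂ) * (w / ‖w‖) := by
      push_cast
      field_simp
      ring
    rw [dist_eq_norm, h1, norm_mul, hc, norm_neg, Complex.norm_real, mul_one,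
      Real.norm_of_nonneg (by linarith)]
    linarith
  have := hE hwm
  simp only at this
  rw [← this]
  exact (hHd w hw1 hw2).hasDerivAt


/-- identity theorem on the ball along complex lines -/
lemma eq_on_ball {k k' : (Fin n → ℂ) → ℂ} (hk : DifferentiableOn ℂ k (Bn n))
    (hk' : DifferentiableOn ℂ k' (Bn n)) {V : Set (Fin n → ℂ)} (hV : IsOpen V) (hne : V.Nonempty)
    (hVB : V ⊆ Bn n) (h : ∀ z ∈ V, k z = k' z) : ∀ z ∈ Bn n, k z = k' z := by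
  intro z hz
  obtain ⟨z₀, hz₀⟩ := hne
  set a : ℂ → (Fin n → ℂ) := fun l => z₀ + l • (z - z₀) with ha
  have had : ∀ l, DifferentiableAt ℂ a l := fun l => by
    rw [ha]
    fun_prop
  have hac : Continuous a := continuous_iff_continuousAt.2 fun l => (had l).continuousAt
  have hU : IsOpen (a ⁻¹' Bn n) := (isOpen_Bn n).preimage hac
  have hUc : Convex ℝ (a ⁻¹' Bn n) := by
    intro x hx y hy s t hs ht hst
    have h1 : a (s • x + t • y) = s • a x + t • a y := by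
      have h2 : (s : ℂ) + (t : ℂ) = 1 := by exact_mod_cast hst
      funext i
      simp only [ha, Pi.add_apply, Pi.smul_apply, smul_eq_mul, Pi.sub_apply, Complex.real_smul]
      linear_combination (-(z₀ i)) * h2
    show a (s • x + t • y) ∈ Bn n
    rw [h1]
    exact convex_Bn n hx hy hs ht hst
  have e1 : DifferentiableOn ℂ (fun l => k (a l)) (a ⁻¹' Bn n) := fun l hl =>
    (((hk _ hl).differentiableAt ((isOpen_Bn n).mem_nhds hl)).comp l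
      (had l)).differentiableWithinAt
  have e2 : DifferentiableOn ℂ (fun l => k' (a l)) (a ⁻¹' Bn n) := fun l hl =>
    (((hk' _ hl).differentiableAt ((isOpen_Bn n).mem_nhds hl)).comp l
      (had l)).differentiableWithinAt
  have h0 : a 0 = z₀ := by simp [ha]
  have h1 : a 1 = z := by simp [ha]
  have h2 : (fun l => k (a l)) =ᶠ[𝓝 0] fun l => k' (a l) := by
    have h3 : a ⁻¹' V ∈ 𝓝 (0 : ℂ) := (hV.preimage hac).mem_nhds (by
      show a 0 ∈ V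
      rw [h0]; exact hz₀)
    filter_upwards [h3] with l hl
    exact h _ hl
  have h3 := (e1.analyticOnNhd hU).eqOn_of_preconnected_of_eventuallyEq (e2.analyticOnNhd hU)
    hUc.isPreconnected (show (0 : ℂ) ∈ a ⁻¹' Bn n from (by
      show a 0 ∈ Bn n
      rw [h0]; exact hVB hz₀)) h2
  have h4 := h3 (show (1 : ℂ) ∈ a ⁻¹' Bn n from (by
      show a 1 ∈ Bn n
      rw [h1]; exact hz))
  simp only [h1] at h4
  exact h4

/-- **The global block.** -/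
theorem glob (hLEAF : LEAF) (hLIFT : LIFT) (hRAD : RADIAL) (hA : Adm P Q) (hD : Dual P Q)
    (hconn : IsConnected {z : Fin n → ℂ | ∑ i, ‖z i‖ ^ 2 = 1 ∧ eval z P = eval z Q})
    {k : (Fin n → ℂ) → ℂ} (hk : DifferentiableOn ℂ k (Bn n)) (hk0 : k 0 = 0)
    (hb : ∀ z ∈ Bn n, |(k z).re| ≤ ((eval z Q + eval z P) / (eval z Q - eval z P)).re)
    (hW : Wedge P Q k) : ∀ z ∈ Bn n, k z = 0 := by
  obtain ⟨hsurj, δ, hδ0, hδ1, K, hK, hKk⟩ := glue_k hLEAF hLIFT hRAD hA hD hconn hk hW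
  have hloc : ∀ x : Ct P Q, ∃ ε, 0 < ε ∧ ∀ w ∈ ball (fr P Q x.1) ε ∩ ball 0 1,
      ∃ z ∈ Bn n, fr P Q z = w ∧ k z = K w := by
    intro x
    obtain ⟨δ', hδ', L, hL, h1, h2, -⟩ := hLEAF n P Q hA hD k hk hW x.1 x.2
    have hsub1 : ball (fr P Q x.1) (min δ' δ) ∩ ball 0 1 ⊆ ball (fr P Q x.1) δ' ∩ ball 0 1 :=
      fun w hw => ⟨ball_subset_ball (min_le_left _ _) hw.1, hw.2⟩
    have hsub2 : ball (fr P Q x.1) (min δ' δ) ∩ ball 0 1 ⊆ {w : ℂ | 1 - δ < ‖w‖ ∧ ‖w‖ < 1} :=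
      fun w hw => ball_sub_ann (fr_one hA x.2) ⟨ball_subset_ball (min_le_right _ _) hw.1, hw.2⟩
    have hE : EqOn K L (ball (fr P Q x.1) (min δ' δ) ∩ ball 0 1) := by
      refine uniq (fr P Q x.1) (min δ' δ) (fun t => fr P Q ((1 - (t : ℂ)) • x.1)) K L
        (fr_one hA x.2) (lt_min hδ' hδ0) (hRAD n P Q hA x.1 x.2).1 (hRAD n P Q hA x.1 x.2).2
        _ ((convex_ball _ _).inter (convex_ball _ _))
        (isOpen_ball.inter isOpen_ball) subset_rfl (hK.mono hsub2) (hL.mono hsub1) ?_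
      filter_upwards [hKk x.1 x.2, h1 x.1 x.2 (by rw [dist_self]; exact hδ')] with t h3 h4
      exact h3.symm.trans h4
    refine ⟨min δ' δ, lt_min hδ' hδ0, fun w hw => ?_⟩
    obtain ⟨z, hz, h3, h4⟩ := h2 w (hsub1 hw)
    exact ⟨z, hz, h3, h4.trans (hE hw).symm⟩
  choose ε hε hεw using hloc
  obtain ⟨ε₀, hε₀, hleb⟩ := lebesgue_number_lemma_of_metric (s := sphere (0 : ℂ) 1)
    (c := fun x : Ct P Q => ball (fr P Q x.1) (ε x)) (isCompact_sphere 0 1) (fun _ => isOpen_ball)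
    (by
      intro c hc
      rw [mem_sphere_zero_iff_norm] at hc
      obtain ⟨x, hx, hxc⟩ := hsurj c hc
      refine mem_iUnion.2 ⟨⟨x, hx⟩, ?_⟩
      show c ∈ ball (fr P Q x) (ε ⟨x, hx⟩)
      rw [hxc]
      exact mem_ball_self (hε _))
  set r := 1 - min (min ε₀ δ) (1 / 2) with hr
  have hr1 : r < 1 := by
    have : 0 < min (min ε₀ δ) (1 / 2) := lt_min (lt_min hε₀ hδ0) (by norm_num)
    linarith
  have hr0 : 0 < r := by
    have : min (min ε₀ δ) (1 / 2) ≤ 1 / 2 := min_le_right _ _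
    linarith
  have hrε : 1 - r ≤ ε₀ := by
    have : min (min ε₀ δ) (1 / 2) ≤ ε₀ := (min_le_left _ _).trans (min_le_left _ _)
    linarith
  have hrδ : 1 - δ ≤ r := by
    have : min (min ε₀ δ) (1 / 2) ≤ δ := (min_le_left _ _).trans (min_le_right _ _)
    linarith
  have hKA : DifferentiableOn ℂ K (Ann r) := hK.mono fun w hw => ⟨hrδ.trans_lt hw.1, hw.2⟩
  have hbA : ∀ w ∈ Ann r, |(K w).re| ≤ 1 * (1 - ‖w‖ ^ 2) / ‖1 - w‖ ^ 2 := by
    intro w hw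
    have hw0 : w ≠ 0 := by
      rintro rfl
      have := hw.1
      rw [norm_zero] at this
      linarith
    have h0 : (‖w‖ : ℂ) ≠ 0 := by exact_mod_cast norm_ne_zero_iff.2 hw0
    have hc : ‖w / (‖w‖ : ℂ)‖ = 1 := by
      rw [norm_div, Complex.norm_real, norm_norm, div_self (norm_ne_zero_iff.2 hw0)]
    obtain ⟨x, hx⟩ := hleb _ (mem_sphere_zero_iff_norm.2 hc)
    have h1 : w - w / ‖w‖ = -((1 - ‖w‖ : ℝ) : ℂ) * (w / ‖w‖) := by
      push_cast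
      field_simp
      ring
    have h2 : dist w (w / ‖w‖) < ε₀ := by
      rw [dist_eq_norm, h1, norm_mul, hc, norm_neg, Complex.norm_real, mul_one,
        Real.norm_of_nonneg (by linarith [hw.2])]
      linarith [hw.1]
    obtain ⟨z, hz, h3, h4⟩ := hεw x w ⟨hx h2, mem_ball_zero_iff.2 hw.2⟩
    have h5 := hb z hz
    rw [g_re hA hz, h3, h4] at h5
    rwa [one_mul]
  have hper : ∀ j : ℕ, ∃ ρ, r < ρ ∧ ρ < 1 ∧ (∮ w in C(0, ρ), K w * w ^ j) = 0 := by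
    intro j
    obtain ⟨h, hh, hhW, hhk⟩ := poinc n P Q hA k hk hW j
    obtain ⟨-, δ', hδ'0, hδ'1, H, hH, hHh⟩ := glue_k hLEAF hLIFT hRAD hA hD hconn hh hhW
    have hsubK : {w : ℂ | 1 - min δ δ' < ‖w‖ ∧ ‖w‖ < 1} ⊆ {w : ℂ | 1 - δ < ‖w‖ ∧ ‖w‖ < 1} :=
      fun w hw => ⟨by linarith [hw.1, min_le_left δ δ'], hw.2⟩
    have hsubH : {w : ℂ | 1 - min δ δ' < ‖w‖ ∧ ‖w‖ < 1} ⊆ {w : ℂ | 1 - δ' < ‖w‖ ∧ ‖w‖ < 1} :=
      fun w hw => ⟨by linarith [hw.1, min_le_right δ δ'], hw.2⟩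
    have hder := deriv_H hRAD hA hsurj hh j hhk (lt_min hδ0 hδ'0) (hK.mono hsubK)
      (hH.mono hsubH) hKk hHh
    obtain ⟨ρ, hρ1, hρ2⟩ := exists_between (show max r (1 - min δ δ') < 1 from
      max_lt hr1 (by linarith [lt_min hδ0 hδ'0]))
    refine ⟨ρ, (le_max_left _ _).trans_lt hρ1, hρ2, ?_⟩
    have hρ0 : 0 < ρ := hr0.trans ((le_max_left _ _).trans_lt hρ1)
    refine circleIntegral.integral_eq_zero_of_hasDerivWithinAt hρ0.le (f := H) fun w hw => ?_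
    rw [mem_sphere_zero_iff_norm] at hw
    refine (hder w ?_ ?_ ?_).hasDerivWithinAt
    · rw [hw]
      exact (le_max_right _ _).trans_lt hρ1
    · rw [hw]
      exact hρ2
    · rintro rfl
      rw [norm_zero] at hw
      linarith
  obtain ⟨κ, hκ⟩ := end_step' hr0 hr1 hKA hbA hper
  set G : ℂ → ℂ := fun w => κ + 2 * (κ.re : ℂ) * w / (1 - w) with hG
  have hGd : ∀ w : ℂ, ‖w‖ < 1 → DifferentiableAt ℂ G w := by
    intro w hw
    have hne : 1 - w ≠ 0 := by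
      intro h
      rw [sub_eq_zero] at h
      rw [← h, norm_one] at hw
      exact lt_irrefl _ hw
    have h1 : DifferentiableAt ℂ (fun w : ℂ => (1 - w)⁻¹) w :=
      (differentiableAt_id.const_sub 1).fun_inv hne
    have h2 : G = fun w => κ + 2 * (κ.re : ℂ) * w * (1 - w)⁻¹ := by
      funext w
      show κ + 2 * (κ.re : ℂ) * w / (1 - w) = _
      rw [div_eq_mul_inv]
    rw [h2]
    exact ((differentiableAt_id.const_mul _).mul h1).const_add _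
  obtain ⟨x, hx, -⟩ := hsurj 1 norm_one
  obtain ⟨δ', hδ', L, hL, h1, -, V, hV, hVne, hVB, hVk⟩ := hLEAF n P Q hA hD k hk hW x hx
  have hLG : EqOn L G (ball (fr P Q x) δ' ∩ ball 0 1) := by
    refine uniq (fr P Q x) δ' (fun t => fr P Q ((1 - (t : ℂ)) • x)) L G
      (fr_one hA hx) hδ' (hRAD n P Q hA x hx).1 (hRAD n P Q hA x hx).2
      _ ((convex_ball _ _).inter (convex_ball _ _))
      (isOpen_ball.inter isOpen_ball) subset_rfl hL
      (fun w hw => (hGd w (mem_ball_zero_iff.1 hw.2)).differentiableWithinAt) ?_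
    have e1 : ∀ᶠ t : ℝ in 𝓝[>] 0, r < ‖fr P Q ((1 - (t : ℂ)) • x)‖ := by
      have h1 : Tendsto (fun t : ℝ => ‖fr P Q ((1 - (t : ℂ)) • x)‖) (𝓝[>] 0)
        (𝓝 ‖fr P Q x‖) := (hRAD n P Q hA x hx).1.norm
      rw [fr_one hA hx] at h1
      exact h1 (lt_mem_nhds hr1)
    filter_upwards [hKk x hx, h1 x hx (by rw [dist_self]; exact hδ'), e1,
      (hRAD n P Q hA x hx).2] with t h3 h4 h5 h6
    rw [← h4, h3]
    exact hκ _ ⟨h5, h6.1⟩
  have hfin := eq_on_ball hk (k' := fun z => G (fr P Q z)) (fun z hz =>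
    ((hGd _ (fr_lt hA hz)).comp z
      (analyticAt_fr P Q z (hA.Qne z (le_of_lt hz))).differentiableAt).differentiableWithinAt)
    hV hVne hVB (fun z hz => by
      rw [(hVk z hz).2]
      exact hLG ⟨(hVk z hz).1, mem_ball_zero_iff.2 (fr_lt hA (hVB hz))⟩)
  have h0B : (0 : Fin n → ℂ) ∈ Bn n := by
    show ∑ i, ‖(0 : Fin n → ℂ) i‖ ^ 2 < 1
    simp
  have hκ0 : κ = 0 := by
    have h2 := hfin 0 h0B
    have h3 : fr P Q 0 = 0 := by
      unfold fr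
      rw [hA.zero, zero_div]
    simp only [h3] at h2
    rw [hk0] at h2
    have h4 : G 0 = κ := by simp [hG]
    rw [h4] at h2
    exact h2.symm
  intro z hz
  rw [hfin z hz]
  simp [hG, hκ0]

end

end

end Pool.Agent.Lib.MP_6ff8d9_an.Rat.H82
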