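import Pool.Agent.Lib.MP_6ff8d9_an_h82.RowsL
import Pool.Agent.Lib.MP_6ff8d9_an_h82.Glob

/-!
# MP_6ff8d9, THEOREM L, row FIBC: functions with `dk ∧ dF = 0` are locally constant on level sets
-/

open Metric Filter Topology Set

namespace Pool.Agent.Lib.MP_6ff8d9_an.H82L

open Pool.Agent.Lib.MP_6ff8d9_an Pool.Agent.Lib.MP_6ff8d9_an.H22
open Pool.Agent.Lib.MP_6ff8d9_an.H22.Poinc

noncomputable section

/-- numbers with vanishing power sums vanish -/
lemma newt {m : ℕ} (b : Fin m → ℂ) (h : ∀ j, 1 ≤ j → j ≤ m → ∑ i, b i ^ j = 0) (i : Fin m) :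
    b i = 0 := by
  classical
  by_contra hne
  set a := b i with ha
  set s : Finset ℂ := ((Finset.univ.image b).erase a).erase 0 with hs
  have has : a ∉ s := fun h' => (Finset.notMem_erase a _) (Finset.mem_of_mem_erase h')
  have hcard : s.card + 1 ≤ m := by
    have h1 : insert a s ⊆ Finset.univ.image b := by
      intro c hc
      rcases Finset.mem_insert.1 hc with h' | h'
      · rw [h', ha]
        exact Finset.mem_image_of_mem b (Finset.mem_univ i)
      · exact Finset.mem_of_mem_erase (Finset.mem_of_mem_erase h')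
    have h2 := Finset.card_le_card h1
    rw [Finset.card_insert_of_notMem has] at h2
    exact h2.trans (Finset.card_image_le.trans (by simp))
  set φ : Polynomial ℂ := Polynomial.X * ∏ c ∈ s, (Polynomial.X - Polynomial.C c) with hφ
  have hdeg : φ.natDegree < m + 1 := by
    have h1 : φ.natDegree ≤ 1 + s.card := by
      rw [hφ]
      refine Polynomial.natDegree_mul_le.trans (add_le_add Polynomial.natDegree_X_le ?_)
      refine (Polynomial.natDegree_prod_le _ _).trans ?_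
      refine (Finset.sum_le_card_nsmul _ _ 1 fun c _ => Polynomial.natDegree_X_sub_C_le c).trans ?_
      simp
    omega
  have hev : ∀ x, φ.eval x = x * ∏ c ∈ s, (x - c) := by
    intro x
    rw [hφ, Polynomial.eval_mul, Polynomial.eval_X, Polynomial.eval_prod]
    simp
  have hc0 : φ.coeff 0 = 0 := by
    rw [Polynomial.coeff_zero_eq_eval_zero, hev, zero_mul]
  have h1 : ∑ l, φ.eval (b l) = 0 := by
    have h2 : ∀ l, φ.eval (b l) = ∑ j ∈ Finset.range (m + 1), φ.coeff j * b l ^ j := fun l =>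
      Polynomial.eval_eq_sum_range' hdeg (b l)
    rw [Finset.sum_congr rfl fun l _ => h2 l, Finset.sum_comm]
    refine Finset.sum_eq_zero fun j hj => ?_
    rw [← Finset.mul_sum]
    rcases Nat.eq_zero_or_pos j with h3 | h3
    · rw [h3, hc0, zero_mul]
    · rw [h j h3 (by have := Finset.mem_range.1 hj; omega), mul_zero]
  have hval : ∀ l, φ.eval (b l) = if b l = a then φ.eval a else 0 := by
    intro l
    split_ifs with h'
    · rw [h']
    · rw [hev]
      by_cases h0 : b l = 0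
      · rw [h0, zero_mul]
      · have h3 : b l ∈ s := Finset.mem_erase.2 ⟨h0, Finset.mem_erase.2 ⟨h',
          Finset.mem_image_of_mem b (Finset.mem_univ l)⟩⟩
        rw [Finset.prod_eq_zero h3 (sub_self _), mul_zero]
  have hφa : φ.eval a ≠ 0 := by
    rw [hev]
    refine mul_ne_zero hne (Finset.prod_ne_zero_iff.2 fun c hc h' => has ?_)
    rw [sub_eq_zero.1 h']
    exact hc
  rw [Finset.sum_congr rfl fun l _ => hval l, Finset.sum_ite, Finset.sum_const_zero, add_zero,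
    Finset.sum_const, nsmul_eq_mul, mul_eq_zero] at h1
  rcases h1 with h1 | h1
  · have h2 : (Finset.univ.filter fun l => b l = a).card = 0 := by exact_mod_cast h1
    rw [Finset.card_eq_zero] at h2
    have h3 : i ∈ Finset.univ.filter fun l => b l = a := Finset.mem_filter.2 ⟨Finset.mem_univ i, rfl⟩
    rw [h2] at h3
    exact Finset.notMem_empty _ h3
  · exact hφa h1

section
variable {n : ℕ}

lemma zero_mem_Bn' : (0 : Fin n → ℂ) ∈ Bn n := by
  show ∑ i, ‖(0 : Fin n → ℂ) i‖ ^ 2 < 1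
  simp

lemma line_cont (z e : Fin n → ℂ) : Continuous fun l : ℂ => z + l • e := by fun_prop

lemma line_diff (z e : Fin n → ℂ) (l : ℂ) :
    HasDerivAt (fun l : ℂ => z + l • e) e l := by
  have h1 := ((hasDerivAt_id l).smul_const e).const_add z
  simpa using h1

lemma line_open (z e : Fin n → ℂ) : IsOpen {l : ℂ | z + l • e ∈ Bn n} :=
  (isOpen_Bn n).preimage (line_cont z e)

lemma comp_line {h : (Fin n → ℂ) → ℂ} (hh : DifferentiableOn ℂ h (Bn n)) (z e : Fin n → ℂ) {l : ℂ}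
    (hl : z + l • e ∈ Bn n) :
    HasDerivAt (fun l : ℂ => h (z + l • e)) (fderiv ℂ h (z + l • e) e) l :=
  ((hh _ hl).differentiableAt ((isOpen_Bn n).mem_nhds hl)).hasFDerivAt.comp_hasDerivAt l
    (line_diff z e l)

lemma comp_line_on {h : (Fin n → ℂ) → ℂ} (hh : DifferentiableOn ℂ h (Bn n)) (z e : Fin n → ℂ) :
    DifferentiableOn ℂ (fun l : ℂ => h (z + l • e)) {l : ℂ | z + l • e ∈ Bn n} := fun _ hl =>
  (comp_line hh z e hl).differentiableAt.differentiableWithinAt

/-- powers of `k - c` -/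
lemma wdg_pow {F k : (Fin n → ℂ) → ℂ} (hk : DifferentiableOn ℂ k (Bn n)) (hW : Wdg F k) (c : ℂ)
    (j : ℕ) : DifferentiableOn ℂ (fun z => (k z - c) ^ j) (Bn n) ∧
      Wdg F (fun z => (k z - c) ^ j) := by
  refine ⟨(hk.sub_const c).pow j, fun z hz x y => ?_⟩
  have h1 := (hk z hz).differentiableAt ((isOpen_Bn n).mem_nhds hz)
  have h2 : HasFDerivAt (fun z => (k z - c) ^ j)
      ((j * (k z - c) ^ (j - 1)) • fderiv ℂ k z) z := by
    have h3 := (h1.hasFDerivAt.sub_const c).pow j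
    refine h3.congr_fderiv ?_
    ext v
    simp
  rw [h2.fderiv]
  simp only [smul_apply, smul_eq_mul]
  have h4 := hW z hz x y
  linear_combination (j * (k z - c) ^ (j - 1)) * h4

/-- the tube condition -/
lemma tube {z₀ e : Fin n → ℂ} {r : ℝ} (h : ∀ l : ℂ, ‖l‖ ≤ r → z₀ + l • e ∈ Bn n) :
    ∀ᶠ z in 𝓝 z₀, ∀ l : ℂ, ‖l‖ ≤ r → z + l • e ∈ Bn n := by
  have hc : Continuous fun p : (Fin n → ℂ) × ℂ => p.1 + p.2 • e := by fun_prop
  have h1 : ∀ᶠ z in 𝓝 z₀, ∀ l ∈ closedBall (0 : ℂ) r, z + l • e ∈ Bn n := by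
    refine (isCompact_closedBall (0 : ℂ) r).eventually_forall_of_forall_eventually fun l hl => ?_
    have h2 : z₀ + l • e ∈ Bn n := h l (by simpa using hl)
    exact hc.continuousAt.eventually ((isOpen_Bn n).mem_nhds h2)
  filter_upwards [h1] with z hz l hl
  exact hz l (by simpa using hl)

lemma tube_ne {F : (Fin n → ℂ) → ℂ} (hF : DifferentiableOn ℂ F (Bn n)) {z₀ e : Fin n → ℂ} {r : ℝ}
    (h : ∀ l : ℂ, ‖l‖ ≤ r → z₀ + l • e ∈ Bn n) (hne : ∀ l : ℂ, ‖l‖ = r → F (z₀ + l • e) ≠ F z₀) :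
    ∀ᶠ z in 𝓝 z₀, ∀ l : ℂ, ‖l‖ = r → F (z + l • e) ≠ F z₀ := by
  have hc : Continuous fun p : (Fin n → ℂ) × ℂ => p.1 + p.2 • e := by fun_prop
  have h1 : ∀ᶠ z in 𝓝 z₀, ∀ l ∈ sphere (0 : ℂ) r, F (z + l • e) ≠ F z₀ := by
    refine (isCompact_sphere (0 : ℂ) r).eventually_forall_of_forall_eventually fun l hl => ?_
    have hl' : ‖l‖ = r := by simpa using hl
    have h2 : z₀ + l • e ∈ Bn n := h l hl'.le
    have h3 : ContinuousAt F (z₀ + l • e) :=
      ((hF _ h2).differentiableAt ((isOpen_Bn n).mem_nhds h2)).continuousAt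
    have h4 : ContinuousAt (fun p : (Fin n → ℂ) × ℂ => F (p.1 + p.2 • e)) (z₀, l) :=
      ContinuousAt.comp (g := F) (f := fun p : (Fin n → ℂ) × ℂ => p.1 + p.2 • e) h3
        hc.continuousAt
    exact h4.eventually_ne (hne l hl')
  filter_upwards [h1] with z hz l hl
  exact hz l (by simpa using hl)

/-- the sum over the roots -/
lemma sum_roots (hR : RESD) (hS : SCONST) {F k : (Fin n → ℂ) → ℂ}
    (hF : DifferentiableOn ℂ F (Bn n)) (hk : DifferentiableOn ℂ k (Bn n)) (hW : Wdg F k)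
    {z₀ e : Fin n → ℂ} {r : ℝ} (hr : 0 < r)
    (hin : ∀ l : ℂ, ‖l‖ ≤ r → z₀ + l • e ∈ Bn n)
    (hne : ∀ l : ℂ, ‖l‖ ≤ r → l ≠ 0 → F (z₀ + l • e) ≠ F z₀) :
    ∀ᶠ z in 𝓝 z₀, F z = F z₀ → k z = k z₀ := by
  have hne' : ∀ l : ℂ, ‖l‖ = r → F (z₀ + l • e) ≠ F z₀ := fun l hl => hne l hl.le (by
    rintro rfl
    rw [norm_zero] at hl
    linarith)
  -- the roots on the line through `z`
  have key : ∀ z, (∀ l : ℂ, ‖l‖ ≤ r → z + l • e ∈ Bn n) →
      (∀ l : ℂ, ‖l‖ = r → F (z + l • e) ≠ F z₀) →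
      ∃ (N : ℕ) (p : Fin N → ℂ), (∀ i, p i ∈ ball 0 r) ∧ (∀ i, F (z + p i • e) = F z₀) ∧
        (F z = F z₀ → ∃ i, p i = 0) ∧ ∀ h : (Fin n → ℂ) → ℂ, DifferentiableOn ℂ h (Bn n) →
        (∮ l in C(0, r), h (z + l • e) * (fderiv ℂ F (z + l • e) e / (F (z + l • e) - F z₀))) =
        2 * Real.pi * Complex.I * ∑ i, h (z + p i • e) := by
    intro z hz1 hz2
    obtain ⟨N, p, h1, h2, h3, h4⟩ := hR r {l : ℂ | z + l • e ∈ Bn n}
      (fun l => F (z + l • e) - F z₀) hr (line_open z e) (fun l hl => hz1 l (by simpa using hl))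
      ((comp_line_on hF z e).sub_const _) (fun l hl => sub_ne_zero.2 (hz2 l (by simpa using hl)))
    refine ⟨N, p, h1, fun i => sub_eq_zero.1 (h2 i), fun h => h3 0 (by simpa using hr.le) ?_,
      fun h hh => ?_⟩
    · simp [h]
    · rw [← h4 (fun l => h (z + l • e)) (comp_line_on hh z e)]
      refine circleIntegral.integral_congr hr.le fun l hl => ?_
      have hl' : z + l • e ∈ Bn n := hz1 l (by
        have : ‖l‖ = r := by simpa using hl
        exact this.le)
      have h5 : deriv (fun l => F (z + l • e) - F z₀) l = fderiv ℂ F (z + l • e) e :=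
        ((comp_line hF z e hl').sub_const _).deriv
      simp only [h5]
  obtain ⟨m, q, hq1, hq2, -, hq4⟩ := key z₀ hin hne'
  have hq0 : ∀ i, q i = 0 := by
    intro i
    by_contra h
    have h1 : ‖q i‖ ≤ r := by
      have := hq1 i
      rw [mem_ball_zero_iff] at this
      exact this.le
    exact hne _ h1 h (hq2 i)
  -- all the sums agree
  have hall : ∀ᶠ z in 𝓝 z₀, ∀ j ∈ Finset.range (m + 1),
      (∮ l in C(0, r), (k (z + l • e) - k z₀) ^ j *
        (fderiv ℂ F (z + l • e) e / (F (z + l • e) - F z₀))) =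
      ∮ l in C(0, r), (k (z₀ + l • e) - k z₀) ^ j *
        (fderiv ℂ F (z₀ + l • e) e / (F (z₀ + l • e) - F z₀)) := by
    rw [Finset.eventually_all]
    intro j _
    exact hS n F (fun z => (k z - k z₀) ^ j) z₀ e r hF (wdg_pow hk hW _ j).1 (wdg_pow hk hW _ j).2
      hr hin hne'
  filter_upwards [hall, tube hin, tube_ne hF hin hne'] with z hz1 hz2 hz3 hFz
  obtain ⟨N, p, -, -, hp3, hp4⟩ := key z hz2 hz3
  have h2πi : 2 * (Real.pi : ℂ) * Complex.I ≠ 0 := Complex.two_pi_I_ne_zero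
  have hsum : ∀ j ∈ Finset.range (m + 1), ∑ i, (k (z + p i • e) - k z₀) ^ j =
      ∑ _i : Fin m, (0 : ℂ) ^ j := by
    intro j hj
    have h1 := hz1 j hj
    rw [hp4 (fun z => (k z - k z₀) ^ j) (wdg_pow hk hW _ j).1,
      hq4 (fun z => (k z - k z₀) ^ j) (wdg_pow hk hW _ j).1] at h1
    have h2 := mul_left_cancel₀ h2πi h1
    rw [h2]
    refine Finset.sum_congr rfl fun i _ => ?_
    rw [hq0 i, zero_smul, add_zero, sub_self]
  have hN : N = m := by
    have h1 := hsum 0 (by simp)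
    simp at h1
    exact_mod_cast h1
  subst hN
  have hzero := newt (fun i => k (z + p i • e) - k z₀) (fun j hj1 hj2 => by
    rw [hsum j (Finset.mem_range.2 (by omega))]
    simp [zero_pow (show j ≠ 0 by omega)])
  obtain ⟨i, hi⟩ := hp3 hFz
  have h1 := hzero i
  simp only [hi, zero_smul, add_zero] at h1
  exact sub_eq_zero.1 h1

/-- row FIBC -/
theorem fibc (hR : RESD) (hS : SCONST) : FIBC := by
  rintro n F k hF hk hW ⟨z₁, hz₁, hne₁⟩ z₀ hz₀
  obtain ⟨z', hz', hne'⟩ : ∃ z' ∈ Bn n, F z' ≠ F z₀ := by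
    by_cases h : F z₁ = F z₀
    · exact ⟨0, zero_mem_Bn', fun h' => hne₁ (h.trans h'.symm)⟩
    · exact ⟨z₁, hz₁, h⟩
  set e := z' - z₀ with he
  set U : Set ℂ := {l | z₀ + l • e ∈ Bn n} with hU
  have hUo : IsOpen U := line_open z₀ e
  have h0U : (0 : ℂ) ∈ U := by
    show z₀ + (0 : ℂ) • e ∈ Bn n
    rw [zero_smul, add_zero]
    exact hz₀
  have h1U : (1 : ℂ) ∈ U := by
    show z₀ + (1 : ℂ) • e ∈ Bn n
    rw [one_smul, he, add_sub_cancel]
    exact hz'
  have hUc : Convex ℝ U := by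
    intro x hx y hy s t hs ht hst
    have h1 : z₀ + (s • x + t • y) • e = s • (z₀ + x • e) + t • (z₀ + y • e) := by
      have h2 : (s : ℂ) + (t : ℂ) = 1 := by exact_mod_cast hst
      funext i
      simp only [Pi.add_apply, Pi.smul_apply, smul_eq_mul, Complex.real_smul]
      linear_combination (-(z₀ i)) * h2
    show z₀ + (s • x + t • y) • e ∈ Bn n
    rw [h1]
    exact convex_Bn n hx hy hs ht hst
  have hG : AnalyticOnNhd ℂ (fun l => F (z₀ + l • e) - F z₀) U :=
    ((comp_line_on hF z₀ e).sub_const _).analyticOnNhd hUo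
  have hiso : ∀ᶠ l in 𝓝[≠] (0 : ℂ), F (z₀ + l • e) - F z₀ ≠ 0 := by
    rcases (hG 0 h0U).eventually_eq_zero_or_eventually_ne_zero with h | h
    · exfalso
      have h1 := hG.eqOn_zero_of_preconnected_of_eventuallyEq_zero hUc.isPreconnected h0U h
      have h2 := h1 h1U
      simp only [one_smul, he, add_sub_cancel, Pi.zero_apply] at h2
      exact hne' (sub_eq_zero.1 h2)
    · exact h
  rw [eventually_nhdsWithin_iff] at hiso
  obtain ⟨ρ, hρ, hb⟩ := Metric.eventually_nhds_iff_ball.1 (hiso.and (hUo.mem_nhds h0U))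
  refine sum_roots hR hS hF hk hW (e := e) (r := ρ / 2) (by linarith) (fun l hl => ?_)
    (fun l hl hl0 => ?_)
  · exact (hb l (by rw [mem_ball_zero_iff]; linarith)).2
  · exact sub_ne_zero.1 ((hb l (by rw [mem_ball_zero_iff]; linarith)).1 hl0)

end

end

end Pool.Agent.Lib.MP_6ff8d9_an.H82L
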