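import Pool.Agent.Lib.MP_6ff8d9_an_h82.PrimeExt

/-!
# MP_6ff8d9: near a good boundary point there is one with `F ≠ 1`
-/

open Metric Filter Topology Set
open scoped ContDiff

namespace Pool.Agent.Lib.MP_6ff8d9_an.H82L

open Pool.Agent.Lib.MP_6ff8d9_an

noncomputable section

variable {n : ℕ}

/-- identity theorem for real points -/
lemma real_ident {φ : Cn n → ℂ} (hφ : ∀ᶠ y in 𝓝 (0 : Cn n), DifferentiableAt ℂ φ y)
    (h1 : ∀ᶠ x in 𝓝 (0 : Cn n), (∀ i, (x i).im = 0) → φ x = 1) :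
    ∀ᶠ y in 𝓝 (0 : Cn n), φ y = 1 := by
  obtain ⟨r, hr, hb⟩ := Metric.eventually_nhds_iff_ball.1 (hφ.and h1)
  filter_upwards [ball_mem_nhds (0 : Cn n) (show 0 < r / 4 by positivity)] with y hy
  rw [mem_ball_zero_iff] at hy
  set a : Cn n := WithLp.toLp 2 fun i => (((y i).re : ℝ) : ℂ) with ha
  set b : Cn n := WithLp.toLp 2 fun i => (((y i).im : ℝ) : ℂ) with hb'
  have hna : ‖a‖ ≤ ‖y‖ := by
    rw [EuclideanSpace.norm_eq, EuclideanSpace.norm_eq]
    refine Real.sqrt_le_sqrt (Finset.sum_le_sum fun i _ => ?_)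
    refine pow_le_pow_left₀ (norm_nonneg _) ?_ 2
    rw [ha]
    show ‖(((y i).re : ℝ) : ℂ)‖ ≤ _
    rw [Complex.norm_real]
    exact Complex.abs_re_le_norm _
  have hnb : ‖b‖ ≤ ‖y‖ := by
    rw [EuclideanSpace.norm_eq, EuclideanSpace.norm_eq]
    refine Real.sqrt_le_sqrt (Finset.sum_le_sum fun i _ => ?_)
    refine pow_le_pow_left₀ (norm_nonneg _) ?_ 2
    rw [hb']
    show ‖(((y i).im : ℝ) : ℂ)‖ ≤ _
    rw [Complex.norm_real]
    exact Complex.abs_im_le_norm _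
  have hy2 : y = a + Complex.I • b := by
    ext i
    show y i = (((y i).re : ℝ) : ℂ) + Complex.I * (((y i).im : ℝ) : ℂ)
    rw [mul_comm]
    exact (Complex.re_add_im _).symm
  have hin : ∀ t ∈ ball (0 : ℂ) 2, a + t • b ∈ ball (0 : Cn n) r := by
    intro t ht
    rw [mem_ball_zero_iff] at ht ⊢
    have h2 : ‖t • b‖ ≤ 2 * (r / 4) := by
      rw [norm_smul]
      exact mul_le_mul ht.le (hnb.trans hy.le) (norm_nonneg _) (by norm_num)
    have h3 := norm_add_le a (t • b)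
    linarith
  have hψ : DifferentiableOn ℂ (fun t : ℂ => φ (a + t • b)) (ball 0 2) := by
    intro t ht
    have h2 := (hb _ (hin t ht)).1
    have h3 : DifferentiableAt ℂ (fun t : ℂ => a + t • b) t := by fun_prop
    exact (h2.comp t h3).differentiableWithinAt
  have hreal : ∀ t : ℝ, (t : ℂ) ∈ ball (0 : ℂ) 2 → φ (a + (t : ℂ) • b) = 1 := by
    intro t ht
    refine (hb _ (hin _ ht)).2 fun i => ?_
    show ((((y i).re : ℝ) : ℂ) + (t : ℂ) * (((y i).im : ℝ) : ℂ)).im = 0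
    rw [← Complex.ofReal_mul, ← Complex.ofReal_add, Complex.ofReal_im]
  have hfr : ∃ᶠ t in 𝓝[≠] (0 : ℂ), φ (a + t • b) = 1 := by
    have h2 : Tendsto (fun t : ℝ => (t : ℂ)) (𝓝[≠] 0) (𝓝[≠] 0) := by
      refine tendsto_nhdsWithin_iff.2 ⟨?_, ?_⟩
      · have h3 := (Complex.continuous_ofReal.tendsto (0 : ℝ)).mono_left
          (nhdsWithin_le_nhds (s := {0}ᶜ))
        rwa [Complex.ofReal_zero] at h3
      · filter_upwards [self_mem_nhdsWithin] with t ht
        simpa using ht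
    refine h2.frequently ?_
    refine Eventually.frequently ?_
    have h3 : ∀ᶠ t : ℝ in 𝓝 0, (t : ℂ) ∈ ball (0 : ℂ) 2 := by
      refine Complex.continuous_ofReal.continuousAt.eventually_mem ?_
      rw [Complex.ofReal_zero]
      exact ball_mem_nhds _ two_pos
    filter_upwards [nhdsWithin_le_nhds h3] with t ht
    exact hreal t ht
  have hI : Complex.I ∈ ball (0 : ℂ) 2 := by
    rw [mem_ball_zero_iff, Complex.norm_I]
    norm_num
  have h4 := (hψ.analyticOnNhd isOpen_ball).eqOn_of_preconnected_of_frequently_eq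
    (analyticOnNhd_const (v := (1 : ℂ))) (convex_ball (0 : ℂ) 2).isPreconnected
    (mem_ball_self two_pos) hfr hI
  rw [hy2]
  exact h4

/-- a map which is complex differentiable near a point is analytic there -/
lemma theta_omega {Θ : Cn n → Cn n} {x : Cn n} (hΘ : ∀ᶠ y in 𝓝 x, DifferentiableAt ℂ Θ y) :
    ContDiffAt ℂ ω Θ x := by
  rw [contDiffAt_euclidean]
  intro i
  refine Pool.Agent.K708.holo_omega_at ?_
  filter_upwards [hΘ] with y hy
  exact (differentiableAt_euclidean.1 hy) i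

/-- near a good boundary point there is a good boundary point with `F ≠ 1` -/
theorem good_ne_one {F : Cn n → ℂ} (hlt : ∀ z ∈ ball (0 : Cn n) 1, ‖F z‖ < 1) {ζ : Cn n}
    (hg : GoodPt F ζ) : ∃ ζ', GoodPt F ζ' ∧ F ζ' ≠ 1 := by
  obtain ⟨hhol, Θ, hΘ0, hΘd, ⟨A, hA⟩, hch⟩ := hg
  have hcd : ContDiffAt ℂ ω Θ 0 := theta_omega hΘd
  have hcont : ContinuousAt Θ 0 := hcd.continuousAt
  -- the derivative is invertible near `0`
  have hinv : ∀ᶠ x in 𝓝 (0 : Cn n), ∃ B : Cn n ≃L[ℂ] Cn n, HasFDerivAt Θ (B : Cn n →L[ℂ] Cn n) x := by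
    have h1 : ContDiffAt ℂ 1 (fderiv ℂ Θ) 0 := hcd.fderiv_right (m := 1) (by norm_num)
    have h2 : ContinuousAt (fderiv ℂ Θ) 0 := h1.continuousAt
    have h3 : range ((↑) : (Cn n ≃L[ℂ] Cn n) → Cn n →L[ℂ] Cn n) ∈ 𝓝 (fderiv ℂ Θ 0) := by
      rw [hA.fderiv]
      exact ContinuousLinearEquiv.nhds A
    filter_upwards [h2.eventually_mem h3, hΘd] with x hx hx'
    obtain ⟨B, hB⟩ := hx
    refine ⟨B, ?_⟩
    rw [hB]
    exact hx'.hasFDerivAt
  have hholn : ∀ᶠ x in 𝓝 (0 : Cn n), ∀ᶠ z in 𝓝 (Θ x), DifferentiableAt ℂ F z := by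
    have h1 : ∀ᶠ z in 𝓝 (Θ 0), ∀ᶠ w in 𝓝 z, DifferentiableAt ℂ F w := by
      rw [hΘ0]
      exact hhol.eventually_nhds
    exact hcont.eventually h1
  have hgood : ∀ᶠ x in 𝓝 (0 : Cn n), (∀ i, (x i).im = 0) → GoodPt F (Θ x) := by
    filter_upwards [hinv, hholn, hΘd.eventually_nhds, hch.eventually_nhds] with x h1 h2 h3 h4 hre
    obtain ⟨B, hB⟩ := h1
    have ht : Tendsto (fun y : Cn n => x + y) (𝓝 0) (𝓝 x) := by
      have h5 : ContinuousAt (fun y : Cn n => x + y) 0 := by fun_prop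
      have h6 := h5.tendsto
      rwa [add_zero] at h6
    refine ⟨h2, fun y => Θ (x + y), by simp, ?_, ⟨B, ?_⟩, ?_⟩
    · filter_upwards [ht.eventually h3] with y hy
      exact DifferentiableAt.comp y hy (by fun_prop)
    · have h5 : HasFDerivAt (fun y : Cn n => x + y) (ContinuousLinearMap.id ℂ (Cn n)) 0 :=
        (hasFDerivAt_id _).const_add x
      have h6 : HasFDerivAt Θ (B : Cn n →L[ℂ] Cn n) (x + 0) := by rwa [add_zero]
      have h7 := h6.comp (0 : Cn n) h5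
      exact h7
    · filter_upwards [ht.eventually h4] with y hy hyre
      exact hy fun i => by
        show (x i + y i).im = 0
        rw [Complex.add_im, hre i, hyre i, add_zero]
  by_contra hcon
  push Not at hcon
  have hone : ∀ᶠ x in 𝓝 (0 : Cn n), (∀ i, (x i).im = 0) → F (Θ x) = 1 := by
    filter_upwards [hgood] with x hx hre
    exact hcon _ (hx hre)
  have hφ : ∀ᶠ y in 𝓝 (0 : Cn n), DifferentiableAt ℂ (fun y => F (Θ y)) y := by
    filter_upwards [hholn, hΘd] with y h1 h2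
    exact DifferentiableAt.comp y h1.self_of_nhds h2
  have h1 := real_ident hφ hone
  have hstr : HasStrictFDerivAt Θ (A : Cn n →L[ℂ] Cn n) 0 := by
    have h2 := hcd.hasStrictFDerivAt (by simp)
    rwa [hA.fderiv] at h2
  have hmap := hstr.map_nhds_eq_of_equiv
  have h2 : ∀ᶠ z in 𝓝 ζ, F z = 1 := by
    rw [← hΘ0, ← hmap, eventually_map]
    exact h1
  have hζ : ‖ζ‖ = 1 := by
    have h3 := (hch.self_of_nhds fun i => by simp).1
    rwa [hΘ0] at h3
  have h3 : ∀ᶠ t : ℝ in 𝓝[<] 1, F ((t : ℂ) • ζ) = 1 := by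
    have h4 : Tendsto (fun t : ℝ => (t : ℂ) • ζ) (𝓝[<] 1) (𝓝 ζ) := by
      have h5 : ContinuousAt (fun t : ℝ => (t : ℂ) • ζ) 1 := by fun_prop
      have h6 := h5.tendsto
      simp only [Complex.ofReal_one, one_smul] at h6
      exact h6.mono_left nhdsWithin_le_nhds
    exact h4.eventually h2
  have h5 : ∀ᶠ t : ℝ in 𝓝[<] 1, 0 < t := by
    exact nhdsWithin_le_nhds (lt_mem_nhds one_pos)
  obtain ⟨t, ⟨ht1, ht2⟩, ht3⟩ := ((h3.and h5).and self_mem_nhdsWithin).exists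
  have h6 : (t : ℂ) • ζ ∈ ball (0 : Cn n) 1 := by
    rw [mem_ball_zero_iff, norm_smul, hζ, mul_one, Complex.norm_real, Real.norm_of_nonneg ht2.le]
    exact ht3
  have h7 := hlt _ h6
  rw [ht1, norm_one] at h7
  exact lt_irrefl _ h7

end

end Pool.Agent.Lib.MP_6ff8d9_an.H82L
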