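import Pool.Agent.Lib.MP_6ff8d9_an_h82.GoodExt
import Pool.Agent.Lib.MP_6ff8d9_an_h99.Contl

/-!
# MP_6ff8d9: an `n`-dimensional real-analytic submanifold of the sphere on which `|F| = 1` is
automatically totally real
-/

open Metric Filter Topology Set
open scoped ContDiff ComplexConjugate

namespace Pool.Agent.Lib.MP_6ff8d9_an.H82L

open Pool.Agent.Lib.MP_6ff8d9_an

noncomputable section

variable {n : ℕ}

/-- `F` is holomorphic near `ζ`, and `|F| = 1` on an `n`-dimensional real-analytic submanifold of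
the unit sphere through `ζ`: the image of the real points near `0` under a holomorphic map `Θ` whose
restriction to the real points is an immersion at `0`. -/
structure ImmPt (F : Cn n → ℂ) (ζ : Cn n) : Prop where
  hol : ∀ᶠ z in 𝓝 ζ, DifferentiableAt ℂ F z
  chart : ∃ Θ : Cn n → Cn n, Θ 0 = ζ ∧ (∀ᶠ y in 𝓝 0, DifferentiableAt ℂ Θ y) ∧
    (∀ x : Cn n, (∀ i, (x i).im = 0) → fderiv ℂ Θ 0 x = 0 → x = 0) ∧
    ∀ᶠ x in 𝓝 (0 : Cn n), (∀ i, (x i).im = 0) → ‖Θ x‖ = 1 ∧ ‖F (Θ x)‖ = 1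

/-- first order contact -/
lemma grad_Cn {F : Cn n → ℂ} (hlt : ∀ z ∈ ball (0 : Cn n) 1, ‖F z‖ < 1) {m : Cn n}
    (hF : DifferentiableAt ℂ F m) (hm : ‖m‖ = 1) (hFm : ‖F m‖ = 1) (v : Cn n) :
    fderiv ℂ F m v = inner ℂ m v * fderiv ℂ F m m := by
  have h1 := H99.grad_contact (f := fun w : Fin n → ℂ => F (WithLp.toLp 2 w)) (m := toF m)
    (by
      have h2 : DifferentiableAt ℂ F (WithLp.toLp 2 (toF m)) := hF
      exact h2.comp (toF m)
        ((PiLp.continuousLinearEquiv 2 ℂ (fun _ : Fin n => ℂ)).symm.differentiableAt))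
    (by
      have h2 := EuclideanSpace.norm_sq_eq m
      rw [hm, one_pow] at h2
      exact h2.symm)
    hFm
    (fun z hz => hlt _ (by
      rw [mem_ball_zero_iff]
      have h2 := EuclideanSpace.norm_sq_eq (WithLp.toLp 2 z : Cn n)
      have h3 : ‖(WithLp.toLp 2 z : Cn n)‖ ^ 2 < 1 := by
        rw [h2]
        exact hz
      nlinarith [norm_nonneg (WithLp.toLp 2 z : Cn n)])) (toF v)
  rw [fderiv_transfer hF, fderiv_transfer hF] at h1
  rw [h1]
  congr 1
  rw [PiLp.inner_apply]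
  refine Finset.sum_congr rfl fun i _ => ?_
  rw [RCLike.inner_apply, mul_comm]
  rfl

/-- the radial derivative does not vanish -/
lemma radial_Cn {F : Cn n → ℂ} (hF : DifferentiableOn ℂ F (ball 0 1))
    (hlt : ∀ z ∈ ball (0 : Cn n) 1, ‖F z‖ < 1) (h0 : F 0 = 0) {m : Cn n}
    (hFm' : DifferentiableAt ℂ F m) (hm : ‖m‖ = 1) (hFm : ‖F m‖ = 1) :
    fderiv ℂ F m m ≠ 0 := by
  have h1 := H99.radial_ne (f := fun w : Fin n → ℂ => F (WithLp.toLp 2 w)) (m := toF m)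
    (by
      have h2 : DifferentiableAt ℂ F (WithLp.toLp 2 (toF m)) := hFm'
      exact h2.comp (toF m)
        ((PiLp.continuousLinearEquiv 2 ℂ (fun _ : Fin n => ℂ)).symm.differentiableAt))
    (by
      have h2 := EuclideanSpace.norm_sq_eq m
      rw [hm, one_pow] at h2
      exact h2.symm)
    hFm
    (fun z hz => by
      have h2 := EuclideanSpace.norm_sq_eq (WithLp.toLp 2 z : Cn n)
      have h3 : ‖(WithLp.toLp 2 z : Cn n)‖ ^ 2 < 1 := by
        rw [h2]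
        exact hz
      have h4 : ‖(WithLp.toLp 2 z : Cn n)‖ < 1 := by
        nlinarith [norm_nonneg (WithLp.toLp 2 z : Cn n)]
      have h5 : ‖F (WithLp.toLp 2 z)‖ ≤ ‖(WithLp.toLp 2 z : Cn n)‖ :=
        Complex.norm_le_norm_of_mapsTo_ball hF
          (fun w hw => mem_closedBall_zero_iff.2 (hlt w hw).le) h0 h4
      have h6 : ‖F (WithLp.toLp 2 z)‖ ^ 2 ≤ ‖(WithLp.toLp 2 z : Cn n)‖ ^ 2 :=
        pow_le_pow_left₀ (norm_nonneg _) h5 2
      rw [h2] at h6
      exact h6)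
  rwa [fderiv_transfer hFm'] at h1

/-- such a submanifold is totally real -/
theorem good_of_imm {F : Cn n → ℂ} (hF : DifferentiableOn ℂ F (ball 0 1))
    (hlt : ∀ z ∈ ball (0 : Cn n) 1, ‖F z‖ < 1) (h0 : F 0 = 0) {ζ : Cn n} (hg : ImmPt F ζ) :
    GoodPt F ζ := by
  obtain ⟨hhol, Θ, hΘ0, hΘd, himm, hch⟩ := hg
  refine ⟨hhol, Θ, hΘ0, hΘd, ?_, hch⟩
  have hcd : ContDiffAt ℂ ω Θ 0 := theta_omega hΘd
  have hcont : ContinuousAt Θ 0 := hcd.continuousAt
  have hFcd : ContDiffAt ℂ ω F ζ := Pool.Agent.K708.holo_omega_at hhol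
  set L := fderiv ℂ Θ 0 with hL
  have hLd : HasFDerivAt Θ L 0 := (hΘd.self_of_nhds).hasFDerivAt
  suffices hinj : ∀ y : Cn n, L y = 0 → y = 0 by
    have h1 : Function.Injective (L : Cn n →ₗ[ℂ] Cn n) := by
      rw [injective_iff_map_eq_zero]
      exact hinj
    refine ⟨(LinearEquiv.ofInjectiveEndo (L : Cn n →ₗ[ℂ] Cn n) h1).toContinuousLinearEquiv, ?_⟩
    have h2 : (((LinearEquiv.ofInjectiveEndo (L : Cn n →ₗ[ℂ] Cn n) h1).toContinuousLinearEquiv :
        Cn n ≃L[ℂ] Cn n) : Cn n →L[ℂ] Cn n) = L := by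
      ext1 v
      rfl
    rw [h2]
    exact hLd
  -- the function `G = F ∘ Θ` and its second derivative
  set G : Cn n → ℂ := fun y => F (Θ y) with hG
  have hGcd : ContDiffAt ℂ ω G 0 := by
    have h1 : ContDiffAt ℂ ω F (Θ 0) := by rwa [hΘ0]
    exact h1.comp (0 : Cn n) hcd
  have hG1 : DifferentiableAt ℂ (fderiv ℂ G) 0 :=
    ((hGcd.fderiv_right (m := 1) (by norm_num))).differentiableAt (by norm_num)
  have hΘ1 : DifferentiableAt ℂ (fderiv ℂ Θ) 0 :=
    ((hcd.fderiv_right (m := 1) (by norm_num))).differentiableAt (by norm_num)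
  have hF1 : DifferentiableAt ℂ (fderiv ℂ F) ζ :=
    ((hFcd.fderiv_right (m := 1) (by norm_num))).differentiableAt (by norm_num)
  have hGs : ∀ a b : Cn n, fderiv ℂ (fderiv ℂ G) 0 a b = fderiv ℂ (fderiv ℂ G) 0 b a := by
    have h3 : ContDiffAt ℂ (minSmoothness ℂ 2) G 0 := hGcd.of_le (by simp)
    exact fun a b => (h3.isSymmSndFDerivAt le_rfl).eq a b
  have hΘs : ∀ a b : Cn n, fderiv ℂ (fderiv ℂ Θ) 0 a b = fderiv ℂ (fderiv ℂ Θ) 0 b a := by
    have h3 : ContDiffAt ℂ (minSmoothness ℂ 2) Θ 0 := hcd.of_le (by simp)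
    exact fun a b => (h3.isSymmSndFDerivAt le_rfl).eq a b
  set R : Cn n → ℂ := fun y => fderiv ℂ F (Θ y) (Θ y) with hR
  have hRd : DifferentiableAt ℂ R 0 := by
    have h1 : DifferentiableAt ℂ (fun y => fderiv ℂ F (Θ y)) 0 := by
      have h2 : DifferentiableAt ℂ (fderiv ℂ F) (Θ 0) := by rwa [hΘ0]
      exact h2.comp (0 : Cn n) hΘd.self_of_nhds
    exact h1.clm_apply hΘd.self_of_nhds
  have hholn : ∀ᶠ x in 𝓝 (0 : Cn n), DifferentiableAt ℂ F (Θ x) := by
    have h1 : ∀ᶠ z in 𝓝 (Θ 0), DifferentiableAt ℂ F z := by rwa [hΘ0]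
    exact hcont.eventually h1
  -- curves
  have hcur : ∀ b : Cn n, HasDerivAt (fun t : ℝ => (t : ℂ) • b) b 0 := by
    intro b
    have h1 : HasDerivAt (fun t : ℝ => (t : ℂ)) 1 0 := Complex.ofRealCLM.hasDerivAt
    have h2 := h1.smul_const b
    rwa [one_smul] at h2
  have hcur0 : ∀ b : Cn n, Tendsto (fun t : ℝ => (t : ℂ) • b) (𝓝 0) (𝓝 0) := by
    intro b
    have h1 := (hcur b).continuousAt.tendsto
    simpa using h1
  have hcomp : ∀ {X : Type} [NormedAddCommGroup X] [NormedSpace ℂ X] (f : Cn n → X) (b : Cn n),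
      DifferentiableAt ℂ f 0 →
      HasDerivAt (fun t : ℝ => f ((t : ℂ) • b)) (fderiv ℂ f 0 b) 0 := by
    intro X _ _ f b hf
    have h1 : HasFDerivAt f ((fderiv ℂ f 0).restrictScalars ℝ) ((fun t : ℝ => (t : ℂ) • b) 0) := by
      have h2 : (fun t : ℝ => (t : ℂ) • b) 0 = 0 := by simp
      rw [h2]
      exact hf.hasFDerivAt.restrictScalars ℝ
    exact h1.comp_hasDerivAt (0 : ℝ) (hcur b)
  have hreal : ∀ b : Cn n, (∀ i, (b i).im = 0) → ∀ t : ℝ, ∀ i, (((t : ℂ) • b) i).im = 0 := by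
    intro b hb t i
    show ((t : ℂ) * b i).im = 0
    rw [Complex.mul_im, Complex.ofReal_im, hb i, mul_zero, zero_mul, add_zero]
  have hnζ : ‖ζ‖ = 1 ∧ ‖F ζ‖ = 1 := by
    have h1 := hch.self_of_nhds fun i => by simp
    rwa [hΘ0] at h1
  have hR0 : R 0 ≠ 0 := by
    show fderiv ℂ F (Θ 0) (Θ 0) ≠ 0
    rw [hΘ0]
    exact radial_Cn hF hlt h0 hhol.self_of_nhds hnζ.1 hnζ.2
  -- the tangential part
  have htan : ∀ b : Cn n, (∀ i, (b i).im = 0) → (inner ℂ ζ (L b)).re = 0 := by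
    intro b hb
    have h1 : HasDerivAt (fun t : ℝ => Θ ((t : ℂ) • b)) (L b) 0 := hcomp Θ b hΘd.self_of_nhds
    have h2 := HasDerivAt.inner ℂ h1 h1
    have h3 : (fun t : ℝ => inner ℂ (Θ ((t : ℂ) • b)) (Θ ((t : ℂ) • b))) =ᶠ[𝓝 0] fun _ => (1 : ℂ) := by
      filter_upwards [(hcur0 b).eventually hch] with t ht
      have h4 := (ht (hreal b hb t)).1
      rw [inner_self_eq_norm_sq_to_K, h4]
      norm_num
    have h4 : HasDerivAt (fun t : ℝ => inner ℂ (Θ ((t : ℂ) • b)) (Θ ((t : ℂ) • b))) (0 : ℂ) 0 :=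
      (hasDerivAt_const (0 : ℝ) (1 : ℂ)).congr_of_eventuallyEq h3
    have h5 := h2.unique h4
    have h6 : ((0 : ℝ) : ℂ) • b = 0 := by simp
    rw [h6, hΘ0, ← inner_conj_symm (L b) ζ] at h5
    have h7 := congrArg Complex.re h5
    rw [Complex.add_re, Complex.conj_re, Complex.zero_re] at h7
    linarith
  -- second derivatives
  have hsec : ∀ a b : Cn n, (∀ i, (a i).im = 0) → (∀ i, (b i).im = 0) → inner ℂ ζ (L a) = 0 →
      fderiv ℂ (fderiv ℂ G) 0 b a =
        (inner ℂ ζ (fderiv ℂ (fderiv ℂ Θ) 0 b a) + inner ℂ (L b) (L a)) * R 0 := by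
    intro a b ha hb hza
    have h1 : HasDerivAt (fun t : ℝ => fderiv ℂ G ((t : ℂ) • b) a)
        (fderiv ℂ (fderiv ℂ G) 0 b a) 0 := by
      have hga : HasFDerivAt (fun y => fderiv ℂ G y a)
          ((ContinuousLinearMap.apply ℂ ℂ a).comp (fderiv ℂ (fderiv ℂ G) 0)) 0 :=
        (ContinuousLinearMap.apply ℂ ℂ a).hasFDerivAt.comp (0 : Cn n) hG1.hasFDerivAt
      have h2 := hcomp (fun y => fderiv ℂ G y a) b hga.differentiableAt
      rw [hga.fderiv] at h2
      exact h2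
    have h4 : HasDerivAt (fun t : ℝ => Θ ((t : ℂ) • b)) (L b) 0 := hcomp Θ b hΘd.self_of_nhds
    have h5 : HasDerivAt (fun t : ℝ => fderiv ℂ Θ ((t : ℂ) • b) a)
        (fderiv ℂ (fderiv ℂ Θ) 0 b a) 0 := by
      have hga : HasFDerivAt (fun y => fderiv ℂ Θ y a)
          ((ContinuousLinearMap.apply ℂ (Cn n) a).comp (fderiv ℂ (fderiv ℂ Θ) 0)) 0 :=
        (ContinuousLinearMap.apply ℂ (Cn n) a).hasFDerivAt.comp (0 : Cn n) hΘ1.hasFDerivAt
      have h2 := hcomp (fun y => fderiv ℂ Θ y a) b hga.differentiableAt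
      rw [hga.fderiv] at h2
      exact h2
    have h6 : HasDerivAt (fun t : ℝ => R ((t : ℂ) • b)) (fderiv ℂ R 0 b) 0 := hcomp R b hRd
    have h7 := (HasDerivAt.inner ℂ h4 h5).mul h6
    have hz : ((0 : ℝ) : ℂ) • b = 0 := by simp
    have h8 : (fun t : ℝ => fderiv ℂ G ((t : ℂ) • b) a) =ᶠ[𝓝 0] fun t : ℝ =>
        inner ℂ (Θ ((t : ℂ) • b)) (fderiv ℂ Θ ((t : ℂ) • b) a) * R ((t : ℂ) • b) := by
      filter_upwards [(hcur0 b).eventually hch, (hcur0 b).eventually hΘd,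
        (hcur0 b).eventually hholn] with t ht1 ht2 ht3
      obtain ⟨h9, h10⟩ := ht1 (hreal b hb t)
      have h11 : HasFDerivAt G ((fderiv ℂ F (Θ ((t : ℂ) • b))).comp
          (fderiv ℂ Θ ((t : ℂ) • b))) ((t : ℂ) • b) :=
        ht3.hasFDerivAt.comp _ ht2.hasFDerivAt
      rw [h11.fderiv, ContinuousLinearMap.comp_apply, grad_Cn hlt ht3 h9 h10]
    have h9 := (h1.congr_of_eventuallyEq h8.symm).unique h7
    rw [hz, hΘ0, ← hL, hza, zero_mul, add_zero] at h9
    exact h9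
  -- conclusion
  intro y hy
  set a : Cn n := WithLp.toLp 2 fun i => (((y i).re : ℝ) : ℂ) with ha
  set b : Cn n := WithLp.toLp 2 fun i => (((y i).im : ℝ) : ℂ) with hb
  have har : ∀ i, (a i).im = 0 := fun i => Complex.ofReal_im _
  have hbr : ∀ i, (b i).im = 0 := fun i => Complex.ofReal_im _
  have hy2 : y = a + Complex.I • b := by
    ext i
    show y i = (((y i).re : ℝ) : ℂ) + Complex.I * (((y i).im : ℝ) : ℂ)
    rw [mul_comm]
    exact (Complex.re_add_im _).symm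
  have hLab : L a = -(Complex.I • L b) := by
    rw [hy2, map_add, map_smul] at hy
    exact eq_neg_of_add_eq_zero_left hy
  have hcb := htan b hbr
  have hca := htan a har
  have hIb : inner ℂ ζ (L b) = 0 := by
    rw [hLab, inner_neg_right, inner_smul_right] at hca
    refine Complex.ext hcb ?_
    simpa using hca
  have hIa : inner ℂ ζ (L a) = 0 := by
    rw [hLab, inner_neg_right, inner_smul_right, hIb, mul_zero, neg_zero]
  have h1 := hsec a b har hbr hIa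
  have h2 := hsec b a hbr har hIb
  rw [hGs b a, h2] at h1
  have h3 := mul_right_cancel₀ hR0 h1
  rw [hΘs b a] at h3
  have h4 : inner ℂ (L a) (L b) = inner ℂ (L b) (L a) := add_left_cancel h3
  rw [hLab, inner_neg_left, inner_neg_right, inner_smul_left, inner_smul_right,
    inner_self_eq_norm_sq_to_K, Complex.conj_I] at h4
  have h5 : ((‖L b‖ : ℂ)) ^ 2 = 0 := by
    have h6 : (2 * Complex.I) * ((‖L b‖ : ℂ)) ^ 2 = 0 := by
      linear_combination h4
    rcases mul_eq_zero.1 h6 with h7 | h7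
    · simp at h7
    · exact h7
  have h6 : L b = 0 := by
    have h7 : (‖L b‖ : ℂ) = 0 := pow_eq_zero_iff (two_ne_zero) |>.1 h5
    have h8 : ‖L b‖ = 0 := by exact_mod_cast h7
    exact norm_eq_zero.1 h8
  have h7 : L a = 0 := by rw [hLab, h6, smul_zero, neg_zero]
  rw [hy2, himm a har h7, himm b hbr h6, smul_zero, add_zero]

/-- a point where the restriction is an immersion is the same thing as a good point -/
theorem imm_of_good {F : Cn n → ℂ} {ζ : Cn n} (hg : GoodPt F ζ) : ImmPt F ζ := by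
  obtain ⟨hhol, Θ, hΘ0, hΘd, ⟨A, hA⟩, hch⟩ := hg
  refine ⟨hhol, Θ, hΘ0, hΘd, fun x _ hx => ?_, hch⟩
  rw [hA.fderiv] at hx
  exact A.map_eq_zero_iff.1 hx

end

end Pool.Agent.Lib.MP_6ff8d9_an.H82L
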