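import Pool.Agent.Lib.MP_6ff8d9_an_h82.PrimeDef
import Pool.Agent.Lib.MP_6ff8d9_an_h82.Glob
import Pool.Agent.Lib.MP_6ff8d9_an_h22.Ext
import Pool.Agent.Lib.MP_6ff8d9_an_h99.LocalRow
import Pool.Agent.Lib.K708.HolAn

/-!
# MP_6ff8d9: a prime function with a good boundary point gives an extreme point
-/

open Metric Filter Topology Set
open scoped ComplexConjugate ContDiff

namespace Pool.Agent.Lib.MP_6ff8d9_an.H82L

open Pool.Agent.Lib.MP_6ff8d9_an Pool.Agent.Lib.MP_6ff8d9_an.Rat.H82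
open Pool.Agent.Lib.MP_6ff8d9_an.H22 Pool.Agent.Lib.MP_6ff8d9_an.H22.Poinc

noncomputable section

/-- the one-variable end: the disc version -/
theorem disc_end {K : ℂ → ℂ} (hK : DifferentiableOn ℂ K (ball 0 1)) (h0 : K 0 = 0)
    (hb : ∀ w ∈ ball (0 : ℂ) 1, |(K w).re| ≤ ((1 + w) / (1 - w)).re) :
    ∀ w ∈ ball (0 : ℂ) 1, K w = 0 := by
  have hr0 : (0 : ℝ) < 1 / 2 := by norm_num
  have hsub : Ann (1 / 2) ⊆ ball (0 : ℂ) 1 := fun w hw => mem_ball_zero_iff.2 hw.2
  obtain ⟨κ, hκ⟩ := end_step (K := K) (C := 1) hr0 (by norm_num) (hK.mono hsub) (fun w hw => by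
    have h1 := hb w (hsub hw)
    rw [frac_re] at h1
    rwa [one_mul]) (fun j ρ h1 h2 => by
    have hρ : 0 < ρ := hr0.trans h1
    refine DiffContOnCl.circleIntegral_eq_zero hρ.le ?_
    refine DifferentiableOn.diffContOnCl fun w hw => ?_
    rw [closure_ball (0 : ℂ) hρ.ne', mem_closedBall_zero_iff] at hw
    have h3 : w ∈ ball (0 : ℂ) 1 := mem_ball_zero_iff.2 (hw.trans_lt h2)
    exact (((hK w h3).differentiableAt (isOpen_ball.mem_nhds h3)).mul
      (differentiableAt_id.pow j)).differentiableWithinAt)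
  set G : ℂ → ℂ := fun w => κ + 2 * (κ.re : ℂ) * w / (1 - w) with hG
  have hGd : DifferentiableOn ℂ G (ball 0 1) := by
    intro w hw
    rw [mem_ball_zero_iff] at hw
    have hne : 1 - w ≠ 0 := by
      intro h
      rw [sub_eq_zero] at h
      rw [← h, norm_one] at hw
      exact lt_irrefl _ hw
    have h1 : DifferentiableAt ℂ (fun w : ℂ => (1 - w)⁻¹) w :=
      (differentiableAt_id.const_sub 1).fun_inv hne
    have h2 : G = fun w => κ + 2 * (κ.re : ℂ) * w * (1 - w)⁻¹ := by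
      funext w
      show κ + 2 * (κ.re : ℂ) * w / (1 - w) = _
      rw [div_eq_mul_inv]
    rw [h2]
    exact (((differentiableAt_id.const_mul _).mul h1).const_add _).differentiableWithinAt
  have hmem : ((3 / 4 : ℝ) : ℂ) ∈ Ann (1 / 2) := by
    constructor
    · rw [Complex.norm_real, Real.norm_of_nonneg (by norm_num)]
      norm_num
    · rw [Complex.norm_real, Real.norm_of_nonneg (by norm_num)]
      norm_num
  have hE : EqOn K G (ball 0 1) := by
    refine (hK.analyticOnNhd isOpen_ball).eqOn_of_preconnected_of_eventuallyEq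
      (hGd.analyticOnNhd isOpen_ball) (convex_ball (0 : ℂ) 1).isPreconnected (hsub hmem) ?_
    filter_upwards [(isOpen_Ann (1 / 2)).mem_nhds hmem] with w hw
    exact hκ w hw
  have h1 := hE (mem_ball_self one_pos)
  have h2 : G 0 = κ := by simp [hG]
  rw [h0, h2] at h1
  intro w hw
  rw [hE hw]
  simp [hG, ← h1]

section
variable {n : ℕ}

/-- coordinates -/
def toF (z : Cn n) : Fin n → ℂ := fun i => z i

lemma toF_toLp (z : Fin n → ℂ) : toF (WithLp.toLp 2 z : Cn n) = z := rfl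

lemma toLp_toF (z : Cn n) : (WithLp.toLp 2 (toF z) : Cn n) = z := rfl

/-- the derivative in the two sets of coordinates -/
lemma fderiv_transfer {k : Cn n → ℂ} {z : Cn n} (hk : DifferentiableAt ℂ k z) (x : Cn n) :
    fderiv ℂ (fun w : Fin n → ℂ => k (WithLp.toLp 2 w)) (toF z) (toF x) = fderiv ℂ k z x := by
  have h1 : HasFDerivAt (fun w : Fin n → ℂ => (WithLp.toLp 2 w : Cn n))
      (((PiLp.continuousLinearEquiv 2 ℂ (fun _ : Fin n => ℂ)).symm :
        (Fin n → ℂ) ≃L[ℂ] Cn n) : (Fin n → ℂ) →L[ℂ] Cn n) (toF z) :=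
    ((PiLp.continuousLinearEquiv 2 ℂ (fun _ : Fin n => ℂ)).symm).hasFDerivAt
  have h2 : HasFDerivAt k (fderiv ℂ k z) (WithLp.toLp 2 (toF z)) := hk.hasFDerivAt
  have h3 := h2.comp (toF z) h1
  have h4 : HasFDerivAt (fun w : Fin n → ℂ => k (WithLp.toLp 2 w)) _ (toF z) := h3
  rw [h4.fderiv]
  rfl

lemma mem_ball_toF (z : Cn n) : z ∈ ball (0 : Cn n) 1 ↔ toF z ∈ Bn n := mem_ball_iff_Bn z

/-- the derivative of a holomorphic function is holomorphic -/
lemma fderiv_diffOn {k : (Fin n → ℂ) → ℂ} (hk : DifferentiableOn ℂ k (Bn n)) (x : Fin n → ℂ) :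
    DifferentiableOn ℂ (fun z => fderiv ℂ k z x) (Bn n) := by
  have h1 : ContDiffOn ℂ ω k (Bn n) := Pool.Agent.K708.holo_omega (isOpen_Bn n) hk
  intro z hz
  have h2 : ContDiffAt ℂ ω k z := (h1 z hz).contDiffAt ((isOpen_Bn n).mem_nhds hz)
  have h3 : ContDiffAt ℂ 1 (fderiv ℂ k) z := h2.fderiv_right (m := 1) (by norm_num)
  have h4 : DifferentiableAt ℂ (fderiv ℂ k) z := h3.differentiableAt (by norm_num)
  exact (h4.clm_apply (differentiableAt_const x)).differentiableWithinAt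

/-- a prime nonconstant function is onto the disc -/
lemma prime_onto {F : Cn n → ℂ} (hF : DifferentiableOn ℂ F (ball 0 1)) (h0 : F 0 = 0)
    {v : Cn n} (hv : v ∈ ball (0 : Cn n) 1) (hFv : F v ≠ 0) (hP : PrimeF F) {c : ℂ}
    (hc : c ∈ ball (0 : ℂ) 1) : ∃ z ∈ ball (0 : Cn n) 1, F z = c := by
  by_contra hcon
  push Not at hcon
  have hFd : ∀ z ∈ ball (0 : Cn n) 1, DifferentiableAt ℂ F z := fun z hz =>
    (hF z hz).differentiableAt (isOpen_ball.mem_nhds hz)
  obtain ⟨K, hK, hKF⟩ := hP (fun z => (F z - c)⁻¹)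
    (fun z hz => ((hFd z hz).sub_const c).fun_inv (sub_ne_zero.2 (hcon z hz)) |>.differentiableWithinAt)
    (by
      intro z hz x y
      have h1 : HasFDerivAt (fun z => (F z - c)⁻¹) (-((F z - c) ^ 2)⁻¹ • fderiv ℂ F z) z :=
        (hasDerivAt_inv (sub_ne_zero.2 (hcon z hz))).comp_hasFDerivAt z
          ((hFd z hz).hasFDerivAt.sub_const c)
      rw [h1.fderiv]
      simp only [smul_apply, smul_eq_mul]
      ring)
  -- the slice
  set φ : ℂ → ℂ := fun l => F (l • v) with hφ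
  have hvn : ‖v‖ < 1 := mem_ball_zero_iff.1 hv
  have hU : IsOpen {l : ℂ | l • v ∈ ball (0 : Cn n) 1} := by
    refine isOpen_ball.preimage ?_
    fun_prop
  have hUc : IsPreconnected {l : ℂ | l • v ∈ ball (0 : Cn n) 1} := by
    refine Convex.isPreconnected (fun a ha b hb s t hs ht hst => ?_)
    show (s • a + t • b) • v ∈ ball (0 : Cn n) 1
    rw [add_smul, smul_assoc, smul_assoc]
    exact (convex_ball (0 : Cn n) 1) ha hb hs ht hst
  have hφd : DifferentiableOn ℂ φ {l : ℂ | l • v ∈ ball (0 : Cn n) 1} := by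
    intro l hl
    have h1 : DifferentiableAt ℂ (fun l : ℂ => l • v) l := differentiableAt_id.smul_const v
    exact ((hFd _ hl).comp l h1).differentiableWithinAt
  have h0U : (0 : ℂ) ∈ {l : ℂ | l • v ∈ ball (0 : Cn n) 1} := by
    show (0 : ℂ) • v ∈ ball (0 : Cn n) 1
    rw [zero_smul]
    exact mem_ball_self one_pos
  have h1U : (1 : ℂ) ∈ {l : ℂ | l • v ∈ ball (0 : Cn n) 1} := by
    show (1 : ℂ) • v ∈ ball (0 : Cn n) 1
    rw [one_smul]
    exact hv
  have hφ0 : φ 0 = 0 := by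
    show F ((0 : ℂ) • v) = 0
    rw [zero_smul, h0]
  have hφan := hφd.analyticOnNhd hU
  have hiso : ∀ᶠ l in 𝓝[≠] (0 : ℂ), φ l ≠ 0 := by
    rcases (hφan 0 h0U).eventually_eq_zero_or_eventually_ne_zero with h | h
    · exfalso
      have h1 := hφan.eqOn_zero_of_preconnected_of_eventuallyEq_zero hUc h0U h
      have h2 := h1 h1U
      have h3 : φ 1 = F v := by
        show F ((1 : ℂ) • v) = F v
        rw [one_smul]
      rw [h3] at h2
      exact hFv h2
    · exact h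
  have ht : Tendsto φ (𝓝[≠] 0) (𝓝[≠] 0) := by
    refine tendsto_nhdsWithin_iff.2 ⟨?_, hiso⟩
    have h1 := (hφan 0 h0U).continuousAt.tendsto
    rw [hφ0] at h1
    exact h1.mono_left nhdsWithin_le_nhds
  have hev : ∀ᶠ l in 𝓝[≠] (0 : ℂ), K (φ l) * (φ l - c) = 1 := by
    filter_upwards [mem_nhdsWithin_of_mem_nhds (hU.mem_nhds h0U)] with l hl
    have h1 := hKF _ hl
    have h2 : F (l • v) - c ≠ 0 := sub_ne_zero.2 (hcon _ hl)
    show K (F (l • v)) * (F (l • v) - c) = 1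
    rw [← h1]
    exact inv_mul_cancel₀ h2
  have hfr : ∃ᶠ w in 𝓝[≠] (0 : ℂ), K w * (w - c) = 1 := ht.frequently hev.frequently
  have hE := (((hK.mul (differentiableOn_id.sub_const c)).analyticOnNhd
    isOpen_ball)).eqOn_of_preconnected_of_frequently_eq
    ((differentiableOn_const (1 : ℂ)).analyticOnNhd isOpen_ball)
    (convex_ball (0 : ℂ) 1).isPreconnected (mem_ball_self one_pos) hfr
  have h1 := hE hc
  simp at h1

/-- prime and a good boundary point imply extreme -/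
theorem primeext (hC : CONTL) (hX : EXTL) : PRIMEEXT := by
  intro n F ζ hF hlt h0 hgood hζ1 hP
  obtain ⟨Ψ, hcon⟩ := hC n F ζ hF hlt h0 hgood
  have hne1 : ∀ z ∈ ball (0 : Cn n) 1, 1 - F z ≠ 0 := by
    intro z hz h
    have h1 := hlt z hz
    rw [← sub_eq_zero.1 h, norm_one] at h1
    exact lt_irrefl _ h1
  have hgNB : (fun z => (1 + F z) / (1 - F z)) ∈ NB n := by
    refine ⟨?_, ?_, ?_⟩
    · have e : ∀ z, (1 + F z) / (1 - F z) = (1 + F z) * (1 - F z)⁻¹ := fun z => div_eq_mul_inv _ _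
      simp only [e]
      exact (hF.const_add 1).mul ((hF.const_sub 1).fun_inv hne1)
    · intro z hz
      show 0 < ((1 + F z) / (1 - F z)).re
      rw [frac_re]
      have h1 := hlt z hz
      have h2 : 0 < ‖1 - F z‖ := norm_pos_iff.2 (hne1 z hz)
      have h3 : 0 < 1 - ‖F z‖ ^ 2 := by nlinarith [norm_nonneg (F z)]
      positivity
    · simp [h0]
  refine hX n _ hgNB fun k hk hk0 hre => ?_
  -- coordinates
  set F' : (Fin n → ℂ) → ℂ := fun z => F (WithLp.toLp 2 z) with hF'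
  set k' : (Fin n → ℂ) → ℂ := fun z => k (WithLp.toLp 2 z) with hk'
  have hF'd : DifferentiableOn ℂ F' (Bn n) := diff_transfer hF
  have hk'd : DifferentiableOn ℂ k' (Bn n) := diff_transfer hk
  have hlt' : ∀ z : Fin n → ℂ, ∑ i, ‖z i‖ ^ 2 < 1 → ‖F' z‖ < 1 := fun z hz =>
    hlt _ (toLp_mem hz)
  have hre' : ∀ z ∈ H99.Bl n, |(k' z).re| ≤ ((1 + F' z) / (1 - F' z)).re := fun z hz =>
    hre _ (toLp_mem hz)
  obtain ⟨z₁, hz₁, hev⟩ := hcon.local_step hζ1 hlt' hk'd hre' hcon.grad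
  have hwij : ∀ i j, ∀ z ∈ Bn n, fderiv ℂ F' z (Pi.single j 1) * fderiv ℂ k' z (Pi.single i 1) =
      fderiv ℂ F' z (Pi.single i 1) * fderiv ℂ k' z (Pi.single j 1) := by
    intro i j
    obtain ⟨ρ, hρ, hb⟩ := Metric.eventually_nhds_iff_ball.1 (hev.and ((isOpen_Bn n).mem_nhds hz₁))
    refine eq_on_ball (V := ball z₁ ρ)
      (k := fun z => fderiv ℂ F' z (Pi.single j 1) * fderiv ℂ k' z (Pi.single i 1))
      (k' := fun z => fderiv ℂ F' z (Pi.single i 1) * fderiv ℂ k' z (Pi.single j 1))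
      ((fderiv_diffOn hF'd _).mul (fderiv_diffOn hk'd _))
      ((fderiv_diffOn hF'd _).mul (fderiv_diffOn hk'd _))
      isOpen_ball ⟨z₁, mem_ball_self hρ⟩ (fun z hz => (hb z hz).2) fun z hz => ?_
    obtain ⟨⟨⟨-, hg⟩, hw⟩, -⟩ := hb z hz
    have e : ∀ j, fderiv ℂ F' z (Pi.single j 1) = fderiv ℂ F' z z * Ψ z j := by
      intro j
      rw [hg]
      congr 1
      rw [Finset.sum_eq_single j]
      · rw [Pi.single_eq_same, mul_one]
      · intro b _ hb
        rw [Pi.single_eq_of_ne hb, mul_zero]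
      · intro h
        exact absurd (Finset.mem_univ _) h
    have h2 := hw i j
    simp only [e]
    linear_combination (fderiv ℂ F' z z) * h2
  have hwedge : ∀ z ∈ ball (0 : Cn n) 1, ∀ x y, fderiv ℂ k z x * fderiv ℂ F z y =
      fderiv ℂ k z y * fderiv ℂ F z x := by
    intro z hz x y
    have hkd := (hk z hz).differentiableAt (isOpen_ball.mem_nhds hz)
    have hFd := (hF z hz).differentiableAt (isOpen_ball.mem_nhds hz)
    rw [← fderiv_transfer hkd x, ← fderiv_transfer hkd y, ← fderiv_transfer hFd x,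
      ← fderiv_transfer hFd y]
    exact wedge_all (fun i j => hwij i j (toF z) ((mem_ball_toF z).1 hz)) (toF x) (toF y)
  obtain ⟨K, hK, hKF⟩ := hP k hk hwedge
  -- nonconstant
  obtain ⟨v, hv, hFv⟩ : ∃ v ∈ ball (0 : Cn n) 1, F v ≠ 0 := by
    by_contra h
    push Not at h
    obtain ⟨Θ, h1, -, -, h2⟩ := hgood.chart
    have h3 := h2.self_of_nhds (fun i => by simp)
    rw [h1] at h3
    have h4 : ContinuousAt F ζ := hgood.hol.self_of_nhds.continuousAt
    have h5 : Tendsto (fun t : ℝ => (1 - (t : ℂ)) • ζ) (𝓝[>] 0) (𝓝 ζ) := by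
      have h6 : Continuous fun t : ℝ => (1 - (t : ℂ)) • ζ := by fun_prop
      have h7 := h6.tendsto 0
      simp only [Complex.ofReal_zero, sub_zero, one_smul] at h7
      exact h7.mono_left nhdsWithin_le_nhds
    have h6 : Tendsto (fun t : ℝ => F ((1 - (t : ℂ)) • ζ)) (𝓝[>] 0) (𝓝 (F ζ)) :=
      h4.tendsto.comp h5
    have h7 : ∀ᶠ t : ℝ in 𝓝[>] 0, F ((1 - (t : ℂ)) • ζ) = 0 := by
      have h8 : ∀ᶠ t : ℝ in 𝓝[>] 0, t < 1 := mem_nhdsWithin_of_mem_nhds (gt_mem_nhds one_pos)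
      filter_upwards [self_mem_nhdsWithin, h8] with t h9 h10
      have h9' : 0 < t := h9
      refine h _ ?_
      rw [mem_ball_zero_iff, norm_smul, h3.1, mul_one]
      have : (1 - (t : ℂ)) = ((1 - t : ℝ) : ℂ) := by push_cast; ring
      rw [this, Complex.norm_real, Real.norm_of_nonneg (by linarith)]
      linarith
    have h8 : F ζ = 0 := tendsto_nhds_unique h6 ((tendsto_congr' h7).2 tendsto_const_nhds)
    rw [h8, norm_zero] at h3
    exact zero_ne_one h3.2
  have hK0 : K 0 = 0 := by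
    have h1 := hKF 0 (mem_ball_self one_pos)
    rw [h0, hk0] at h1
    exact h1.symm
  have hzero := disc_end hK hK0 (fun w hw => by
    obtain ⟨z, hz, hzw⟩ := prime_onto hF h0 hv hFv hP hw
    have h1 := hre z hz
    rw [hKF z hz, hzw] at h1
    exact h1)
  intro z hz
  rw [hKF z hz]
  exact hzero _ (mem_ball_zero_iff.2 (hlt z hz))

end

end

end Pool.Agent.Lib.MP_6ff8d9_an.H82L
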