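import Pool.Agent.Lib.MP_6ff8d9_an_h82.Fibc
import Pool.Agent.Lib.MP_6ff8d9_an_h82.PrimeExt
import Pool.Agent.Lib.MP_6ff8d9_an_h69.Rows

/-!
# MP_6ff8d9: connected level sets imply prime
-/

open Metric Filter Topology Set

namespace Pool.Agent.Lib.MP_6ff8d9_an.H82L

open Pool.Agent.Lib.MP_6ff8d9_an
open Pool.Agent.Lib.MP_6ff8d9_an.H22

noncomputable section

variable {n : ℕ}

lemma primeF_iff (F : Cn n → ℂ) : P69.PrimeF n F ↔ PrimeF F := by
  constructor
  · intro h k hk hW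
    exact h k hk fun z hz v v' => by
      have := hW z hz v' v
      linear_combination this
  · intro h k hk hW
    exact h k hk fun z hz x y => by
      have := hW z hz y x
      linear_combination this

/-- FIBC on `Cn n` -/
lemma fibc_cn (hFI : FIBC) {F k : Cn n → ℂ} (hF : DifferentiableOn ℂ F (ball 0 1))
    (hk : DifferentiableOn ℂ k (ball 0 1)) (hD : P69.Dep F k)
    (hne : ∃ z ∈ ball (0 : Cn n) 1, F z ≠ F 0) {z₀ : Cn n} (hz₀ : z₀ ∈ ball (0 : Cn n) 1) :
    ∀ᶠ z in 𝓝 z₀, F z = F z₀ → k z = k z₀ := by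
  have h1 := hFI n (fun z => F (WithLp.toLp 2 z)) (fun z => k (WithLp.toLp 2 z))
    (diff_transfer hF) (diff_transfer hk) (by
      intro z hz x y
      have hz' := toLp_mem hz
      have hkd := (hk _ hz').differentiableAt (isOpen_ball.mem_nhds hz')
      have hFd := (hF _ hz').differentiableAt (isOpen_ball.mem_nhds hz')
      have e1 := fderiv_transfer hkd (WithLp.toLp 2 x)
      have e2 := fderiv_transfer hkd (WithLp.toLp 2 y)
      have e3 := fderiv_transfer hFd (WithLp.toLp 2 x)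
      have e4 := fderiv_transfer hFd (WithLp.toLp 2 y)
      simp only [toF_toLp] at e1 e2 e3 e4
      rw [e1, e2, e3, e4]
      have := hD _ hz' (WithLp.toLp 2 y) (WithLp.toLp 2 x)
      linear_combination this) (by
      obtain ⟨z, hz, h⟩ := hne
      exact ⟨toF z, (mem_ball_toF z).1 hz, h⟩) (toF z₀) ((mem_ball_toF z₀).1 hz₀)
  have hc : Tendsto (toF : Cn n → Fin n → ℂ) (𝓝 z₀) (𝓝 (toF z₀)) := by
    have : Continuous (toF : Cn n → Fin n → ℂ) := by
      unfold toF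
      fun_prop
    exact this.tendsto z₀
  exact hc.eventually h1

/-- connected level sets imply prime -/
theorem levprime (hFI : FIBC) (hKOF : P69.KOF) (hS : P69.SECT) (F : Cn n → ℂ) (E : Set ℂ)
    (hF : P69.Hol n F) (hE : E.Finite)
    (honto : ∀ c ∈ ball (0 : ℂ) 1, ∃ z ∈ ball (0 : Cn n) 1, F z = c)
    (hconn : ∀ c ∈ ball (0 : ℂ) 1 \ E, IsPreconnected {z : Cn n | ‖z‖ < 1 ∧ F z = c}) :
    P69.PrimeF n F := by
  intro k hk hD
  have hFd : ∀ z ∈ ball (0 : Cn n) 1, DifferentiableAt ℂ F z := fun z hz =>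
    (hF.an z hz).differentiableAt (isOpen_ball.mem_nhds hz)
  have hkc : ∀ z ∈ ball (0 : Cn n) 1, ContinuousAt k z := fun z hz =>
    ((hk z hz).differentiableAt (isOpen_ball.mem_nhds hz)).continuousAt
  -- nonconstant
  obtain ⟨c, hc, hcne⟩ : ∃ c ∈ ball (0 : ℂ) 1, c ≠ F 0 := by
    by_cases h : F 0 = 0
    · refine ⟨1 / 2, ?_, ?_⟩
      · rw [mem_ball_zero_iff]
        norm_num
      · rw [h]
        norm_num
    · exact ⟨0, mem_ball_self one_pos, fun h' => h h'.symm⟩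
  obtain ⟨z', hz', hFz'⟩ := honto c hc
  have hne : ∃ z ∈ ball (0 : Cn n) 1, F z ≠ F 0 := ⟨z', hz', by rw [hFz']; exact hcne⟩
  -- a direction
  obtain ⟨e, he⟩ : ∃ e, (P69.Oe F e).Nonempty := by
    by_contra hcon
    push Not at hcon
    have h1 : ∀ z ∈ ball (0 : Cn n) 1, fderiv ℂ F z = 0 := by
      intro z hz
      ext v
      by_contra hv
      have h2 : z ∈ P69.Oe F v := ⟨hz, hv⟩
      rw [hcon v] at h2
      exact h2
    have h2 : F z' = F 0 := by
      refine isOpen_ball.is_const_of_fderiv_eq_zero (convex_ball (0 : Cn n) 1).isPreconnected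
        hF.an (fun z hz => h1 z hz) hz' (mem_ball_self one_pos)
    rw [hFz'] at h2
    exact hcne h2
  refine hKOF n F k e hF hk honto he ?_
  -- constant on good level sets
  have hgood : ∀ z ∈ ball (0 : Cn n) 1, ∀ z' ∈ ball (0 : Cn n) 1, F z = F z' → F z ∉ E →
      k z = k z' := by
    intro z hz z' hz' hzz' hzE
    have hcz : F z ∈ ball (0 : ℂ) 1 \ E := ⟨mem_ball_zero_iff.2 (hF.lt z hz), hzE⟩
    refine (hconn (F z) hcz).induction₂ (fun x y => k x = k y) ?_
      (fun a b c _ _ _ h1 h2 => h1.trans h2) (fun a b _ _ h1 => h1.symm)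
      (x := z) (y := z') ⟨mem_ball_zero_iff.1 hz, rfl⟩ ⟨mem_ball_zero_iff.1 hz', hzz'.symm⟩
    intro a ha
    have h1 := fibc_cn hFI hF.an hk hD hne (mem_ball_zero_iff.2 ha.1)
    filter_upwards [mem_nhdsWithin_of_mem_nhds h1, self_mem_nhdsWithin] with b hb1 hb2
    exact (hb1 (hb2.2.trans ha.2.symm)).symm
  intro z hz z' hz' hzz'
  have hOo : IsOpen (ball (0 : Cn n) 1) := isOpen_ball
  have hnz : fderiv ℂ F z ≠ 0 := fun h => hz.2 (by rw [h]; rfl)
  have hnz' : fderiv ℂ F z' ≠ 0 := fun h => hz'.2 (by rw [h]; rfl)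
  obtain ⟨ε, hε, σ, hσ0, hσd, hσ⟩ := hS n F (ball 0 1) hOo hF.an z hz.1 hnz
  obtain ⟨ε', hε', σ', hσ0', hσd', hσ'⟩ := hS n F (ball 0 1) hOo hF.an z' hz'.1 hnz'
  have hev : ∀ᶠ w in 𝓝[≠] (F z), k (σ w) = k (σ' w) := by
    have h1 : ∀ᶠ w in 𝓝[≠] (F z), w ∈ ball (F z) ε := mem_nhdsWithin_of_mem_nhds (ball_mem_nhds _ hε)
    have h2 : ∀ᶠ w in 𝓝[≠] (F z), w ∈ ball (F z') ε' := by
      rw [hzz']
      exact mem_nhdsWithin_of_mem_nhds (ball_mem_nhds _ hε')
    have h3 : ∀ᶠ w in 𝓝[≠] (F z), w ∉ E := by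
      have h4 : (E \ {F z})ᶜ ∈ 𝓝 (F z) :=
        (hE.subset sdiff_subset).isClosed.isOpen_compl.mem_nhds fun h => h.2 rfl
      filter_upwards [mem_nhdsWithin_of_mem_nhds h4, self_mem_nhdsWithin] with w h5 h6 h7
      exact h5 ⟨h7, h6⟩
    filter_upwards [h1, h2, h3] with w h4 h5 h6
    refine hgood _ (hσ w h4).1 _ (hσ' w h5).1 ?_ ?_
    · rw [(hσ w h4).2, (hσ' w h5).2]
    · rw [(hσ w h4).2]
      exact h6
  have hc1 : Tendsto (fun w => k (σ w)) (𝓝[≠] (F z)) (𝓝 (k z)) := by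
    have h1 : ContinuousAt σ (F z) :=
      ((hσd _ (mem_ball_self hε)).differentiableAt (isOpen_ball.mem_nhds (mem_ball_self hε))).continuousAt
    have h2 : ContinuousAt k (σ (F z)) := hkc _ (by rw [hσ0]; exact hz.1)
    have h3 : ContinuousAt (fun w => k (σ w)) (F z) := ContinuousAt.comp (g := k) h2 h1
    have h4 := h3.tendsto
    simp only [hσ0] at h4
    exact h4.mono_left nhdsWithin_le_nhds
  have hc2 : Tendsto (fun w => k (σ' w)) (𝓝[≠] (F z)) (𝓝 (k z')) := by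
    have h1 : ContinuousAt σ' (F z') :=
      ((hσd' _ (mem_ball_self hε')).differentiableAt
        (isOpen_ball.mem_nhds (mem_ball_self hε'))).continuousAt
    have h2 : ContinuousAt k (σ' (F z')) := hkc _ (by rw [hσ0']; exact hz'.1)
    have h3 : ContinuousAt (fun w => k (σ' w)) (F z') := ContinuousAt.comp (g := k) h2 h1
    have h4 := h3.tendsto
    simp only [hσ0'] at h4
    rw [hzz']
    exact h4.mono_left nhdsWithin_le_nhds
  exact tendsto_nhds_unique (hc1.congr' hev) hc2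

end

end Pool.Agent.Lib.MP_6ff8d9_an.H82L
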