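import Pool.Agent.Lib.MP_6ff8d9_an.Defs

/-!
# MP_6ff8d9, hand-in Prime: the definitions

`F : Cn n → ℂ` is a function on `ℂⁿ`; except in `HasContact`, only its values on the open unit ball
`𝔹` matter.
-/

open Metric Filter Topology

namespace Pool.Agent.Lib.MP_6ff8d9_an.PR

open Pool.Agent.Lib.MP_6ff8d9_an

noncomputable section

variable {n : ℕ}

/-- `F` is prime: every holomorphic function `k` on the ball with `dk ∧ dF = 0` is of the form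
`k = K ∘ F` with `K` holomorphic on the unit disc. -/
def IsPrime (F : Cn n → ℂ) : Prop :=
  ∀ k : Cn n → ℂ, DifferentiableOn ℂ k (ball 0 1) →
    (∀ z ∈ ball (0 : Cn n) 1, ∀ x y, fderiv ℂ k z x * fderiv ℂ F z y =
      fderiv ℂ k z y * fderiv ℂ F z x) →
    ∃ K : ℂ → ℂ, DifferentiableOn ℂ K (ball 0 1) ∧ ∀ z ∈ ball (0 : Cn n) 1, k z = K (F z)

/-- `F` is irreducible (Forelli): `F` is not constant on the ball, and whenever `F = φ ψ` on the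
ball with `φ`, `ψ` holomorphic and `|φ| ≤ 1`, `|ψ| ≤ 1` there, one of the two factors is constant on
the ball. -/
def IsIrreducible (F : Cn n → ℂ) : Prop :=
  (∃ z ∈ ball (0 : Cn n) 1, F z ≠ F 0) ∧
  ∀ φ ψ : Cn n → ℂ, DifferentiableOn ℂ φ (ball 0 1) → DifferentiableOn ℂ ψ (ball 0 1) →
    (∀ z ∈ ball (0 : Cn n) 1, ‖φ z‖ ≤ 1 ∧ ‖ψ z‖ ≤ 1 ∧ F z = φ z * ψ z) →
    (∀ z ∈ ball (0 : Cn n) 1, φ z = φ 0) ∨ (∀ z ∈ ball (0 : Cn n) 1, ψ z = ψ 0)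

/-- The closed unit ball of `H^∞(𝔹)`. -/
def HInfBall (n : ℕ) : Set (Cn n → ℂ) :=
  {F | DifferentiableOn ℂ F (ball 0 1) ∧ ∀ z ∈ ball (0 : Cn n) 1, ‖F z‖ ≤ 1}

/-- `F` is an extreme point of the closed unit ball of `H^∞(𝔹)`. -/
def IsExtremeHInf (F : Cn n → ℂ) : Prop :=
  F ∈ HInfBall n ∧ ∀ F₁ ∈ HInfBall n, ∀ F₂ ∈ HInfBall n, ∀ t : ℝ, 0 < t → t < 1 →
    (∀ z ∈ ball (0 : Cn n) 1, F z = t * F₁ z + (1 - t) * F₂ z) →
    ∀ z ∈ ball (0 : Cn n) 1, F₁ z = F₂ z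

/-- There is a point `ζ` of the unit sphere such that `F` is holomorphic near `ζ`, and `|F| = 1` on
an `n`-dimensional real-analytic submanifold of the unit sphere through `ζ`. The submanifold is
given as the image of the real points near `0` under a map `Θ`, holomorphic near `0` in `ℂⁿ`, with
`Θ 0 = ζ`, whose restriction to the real points is an immersion at `0`. -/
def HasContact (F : Cn n → ℂ) : Prop :=
  ∃ (ζ : Cn n) (Θ : Cn n → Cn n), (∀ᶠ z in 𝓝 ζ, DifferentiableAt ℂ F z) ∧ Θ 0 = ζ ∧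
    (∀ᶠ y in 𝓝 (0 : Cn n), DifferentiableAt ℂ Θ y) ∧
    (∀ x : Cn n, (∀ i, (x i).im = 0) → fderiv ℂ Θ 0 x = 0 → x = 0) ∧
    ∀ᶠ x in 𝓝 (0 : Cn n), (∀ i, (x i).im = 0) → ‖Θ x‖ = 1 ∧ ‖F (Θ x)‖ = 1

end

end Pool.Agent.Lib.MP_6ff8d9_an.PR
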