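import Pool.Agent.Lib.MP_6ff8d9_an_h82.Tfae
import Pool.Agent.Lib.MP_6ff8d9_an_h69.RowsU
import Pool.Agent.Lib.MP_6ff8d9_an_h22.Irred

/-!
# MP_6ff8d9: extreme, irreducible, prime: the final theorem
-/

open Metric Filter Topology Set
open scoped ComplexConjugate

namespace Pool.Agent.Lib.MP_6ff8d9_an.H82L

open Pool.Agent.Lib.MP_6ff8d9_an

noncomputable section

variable {n : ℕ}

/-- `F` is irreducible (Forelli): it is not constant on the ball, and whenever `F = φ ψ` on the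
ball with `φ`, `ψ` holomorphic and `|φ|, |ψ| ≤ 1`, one of the factors is constant on the ball -/
def IrreducibleF (F : Cn n → ℂ) : Prop :=
  (∃ z ∈ ball (0 : Cn n) 1, F z ≠ F 0) ∧
  ∀ φ ψ : Cn n → ℂ, DifferentiableOn ℂ φ (ball 0 1) → DifferentiableOn ℂ ψ (ball 0 1) →
    (∀ z ∈ ball (0 : Cn n) 1, ‖φ z‖ ≤ 1 ∧ ‖ψ z‖ ≤ 1 ∧ F z = φ z * ψ z) →
    (∀ z ∈ ball (0 : Cn n) 1, φ z = φ 0) ∨ (∀ z ∈ ball (0 : Cn n) 1, ψ z = ψ 0)

/-- an extreme point comes from a nonconstant function -/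
lemma nonconst_of_extreme (hn : 1 ≤ n) {F : Cn n → ℂ} (h0 : F 0 = 0)
    (hex : IsExtremePoint n (fun z => (1 + F z) / (1 - F z))) :
    ∃ z ∈ ball (0 : Cn n) 1, F z ≠ F 0 := by
  by_contra hcon
  push Not at hcon
  refine P69.not_extreme_one hn _ (fun z hz => ?_) hex
  show (1 + F z) / (1 - F z) = 1
  rw [hcon z hz, h0]
  norm_num

/-- Forelli: an extreme point comes from an irreducible function -/
lemma irreducible_of_extreme (hn : 1 ≤ n) {F : Cn n → ℂ} (hF : P69.Hol n F) (h0 : F 0 = 0)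
    (hex : IsExtremePoint n (fun z => (1 + F z) / (1 - F z))) : IrreducibleF F := by
  refine ⟨nonconst_of_extreme hn h0 hex, fun φ ψ hφ hψ hb => ?_⟩
  have h1 := irredM_of_extreme hF h0 hex 0 (by simp) φ ψ hφ hψ
  refine h1 fun z hz => ?_
  obtain ⟨h2, h3, h4⟩ := hb z hz
  refine ⟨h2, h3, ?_⟩
  rw [← h4]
  simp

/-- extreme, irreducible, prime -/
theorem prime_main (hIP : P69.IRRPRIME) (n : ℕ) (hn : 1 ≤ n) (F : Cn n → ℂ)
    (hF : DifferentiableOn ℂ F (ball 0 1)) (hlt : ∀ z ∈ ball (0 : Cn n) 1, ‖F z‖ < 1)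
    (h0 : F 0 = 0) :
    (IsExtremePoint n (fun z => (1 + F z) / (1 - F z)) → IrreducibleF F) ∧
    (IrreducibleF F → PrimeF F) ∧
    ((∃ ζ, GoodPt F ζ) → PrimeF F → IsExtremePoint n (fun z => (1 + F z) / (1 - F z))) := by
  have hH : P69.Hol n F := ⟨hF, hlt⟩
  refine ⟨irreducible_of_extreme hn hH h0, fun hI => ?_, ?_⟩
  · obtain ⟨z, hz, hne⟩ := hI.1
    rw [h0] at hne
    exact (primeF_iff _).1 (hIP n F hH h0 ⟨z, hz, hne⟩ hI.2)
  · rintro ⟨ζ, hg⟩ hP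
    obtain ⟨ζ', hg', hne⟩ := good_ne_one hlt hg
    exact primeext H99.contl extl n F ζ' hF hlt h0 hg' hne hP

end

end Pool.Agent.Lib.MP_6ff8d9_an.H82L
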