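import Pool.Agent.Lib.MP_6ff8d9_an_h82.PDefs
import Pool.Agent.Lib.MP_6ff8d9_an_h82.PrimeThm
import Pool.Agent.Lib.MP_6ff8d9_an_h82.Imm
import Pool.Agent.Lib.MP_6ff8d9_an_h69.FinalU
import Pool.Agent.Lib.MP_6ff8d9_an_h22.Hinf

/-!
# MP_6ff8d9, hand-in Prime: the final theorem
-/

open Metric Filter Topology Set

namespace Pool.Agent.Lib.MP_6ff8d9_an.PR

open Pool.Agent.Lib.MP_6ff8d9_an

noncomputable section

variable {n : ℕ}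

lemma isPrime_iff (F : Cn n → ℂ) : IsPrime F ↔ H82L.PrimeF F := Iff.rfl

lemma isIrreducible_iff (F : Cn n → ℂ) : IsIrreducible F ↔ H82L.IrreducibleF F := Iff.rfl

lemma isExtremeHInf_iff (F : Cn n → ℂ) : IsExtremeHInf F ↔ H22.ExtH n F := Iff.rfl

lemma hasContact_imm {F : Cn n → ℂ} (h : HasContact F) : ∃ ζ, H82L.ImmPt F ζ := by
  obtain ⟨ζ, Θ, h1, h2, h3, h4, h5⟩ := h
  exact ⟨ζ, h1, Θ, h2, h3, h4, h5⟩

/-- theorem U -/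
theorem uniformise {F : Cn n → ℂ} (hF : DifferentiableOn ℂ F (ball 0 1))
    (hlt : ∀ z ∈ ball (0 : Cn n) 1, ‖F z‖ < 1) (h0 : F 0 = 0)
    (hne : ∃ z ∈ ball (0 : Cn n) 1, F z ≠ 0) :
    ∃ (W : Cn n → ℂ) (h : ℂ → ℂ), DifferentiableOn ℂ W (ball 0 1) ∧
      W '' ball 0 1 = ball (0 : ℂ) 1 ∧ W 0 = 0 ∧ IsPrime W ∧
      DifferentiableOn ℂ h (ball 0 1) ∧ MapsTo h (ball 0 1) (ball 0 1) ∧ h 0 = 0 ∧
      ∀ z ∈ ball (0 : Cn n) 1, F z = h (W z) := by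
  obtain ⟨W, h, hW, hW0, hWP, honto, hh, hh0, hhlt, heq⟩ := H69F.unif n F ⟨hF, hlt⟩ h0 hne
  refine ⟨W, h, hW.an, ?_, hW0, (H82L.primeF_iff W).1 hWP, hh, ?_, hh0, heq⟩
  · apply Subset.antisymm
    · rintro _ ⟨z, hz, rfl⟩
      exact mem_ball_zero_iff.2 (hW.lt z hz)
    · intro w hw
      obtain ⟨z, hz, hzw⟩ := honto w hw
      exact ⟨z, hz, hzw⟩
  · intro w hw
    exact mem_ball_zero_iff.2 (hhlt w hw)

/-- an extreme point comes from an extreme point of the unit ball of `H^∞` -/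
theorem hinf_of_extreme (hn : 1 ≤ n) {F : Cn n → ℂ} (hF : DifferentiableOn ℂ F (ball 0 1))
    (hlt : ∀ z ∈ ball (0 : Cn n) 1, ‖F z‖ < 1)
    (hex : IsExtremePoint n (fun z => (1 + F z) / (1 - F z))) : IsExtremeHInf F :=
  H22.extH_of_star ⟨hF, fun z hz => (hlt z hz).le⟩ (H22.star_of_extreme hn ⟨hF, hlt⟩ hex)

end

end Pool.Agent.Lib.MP_6ff8d9_an.PR
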