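import Pool.Agent.Lib.MP_6ff8d9_an_h82.PFinal

/-!
# MP_6ff8d9, hand-in Prime: when `h ∘ W` is prime
-/

open Metric Filter Topology Set

namespace Pool.Agent.Lib.MP_6ff8d9_an.PR

open Pool.Agent.Lib.MP_6ff8d9_an

noncomputable section

variable {n : ℕ}

/-- a self-map of the disc with `|h w| = |w|` is a rotation -/
lemma rot_of_norm_eq {h : ℂ → ℂ} (hh : DifferentiableOn ℂ h (ball 0 1))
    (hn : ∀ w ∈ ball (0 : ℂ) 1, ‖h w‖ = ‖w‖) :
    ∃ c : ℂ, ‖c‖ = 1 ∧ ∀ w ∈ ball (0 : ℂ) 1, h w = c * w := by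
  have h0 : h 0 = 0 := by
    have h1 := hn 0 (mem_ball_self one_pos)
    rwa [norm_zero, norm_eq_zero] at h1
  have hd : DifferentiableOn ℂ (dslope h 0) (ball 0 1) :=
    (Complex.differentiableOn_dslope (isOpen_ball.mem_nhds (mem_ball_self one_pos))).2 hh
  have hne : ∀ w ∈ ball (0 : ℂ) 1, w ≠ 0 → ‖dslope h 0 w‖ = 1 := by
    intro w hw hw0
    rw [dslope_of_ne _ hw0, slope_def_field, h0, sub_zero, sub_zero, norm_div, hn w hw,
      div_self (norm_ne_zero_iff.2 hw0)]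
  have hall : ∀ w ∈ ball (0 : ℂ) 1, ‖dslope h 0 w‖ = 1 := by
    intro w hw
    by_cases hw0 : w = 0
    · subst hw0
      have hcont : ContinuousAt (fun w => ‖dslope h 0 w‖) 0 :=
        ((hd 0 hw).differentiableAt (isOpen_ball.mem_nhds hw)).continuousAt.norm
      have h1 : Tendsto (fun w => ‖dslope h 0 w‖) (𝓝[≠] 0) (𝓝 ‖dslope h 0 0‖) :=
        hcont.tendsto.mono_left nhdsWithin_le_nhds
      have h2 : Tendsto (fun w => ‖dslope h 0 w‖) (𝓝[≠] (0 : ℂ)) (𝓝 1) := by
        refine tendsto_const_nhds.congr' ?_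
        filter_upwards [mem_nhdsWithin_of_mem_nhds (isOpen_ball.mem_nhds hw),
          self_mem_nhdsWithin] with z hz hz0
        exact (hne z hz hz0).symm
      exact tendsto_nhds_unique h1 h2
    · exact hne w hw hw0
  have hmax : IsMaxOn (norm ∘ dslope h 0) (ball 0 1) 0 := by
    intro w hw
    show ‖dslope h 0 w‖ ≤ ‖dslope h 0 0‖
    rw [hall w hw, hall 0 (mem_ball_self one_pos)]
  have hE := Complex.eqOn_of_isPreconnected_of_isMaxOn_norm
    (convex_ball (0 : ℂ) 1).isPreconnected isOpen_ball hd (mem_ball_self one_pos) hmax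
  refine ⟨dslope h 0 0, hall 0 (mem_ball_self one_pos), fun w hw => ?_⟩
  have h1 : dslope h 0 w = dslope h 0 0 := hE hw
  rw [← h1]
  have h2 := sub_smul_dslope h 0 w
  rw [sub_zero, h0, sub_zero, smul_eq_mul] at h2
  rw [← h2, mul_comm]

/-- `h ∘ W` is prime exactly when `h` is a rotation, if `W` is prime and onto -/
theorem prime_iff_rot {F W : Cn n → ℂ} {h : ℂ → ℂ} (hF : DifferentiableOn ℂ F (ball 0 1))
    (h0 : F 0 = 0) (hne : ∃ z ∈ ball (0 : Cn n) 1, F z ≠ 0)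
    (hW : DifferentiableOn ℂ W (ball 0 1)) (hWo : W '' ball 0 1 = ball (0 : ℂ) 1) (hW0 : W 0 = 0)
    (hWP : IsPrime W) (hh : DifferentiableOn ℂ h (ball 0 1))
    (hm : MapsTo h (ball 0 1) (ball 0 1)) (hh0 : h 0 = 0)
    (heq : ∀ z ∈ ball (0 : Cn n) 1, F z = h (W z)) :
    IsPrime F ↔ ∃ c : ℂ, ‖c‖ = 1 ∧ ∀ w ∈ ball (0 : ℂ) 1, h w = c * w := by
  have hWm : ∀ z ∈ ball (0 : Cn n) 1, W z ∈ ball (0 : ℂ) 1 := fun z hz => by
    rw [← hWo]
    exact mem_image_of_mem W hz
  have hfd : ∀ z ∈ ball (0 : Cn n) 1, ∀ x,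
      fderiv ℂ F z x = deriv h (W z) * fderiv ℂ W z x := by
    intro z hz x
    have e1 : F =ᶠ[𝓝 z] fun z => h (W z) := by
      filter_upwards [isOpen_ball.mem_nhds hz] with y hy
      exact heq y hy
    have hWd : HasFDerivAt W (fderiv ℂ W z) z :=
      ((hW z hz).differentiableAt (isOpen_ball.mem_nhds hz)).hasFDerivAt
    have hhd : HasDerivAt h (deriv h (W z)) (W z) :=
      ((hh _ (hWm z hz)).differentiableAt (isOpen_ball.mem_nhds (hWm z hz))).hasDerivAt
    have h1 : HasFDerivAt (fun z => h (W z)) (deriv h (W z) • fderiv ℂ W z) z :=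
      hhd.comp_hasFDerivAt z hWd
    rw [e1.fderiv_eq, h1.fderiv]
    rfl
  constructor
  · intro hP
    obtain ⟨K, hK, hKF⟩ := hP W hW (fun z hz x y => by rw [hfd z hz x, hfd z hz y]; ring)
    obtain ⟨v, hv, hFv⟩ := hne
    have hKm : MapsTo K (ball 0 1) (ball 0 1) := by
      intro c hc
      obtain ⟨z, hz, rfl⟩ := H82L.prime_onto hF h0 hv hFv hP hc
      rw [← hKF z hz]
      exact hWm z hz
    have hK0 : K 0 = 0 := by
      have h1 := hKF 0 (mem_ball_self one_pos)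
      rw [h0, hW0] at h1
      exact h1.symm
    refine rot_of_norm_eq hh fun w hw => ?_
    have hKh : K (h w) = w := by
      rw [← hWo] at hw
      obtain ⟨z, hz, rfl⟩ := hw
      rw [← heq z hz, ← hKF z hz]
    have hw1 : ‖w‖ < 1 := mem_ball_zero_iff.1 hw
    have h1 : ‖h w‖ ≤ ‖w‖ := Complex.norm_le_norm_of_mapsTo_ball hh (hm.mono_right ball_subset_closedBall) hh0 hw1
    have h2 : ‖K (h w)‖ ≤ ‖h w‖ :=
      Complex.norm_le_norm_of_mapsTo_ball hK (hKm.mono_right ball_subset_closedBall) hK0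
        (mem_ball_zero_iff.1 (hm hw))
    rw [hKh] at h2
    exact le_antisymm h1 h2
  · rintro ⟨c, hc, hcw⟩
    have hc0 : c ≠ 0 := by
      rw [← norm_ne_zero_iff, hc]
      exact one_ne_zero
    have hder : ∀ w ∈ ball (0 : ℂ) 1, deriv h w = c := by
      intro w hw
      have e1 : h =ᶠ[𝓝 w] fun w => c * w := by
        filter_upwards [isOpen_ball.mem_nhds hw] with y hy
        exact hcw y hy
      rw [e1.deriv_eq, deriv_const_mul_field, deriv_id'', mul_one]
    intro k hk hkF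
    obtain ⟨K, hK, hKW⟩ := hWP k hk (fun z hz x y => by
      have h1 := hkF z hz x y
      rw [hfd z hz x, hfd z hz y, hder _ (hWm z hz)] at h1
      have h2 : c * (fderiv ℂ k z x * fderiv ℂ W z y) = c * (fderiv ℂ k z y * fderiv ℂ W z x) := by
        linear_combination h1
      exact mul_left_cancel₀ hc0 h2)
    refine ⟨fun w => K (c⁻¹ * w), ?_, fun z hz => ?_⟩
    · refine hK.comp (differentiableOn_id.const_mul c⁻¹) fun w hw => ?_
      rw [mem_ball_zero_iff] at hw ⊢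
      show ‖c⁻¹ * w‖ < 1
      rw [norm_mul, norm_inv, hc, inv_one, one_mul]
      exact hw
    · show k z = K (c⁻¹ * F z)
      rw [hKW z hz, heq z hz, hcw _ (hWm z hz), inv_mul_cancel_left₀ hc0]

end

end Pool.Agent.Lib.MP_6ff8d9_an.PR
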