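import Pool.Agent.Lib.MP_6ff8d9_an_h82.RowsL

/-!
# MP_6ff8d9: prime functions, the statements
-/

open Metric Filter Topology

namespace Pool.Agent.Lib.MP_6ff8d9_an.H82L

open Pool.Agent.Lib.MP_6ff8d9_an

noncomputable section

/-- `F` is prime: every holomorphic function `k` on the ball with `dk ∧ dF = 0` is a function
`K ∘ F` with `K` holomorphic on the unit disc. -/
def PrimeF {n : ℕ} (F : Cn n → ℂ) : Prop :=
  ∀ k : Cn n → ℂ, DifferentiableOn ℂ k (ball 0 1) →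
    (∀ z ∈ ball (0 : Cn n) 1, ∀ x y, fderiv ℂ k z x * fderiv ℂ F z y =
      fderiv ℂ k z y * fderiv ℂ F z x) →
    ∃ K : ℂ → ℂ, DifferentiableOn ℂ K (ball 0 1) ∧ ∀ z ∈ ball (0 : Cn n) 1, k z = K (F z)

/-- a prime function with a good boundary point gives an extreme point -/
def PRIMEEXT : Prop := ∀ (n : ℕ) (F : Cn n → ℂ) (ζ : Cn n),
  DifferentiableOn ℂ F (ball 0 1) → (∀ z ∈ ball (0 : Cn n) 1, ‖F z‖ < 1) → F 0 = 0 →
  GoodPt F ζ → F ζ ≠ 1 → PrimeF F → IsExtremePoint n (fun z => (1 + F z) / (1 - F z))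

/-- **THEOREM G** (helper69): every extreme point comes from a prime function -/
def THMG : Prop := ∀ (n : ℕ) (F : Cn n → ℂ), 1 ≤ n →
  DifferentiableOn ℂ F (ball 0 1) → (∀ z ∈ ball (0 : Cn n) 1, ‖F z‖ < 1) → F 0 = 0 →
  IsExtremePoint n (fun z => (1 + F z) / (1 - F z)) → PrimeF F

/-- connected level sets (off a finite set of values) imply prime -/
def LEVPRIME : Prop := ∀ (n : ℕ) (F : Cn n → ℂ) (E : Set ℂ),
  DifferentiableOn ℂ F (ball 0 1) → (∀ z ∈ ball (0 : Cn n) 1, ‖F z‖ < 1) → E.Finite →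
  (∀ c ∈ ball (0 : ℂ) 1 \ E, IsConnected {z : Cn n | ‖z‖ < 1 ∧ F z = c}) → PrimeF F

end

end Pool.Agent.Lib.MP_6ff8d9_an.H82L
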