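import Pool.Agent.Lib.MP_6ff8d9_an_h99.Cone
import Pool.Agent.Lib.MP_6ff8d9_an_h22.Rows

/-!
# MP_6ff8d9, THEOREM L: level sets connected in the ball and one good contact point imply extreme

`F : Cn n → ℂ` is an arbitrary holomorphic function on the ball (not necessarily rational).
-/

open Metric Filter Topology

namespace Pool.Agent.Lib.MP_6ff8d9_an.H82L

open Pool.Agent.Lib.MP_6ff8d9_an

noncomputable section

/-- `ζ` is a good boundary point of `F`: `F` is holomorphic near `ζ`, and near `ζ` the set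
`{|z| = 1, |F z| = 1}` contains a maximal totally real real-analytic submanifold through `ζ` (the
image of the real points under a biholomorphic chart `Θ`). -/
structure GoodPt {n : ℕ} (F : Cn n → ℂ) (ζ : Cn n) : Prop where
  hol : ∀ᶠ z in 𝓝 ζ, DifferentiableAt ℂ F z
  chart : ∃ Θ : Cn n → Cn n, Θ 0 = ζ ∧ (∀ᶠ y in 𝓝 0, DifferentiableAt ℂ Θ y) ∧
    (∃ A : Cn n ≃L[ℂ] Cn n, HasFDerivAt Θ (A : Cn n →L[ℂ] Cn n) 0) ∧
    ∀ᶠ x in 𝓝 (0 : Cn n), (∀ i, (x i).im = 0) → ‖Θ x‖ = 1 ∧ ‖F (Θ x)‖ = 1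

/-- row L1: a good boundary point is a contact point in the sense of helper99 -/
def CONTL : Prop := ∀ (n : ℕ) (F : Cn n → ℂ) (ζ : Cn n), DifferentiableOn ℂ F (ball 0 1) →
  (∀ z ∈ ball (0 : Cn n) 1, ‖F z‖ < 1) → F 0 = 0 → GoodPt F ζ →
  ∃ Ψ : (Fin n → ℂ) → (Fin n → ℂ), H99.Contact (fun z => F (WithLp.toLp 2 z)) Ψ (fun i => ζ i)

/-- `dh ∧ dF = 0` on the ball -/
def Wdg {n : ℕ} (F h : (Fin n → ℂ) → ℂ) : Prop :=
  ∀ z ∈ H22.Bn n, ∀ x y, fderiv ℂ h z x * fderiv ℂ F z y = fderiv ℂ h z y * fderiv ℂ F z x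

/-- row RESD: weighted argument principle on a disc -/
def RESD : Prop := ∀ (r : ℝ) (V : Set ℂ) (D : ℂ → ℂ), 0 < r → IsOpen V → closedBall 0 r ⊆ V →
  DifferentiableOn ℂ D V → (∀ l ∈ sphere (0 : ℂ) r, D l ≠ 0) →
  ∃ (N : ℕ) (p : Fin N → ℂ), (∀ i, p i ∈ ball 0 r) ∧ (∀ i, D (p i) = 0) ∧
    (∀ l ∈ closedBall (0 : ℂ) r, D l = 0 → ∃ i, p i = l) ∧
    ∀ h : ℂ → ℂ, DifferentiableOn ℂ h V →
      (∮ l in C(0, r), h l * (deriv D l / D l)) = 2 * Real.pi * Complex.I * ∑ i, h (p i)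

/-- row SCONST: the weighted sums over the roots on the lines parallel to `e` do not depend on
the line (the derivative in the direction `v` of the integrand is
`d/dl [h F_v / (F - F z₀)]`) -/
def SCONST : Prop := ∀ (n : ℕ) (F h : (Fin n → ℂ) → ℂ) (z₀ e : Fin n → ℂ) (r : ℝ),
  DifferentiableOn ℂ F (H22.Bn n) → DifferentiableOn ℂ h (H22.Bn n) → Wdg F h → 0 < r →
  (∀ l : ℂ, ‖l‖ ≤ r → z₀ + l • e ∈ H22.Bn n) → (∀ l : ℂ, ‖l‖ = r → F (z₀ + l • e) ≠ F z₀) →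
  ∀ᶠ z in 𝓝 z₀,
    (∮ l in C(0, r), h (z + l • e) * (fderiv ℂ F (z + l • e) e / (F (z + l • e) - F z₀))) =
    ∮ l in C(0, r), h (z₀ + l • e) * (fderiv ℂ F (z₀ + l • e) e / (F (z₀ + l • e) - F z₀))

/-- row FIBC: `k` is locally constant along the level sets of `F`, also at critical points -/
def FIBC : Prop := ∀ (n : ℕ) (F k : (Fin n → ℂ) → ℂ), DifferentiableOn ℂ F (H22.Bn n) →
  DifferentiableOn ℂ k (H22.Bn n) → Wdg F k → (∃ z ∈ H22.Bn n, F z ≠ F 0) →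
  ∀ z₀ ∈ H22.Bn n, ∀ᶠ z in 𝓝 z₀, F z = F z₀ → k z = k z₀

/-- row EXTL: no dominated function implies extreme -/
def EXTL : Prop := ∀ (n : ℕ) (g : Cn n → ℂ), g ∈ NB n →
  (∀ k : Cn n → ℂ, DifferentiableOn ℂ k (ball 0 1) → k 0 = 0 →
    (∀ z ∈ ball (0 : Cn n) 1, |(k z).re| ≤ (g z).re) → ∀ z ∈ ball (0 : Cn n) 1, k z = 0) →
  IsExtremePoint n g

/-- **THEOREM L** -/
def THML : Prop := ∀ (n : ℕ) (F : Cn n → ℂ) (ζ : Cn n) (E : Set ℂ),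
  DifferentiableOn ℂ F (ball 0 1) → (∀ z ∈ ball (0 : Cn n) 1, ‖F z‖ < 1) → F 0 = 0 →
  GoodPt F ζ → F ζ ≠ 1 → E.Finite →
  (∀ c ∈ ball (0 : ℂ) 1 \ E, IsConnected {z : Cn n | ‖z‖ < 1 ∧ F z = c}) →
  IsExtremePoint n (fun z => (1 + F z) / (1 - F z))

end

end Pool.Agent.Lib.MP_6ff8d9_an.H82L
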