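import Pool.Agent.Lib.MP_6ff8d9_an_h82.PrimeExt
import Pool.Agent.Lib.MP_6ff8d9_an_h82.Fibc
import Pool.Agent.Lib.MP_6ff8d9_an_h21r.Ext2

/-!
# MP_6ff8d9, THEOREM L, row SCONST
-/

open Metric Filter Topology Set MeasureTheory
open scoped ContDiff

namespace Pool.Agent.Lib.MP_6ff8d9_an.H82L

open Pool.Agent.Lib.MP_6ff8d9_an Pool.Agent.Lib.MP_6ff8d9_an.H22
open Pool.Agent.Lib.MP_6ff8d9_an.H22.Poinc

noncomputable section

variable {n : ℕ}

/-- `h F_x / (F - w₀)` -/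
def Ph (F h : (Fin n → ℂ) → ℂ) (w₀ : ℂ) (x p : Fin n → ℂ) : ℂ :=
  h p * (fderiv ℂ F p x / (F p - w₀))

/-- the domain -/
def V1 (F : (Fin n → ℂ) → ℂ) (w₀ : ℂ) : Set (Fin n → ℂ) := {z | z ∈ Bn n ∧ F z ≠ w₀}

lemma isOpen_V1 {F : (Fin n → ℂ) → ℂ} (hF : DifferentiableOn ℂ F (Bn n)) (w₀ : ℂ) :
    IsOpen (V1 F w₀) := by
  rw [isOpen_iff_mem_nhds]
  rintro z ⟨h1, h2⟩
  have h3 : ContinuousAt F z :=
    ((hF z h1).differentiableAt ((isOpen_Bn n).mem_nhds h1)).continuousAt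
  filter_upwards [(isOpen_Bn n).mem_nhds h1, h3.eventually_ne h2] with y h4 h5
  exact ⟨h4, h5⟩

/-- the derivative of `Ph` -/
lemma Ph_hasFDerivAt {F h : (Fin n → ℂ) → ℂ} (hF : DifferentiableOn ℂ F (Bn n))
    (hh : DifferentiableOn ℂ h (Bn n)) {w₀ : ℂ} (x : Fin n → ℂ) {p : Fin n → ℂ}
    (hp : p ∈ V1 F w₀) : DifferentiableAt ℂ (Ph F h w₀ x) p ∧ ∀ y,
      fderiv ℂ (Ph F h w₀ x) p y = fderiv ℂ h p y * (fderiv ℂ F p x / (F p - w₀)) +
        h p * ((fderiv ℂ (fderiv ℂ F) p y x * (F p - w₀) - fderiv ℂ F p x * fderiv ℂ F p y) /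
          (F p - w₀) ^ 2) := by
  have hpB := (isOpen_Bn n).mem_nhds hp.1
  have hFp := (hF p hp.1).differentiableAt hpB
  have hhp := (hh p hp.1).differentiableAt hpB
  have hne : F p - w₀ ≠ 0 := sub_ne_zero.2 hp.2
  have hcd : ContDiffAt ℂ ω F p :=
    ((Pool.Agent.K708.holo_omega (isOpen_Bn n) hF) p hp.1).contDiffAt hpB
  have h2 : ContDiffAt ℂ 1 (fderiv ℂ F) p := hcd.fderiv_right (m := 1) (by norm_num)
  have h3 : DifferentiableAt ℂ (fderiv ℂ F) p := h2.differentiableAt (by norm_num)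
  have h4 : HasFDerivAt (fun q => fderiv ℂ F q x)
      ((ContinuousLinearMap.apply ℂ ℂ x).comp (fderiv ℂ (fderiv ℂ F) p)) p :=
    (ContinuousLinearMap.apply ℂ ℂ x).hasFDerivAt.comp p h3.hasFDerivAt
  have h5 : HasFDerivAt (fun q => (F q - w₀)⁻¹) (-((F p - w₀) ^ 2)⁻¹ • fderiv ℂ F p) p :=
    (hasDerivAt_inv hne).comp_hasFDerivAt p (hFp.hasFDerivAt.sub_const w₀)
  have h7 : HasFDerivAt (fun q => h q * (fderiv ℂ F q x * (F q - w₀)⁻¹))
      (h p • (fderiv ℂ F p x • (-((F p - w₀) ^ 2)⁻¹ • fderiv ℂ F p) +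
        (F p - w₀)⁻¹ • ((ContinuousLinearMap.apply ℂ ℂ x).comp (fderiv ℂ (fderiv ℂ F) p))) +
        (fderiv ℂ F p x * (F p - w₀)⁻¹) • fderiv ℂ h p) p :=
    hhp.hasFDerivAt.mul (h4.mul h5)
  have e : Ph F h w₀ x = fun q => h q * (fderiv ℂ F q x * (F q - w₀)⁻¹) := by
    funext q
    unfold Ph
    rw [div_eq_mul_inv]
  rw [← e] at h7
  refine ⟨h7.differentiableAt, fun y => ?_⟩
  rw [h7.fderiv]
  simp only [add_apply, smul_apply,
    ContinuousLinearMap.comp_apply, ContinuousLinearMap.apply_apply, smul_eq_mul]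
  field_simp
  ring

/-- the exactness identity -/
lemma Ph_symm {F h : (Fin n → ℂ) → ℂ} (hF : DifferentiableOn ℂ F (Bn n))
    (hh : DifferentiableOn ℂ h (Bn n)) (hW : Wdg F h) {w₀ : ℂ} (x y : Fin n → ℂ)
    {p : Fin n → ℂ} (hp : p ∈ V1 F w₀) :
    fderiv ℂ (Ph F h w₀ x) p y = fderiv ℂ (Ph F h w₀ y) p x := by
  have hpB := (isOpen_Bn n).mem_nhds hp.1
  have hne : F p - w₀ ≠ 0 := sub_ne_zero.2 hp.2
  have hcd : ContDiffAt ℂ ω F p :=
    ((Pool.Agent.K708.holo_omega (isOpen_Bn n) hF) p hp.1).contDiffAt hpB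
  have hs : fderiv ℂ (fderiv ℂ F) p x y = fderiv ℂ (fderiv ℂ F) p y x := by
    have h3 : ContDiffAt ℂ (minSmoothness ℂ 2) F p := hcd.of_le (by simp)
    exact (h3.isSymmSndFDerivAt le_rfl).eq x y
  rw [(Ph_hasFDerivAt hF hh x hp).2 y, (Ph_hasFDerivAt hF hh y hp).2 x, hs]
  have h1 := hW p hp.1 y x
  have h2 : fderiv ℂ h p y * (fderiv ℂ F p x / (F p - w₀)) =
      fderiv ℂ h p x * (fderiv ℂ F p y / (F p - w₀)) := by
    rw [← mul_div_assoc, ← mul_div_assoc, h1]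
  rw [h2, mul_comm (fderiv ℂ F p x) (fderiv ℂ F p y)]

lemma Ph_diffOn {F h : (Fin n → ℂ) → ℂ} (hF : DifferentiableOn ℂ F (Bn n))
    (hh : DifferentiableOn ℂ h (Bn n)) (w₀ : ℂ) (x : Fin n → ℂ) :
    DifferentiableOn ℂ (Ph F h w₀ x) (V1 F w₀) := fun _ hp =>
  (Ph_hasFDerivAt hF hh x hp).1.differentiableWithinAt

/-- row SCONST -/
theorem sconst : SCONST := by
  intro n F h z₀ e r hF hh hW hr hin hne
  set w₀ := F z₀ with hw₀
  have hV1 : IsOpen (V1 F w₀) := isOpen_V1 hF w₀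
  set V : Set ((Fin n → ℂ) × ℂ) := {p | p.1 ∈ V1 F w₀} with hV
  have hVo : IsOpen V := hV1.preimage continuous_fst
  set G : (Fin n → ℂ) × ℂ → ℂ := fun p => p.2 * Ph F h w₀ e p.1 with hG
  have hGd : DifferentiableOn ℂ G V := by
    intro p hp
    have h1 := (Ph_hasFDerivAt hF hh e (show p.1 ∈ V1 F w₀ from hp)).1
    have h2 : DifferentiableAt ℂ (fun p : (Fin n → ℂ) × ℂ => Ph F h w₀ e p.1) p :=
      h1.comp p differentiableAt_fst
    exact (differentiableAt_snd.mul h2).differentiableWithinAt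
  have hGcd : ∀ p ∈ V, ContDiffAt ℂ ω G p := fun p hp =>
    ((Pool.Agent.K708.holo_omega hVo hGd) p hp).contDiffAt (hVo.mem_nhds hp)
  have hGf : ∀ p ∈ V, HasFDerivAt G (fderiv ℂ G p) p := fun p hp =>
    ((hGd p hp).differentiableAt (hVo.mem_nhds hp)).hasFDerivAt
  have hG'c : ContinuousOn (fderiv ℂ G) V := fun p hp => by
    have h1 : ContDiffAt ℂ 1 (fderiv ℂ G) p := (hGcd p hp).fderiv_right (m := 1) (by norm_num)
    exact h1.continuousAt.continuousWithinAt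
  set γ : ℝ → (Fin n → ℂ) × ℂ := fun θ => (circleMap 0 r θ • e, deriv (circleMap 0 r) θ) with hγ
  have hγc : Continuous γ := by
    have h1 : Continuous fun θ : ℝ => circleMap 0 r θ • e := by fun_prop
    have h2 : Continuous fun θ : ℝ => deriv (circleMap 0 r) θ := by
      simp only [deriv_circleMap]
      fun_prop
    exact h1.prodMk h2
  have hcirc : ∀ θ : ℝ, ‖circleMap 0 r θ‖ = r := fun θ => by
    simp [circleMap, abs_of_pos hr]
  have h0 : ∀ θ ∈ Set.Icc (0 : ℝ) (2 * Real.pi), ((z₀, (0 : ℂ)) : (Fin n → ℂ) × ℂ) + γ θ ∈ V := by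
    intro θ _
    exact ⟨hin _ (hcirc θ).le, hne _ (hcirc θ)⟩
  obtain ⟨δ, hδ, hpar⟩ := H21R.param (𝕜 := ℂ) hVo hGf hG'c hγc (by positivity) h0
  -- the integral as a function of `z`
  set S : (Fin n → ℂ) → ℂ := fun z => ∮ l in C(0, r), Ph F h w₀ e (z + l • e) with hS
  have hSG : ∀ z, S z = ∫ θ in (0 : ℝ)..2 * Real.pi, G ((z, (0 : ℂ)) + γ θ) := by
    intro z
    rw [hS]
    show (∮ l in C(0, r), Ph F h w₀ e (z + l • e)) = _
    unfold circleIntegral
    refine intervalIntegral.integral_congr fun θ _ => ?_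
    simp only [hG, hγ, Prod.fst_add, Prod.snd_add, zero_add, smul_eq_mul]
  have hin' : ∀ z ∈ ball z₀ δ, ((z, (0 : ℂ)) : (Fin n → ℂ) × ℂ) ∈ ball (z₀, (0 : ℂ)) δ := by
    intro z hz
    rw [mem_ball, Prod.dist_eq, dist_self]
    exact max_lt hz hδ
  have hder : ∀ z ∈ ball z₀ δ, HasFDerivAt S (0 : (Fin n → ℂ) →L[ℂ] ℂ) z := by
    intro z hz
    obtain ⟨hmem, hd⟩ := hpar _ (hin' z hz)
    have hi : HasFDerivAt (fun z : Fin n → ℂ => ((z, (0 : ℂ)) : (Fin n → ℂ) × ℂ))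
        (ContinuousLinearMap.inl ℂ (Fin n → ℂ) ℂ) z := by
      have h1 := (hasFDerivAt_id (𝕜 := ℂ) z).prodMk (hasFDerivAt_const (0 : ℂ) z)
      exact h1
    have h1 := hd.comp z hi
    have h2 : HasFDerivAt S ((∫ θ in (0 : ℝ)..2 * Real.pi, fderiv ℂ G ((z, (0 : ℂ)) + γ θ)).comp
        (ContinuousLinearMap.inl ℂ (Fin n → ℂ) ℂ)) z := by
      have e1 : S = (fun p => ∫ θ in (0 : ℝ)..2 * Real.pi, G (p + γ θ)) ∘
          fun z : Fin n → ℂ => ((z, (0 : ℂ)) : (Fin n → ℂ) × ℂ) := by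
        funext y
        exact hSG y
      rw [e1]
      exact h1
    refine h2.congr_fderiv ?_
    ext1 v
    have hpi : (0 : ℝ) ≤ 2 * Real.pi := by positivity
    have hcont : ContinuousOn (fun θ : ℝ => fderiv ℂ G ((z, (0 : ℂ)) + γ θ))
        (Set.Icc 0 (2 * Real.pi)) :=
      hG'c.comp (continuous_const.add hγc).continuousOn fun θ hθ => hmem θ hθ
    have hint : IntervalIntegrable (fun θ : ℝ => fderiv ℂ G ((z, (0 : ℂ)) + γ θ)) volume 0
        (2 * Real.pi) := by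
      refine ContinuousOn.intervalIntegrable ?_
      rwa [uIcc_of_le hpi]
    rw [ContinuousLinearMap.comp_apply, ContinuousLinearMap.intervalIntegral_apply hint]
    -- membership of all points of the circle
    have hmem' : ∀ l : ℂ, ‖l‖ = r → z + l • e ∈ V1 F w₀ := by
      intro l hl
      have h3 : l ∈ circleMap 0 r '' Ioc 0 (2 * Real.pi) := by
        rw [image_circleMap_Ioc, mem_sphere_zero_iff_norm, abs_of_pos hr]
        exact hl
      obtain ⟨θ, h4, h5⟩ := h3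
      have h6 := hmem θ (Ioc_subset_Icc_self h4)
      have h7 : z + circleMap 0 r θ • e ∈ V1 F w₀ := h6
      rwa [h5] at h7
    have hval : (∫ θ in (0 : ℝ)..2 * Real.pi, fderiv ℂ G ((z, (0 : ℂ)) + γ θ)
        ((ContinuousLinearMap.inl ℂ (Fin n → ℂ) ℂ) v)) =
        ∮ l in C(0, r), fderiv ℂ (Ph F h w₀ v) (z + l • e) e := by
      unfold circleIntegral
      refine intervalIntegral.integral_congr fun θ _ => ?_
      have h3 := hmem' _ (hcirc θ)
      have h4 := (Ph_hasFDerivAt hF hh e h3).1.hasFDerivAt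
      have h5 : HasFDerivAt (fun p : (Fin n → ℂ) × ℂ => Ph F h w₀ e p.1)
          ((fderiv ℂ (Ph F h w₀ e) (z + circleMap 0 r θ • e)).comp
            (ContinuousLinearMap.fst ℂ (Fin n → ℂ) ℂ)) ((z, (0 : ℂ)) + γ θ) :=
        HasFDerivAt.comp (g := Ph F h w₀ e) (f := fun p : (Fin n → ℂ) × ℂ => p.1) _ h4
          hasFDerivAt_fst
      have h6 : HasFDerivAt G _ ((z, (0 : ℂ)) + γ θ) := hasFDerivAt_snd.mul h5
      simp only [h6.fderiv]
      simp only [add_apply, smul_apply, ContinuousLinearMap.comp_apply,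
        ContinuousLinearMap.inl_apply, ContinuousLinearMap.coe_fst', ContinuousLinearMap.coe_snd',
        smul_eq_mul, mul_zero, add_zero, Prod.snd_add, zero_add, hγ]
      rw [Ph_symm hF hh hW e v h3]
    rw [hval]
    refine circleIntegral.integral_eq_zero_of_hasDerivWithinAt hr.le
      (f := fun l => Ph F h w₀ v (z + l • e)) fun l hl => ?_
    have hl' : ‖l‖ = r := by simpa using hl
    have h3 := (Ph_hasFDerivAt hF hh v (hmem' l hl')).1.hasFDerivAt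
    exact (h3.comp_hasDerivAt l (line_diff z e l)).hasDerivWithinAt
  filter_upwards [ball_mem_nhds z₀ hδ] with z hz
  have hconst : S z = S z₀ :=
    isOpen_ball.is_const_of_fderiv_eq_zero (convex_ball z₀ δ).isPreconnected
      (fun y hy => (hder y hy).differentiableAt.differentiableWithinAt)
      (fun y hy => (hder y hy).fderiv) hz (mem_ball_self hδ)
  exact hconst

end

end Pool.Agent.Lib.MP_6ff8d9_an.H82L
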