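import Pool.Agent.Lib.MP_6ff8d9_an_h82.GoodExt
import Pool.Agent.Lib.MP_6ff8d9_an_h82.LevPrime
import Pool.Agent.Lib.MP_6ff8d9_an_h82.Sconst
import Pool.Agent.Lib.MP_6ff8d9_an_h99.Contl
import Pool.Agent.Lib.MP_6ff8d9_an_h20r.ExtL
import Pool.Agent.Lib.MP_6ff8d9_an_h20r.Surj
import Pool.Agent.Lib.MP_6ff8d9_an_h21r.Resd
import Pool.Agent.Lib.MP_6ff8d9_an_h69.Irr
import Pool.Agent.Lib.MP_6ff8d9_an_h69.Thmg
import Pool.Agent.Lib.MP_6ff8d9_an_h69.Locf
import Pool.Agent.Lib.MP_6ff8d9_an_h1.Kof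

/-!
# MP_6ff8d9: extreme, irreducible and prime
-/

open Metric Filter Topology Set
open scoped ComplexConjugate

namespace Pool.Agent.Lib.MP_6ff8d9_an.H82L

open Pool.Agent.Lib.MP_6ff8d9_an

noncomputable section

variable {n : ℕ}

/-- `f` is irreducible (Forelli): in every factorisation `f = φ ψ` on the ball with `φ`, `ψ`
holomorphic and bounded by `1`, one of the factors is constant -/
def Irred (f : Cn n → ℂ) : Prop := ∀ φ ψ : Cn n → ℂ, DifferentiableOn ℂ φ (ball 0 1) →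
  DifferentiableOn ℂ ψ (ball 0 1) →
  (∀ z ∈ ball (0 : Cn n) 1, ‖φ z‖ ≤ 1 ∧ ‖ψ z‖ ≤ 1 ∧ f z = φ z * ψ z) →
  (∀ z ∈ ball (0 : Cn n) 1, φ z = φ 0) ∨ (∀ z ∈ ball (0 : Cn n) 1, ψ z = ψ 0)

/-- all the Moebius transforms of `F` are irreducible -/
def IrredM (F : Cn n → ℂ) : Prop :=
  ∀ w₀ : ℂ, ‖w₀‖ < 1 → Irred (fun z => (F z - w₀) / (1 - conj w₀ * F z))

lemma one_sub_ne {w : ℂ} (h : ‖w‖ < 1) : 1 - w ≠ 0 := by
  intro h1
  rw [← sub_eq_zero.1 h1, norm_one] at h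
  exact lt_irrefl _ h

lemma one_sub_conj_ne {w : ℂ} (h : ‖w‖ < 1) : 1 - conj w ≠ 0 :=
  one_sub_ne (by rwa [Complex.norm_conj])

lemma norm_cst {w : ℂ} (h : ‖w‖ < 1) : ‖(1 - conj w) / (1 - w)‖ = 1 := by
  have h1 : 1 - conj w = conj (1 - w) := by simp
  rw [norm_div, h1, Complex.norm_conj, div_self (norm_ne_zero_iff.2 (one_sub_ne h))]

/-- the property used in the proof of theorem G, for one function -/
lemma irr_use {F : Cn n → ℂ} (hI : IrredM F) {w0 : ℂ} {w H : Cn n → ℂ} (hw0 : ‖w0‖ < 1)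
    (hw : DifferentiableOn ℂ w (ball 0 1)) (hH : DifferentiableOn ℂ H (ball 0 1))
    (hb : ∀ z ∈ ball (0 : Cn n) 1, ‖w z‖ ≤ 1 ∧ ‖H z‖ ≤ 1 ∧ P69.mob w0 (F z) = w z * H z) :
    (∀ z ∈ ball (0 : Cn n) 1, w z = w 0) ∨ (∀ z ∈ ball (0 : Cn n) 1, H z = H 0) := by
  set c := (1 - conj w0) / (1 - w0) with hc
  have hcn : ‖c‖ = 1 := norm_cst hw0
  have hc0 : c ≠ 0 := norm_ne_zero_iff.1 (by rw [hcn]; exact one_ne_zero)
  have h1 := hI w0 hw0 (fun z => c⁻¹ * w z) H (hw.const_mul _) hH (by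
    intro z hz
    obtain ⟨h2, h3, h4⟩ := hb z hz
    refine ⟨?_, h3, ?_⟩
    · rw [norm_mul, norm_inv, hcn, inv_one, one_mul]
      exact h2
    · rw [mul_assoc, ← h4, P69.mob, ← hc, inv_mul_cancel_left₀ hc0])
  rcases h1 with h | h
  · left
    intro z hz
    exact mul_left_cancel₀ (inv_ne_zero hc0) (h z hz)
  · exact Or.inr h

/-- all the Moebius transforms of an extreme point are irreducible -/
lemma irredM_of_extreme {F : Cn n → ℂ} (hF : P69.Hol n F) (h0 : F 0 = 0)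
    (hex : IsExtremePoint n (H11.gf F)) : IrredM F := by
  intro w0 hw0 φ ψ hφ hψ hb
  set c := (1 - conj w0) / (1 - w0) with hc
  have hcn : ‖c‖ = 1 := norm_cst hw0
  have hc0 : c ≠ 0 := norm_ne_zero_iff.1 (by rw [hcn]; exact one_ne_zero)
  have h1 := P69.irr n F w0 (fun z => c * φ z) ψ hF h0 hex hw0 (hφ.const_mul _) hψ (by
    intro z hz
    obtain ⟨h2, h3, h4⟩ := hb z hz
    refine ⟨?_, h3, ?_⟩
    · rw [norm_mul, hcn, one_mul]
      exact h2
    · rw [mul_assoc, ← h4, P69.mob])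
  rcases h1 with h | h
  · left
    intro z hz
    exact mul_left_cancel₀ hc0 (h z hz)
  · exact Or.inr h

/-- a nonconstant function all of whose Moebius transforms are irreducible is onto the disc -/
lemma onto_of_irredM {F : Cn n → ℂ} (hF : P69.Hol n F)
    (hne : ∃ z ∈ ball (0 : Cn n) 1, F z ≠ F 0) (hI : IrredM F) :
    ∀ w0 ∈ ball (0 : ℂ) 1, ∃ z ∈ ball (0 : Cn n) 1, F z = w0 := by
  intro w0 hw0
  by_contra hcon
  push Not at hcon
  have hw : ‖w0‖ < 1 := by simpa using hw0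
  have hMd := P69.mob_diff hF hw
  have hM0 : ∀ z ∈ ball (0 : Cn n) 1, P69.mob w0 (F z) ≠ 0 := fun z hz =>
    H82L.mob_ne hw (hF.lt z hz) (hcon z hz)
  obtain ⟨c, k, hk, hM⟩ := P69.exists_exp hMd hM0
  obtain ⟨c', hc'⟩ := IsAlgClosed.exists_pow_nat_eq c (n := 2) two_pos
  set s : Cn n → ℂ := fun z => c' * Complex.exp (k z / 2) with hs
  have hk2 : DifferentiableOn ℂ (fun z => k z / 2) (ball 0 1) := by
    simp only [div_eq_mul_inv]
    exact hk.mul_const (2 : ℂ)⁻¹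
  have hsd : DifferentiableOn ℂ s (ball 0 1) := hk2.cexp.const_mul c'
  have hss : ∀ z ∈ ball (0 : Cn n) 1, P69.mob w0 (F z) = s z * s z := by
    intro z hz
    rw [hM z hz, ← hc']
    simp only [hs]
    have h1 : Complex.exp (k z) = Complex.exp (k z / 2) * Complex.exp (k z / 2) := by
      rw [← Complex.exp_add]
      ring_nf
    rw [h1]
    ring
  have hsn : ∀ z ∈ ball (0 : Cn n) 1, ‖s z‖ ≤ 1 := by
    intro z hz
    have h1 := (H82L.norm_mob_lt hw (hF.lt z hz)).le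
    rw [hss z hz, norm_mul] at h1
    nlinarith [norm_nonneg (s z)]
  have hconst : ∀ z ∈ ball (0 : Cn n) 1, s z = s 0 := by
    rcases irr_use hI hw hsd hsd (fun z hz => ⟨hsn z hz, hsn z hz, hss z hz⟩) with h | h
    · exact h
    · exact h
  have h0b : (0 : Cn n) ∈ ball (0 : Cn n) 1 := mem_ball_self one_pos
  obtain ⟨z, hz, hzne⟩ := hne
  apply hzne
  refine P69.mob_inj hw (hF.lt z hz) (hF.lt 0 h0b) ?_
  rw [hss z hz, hss 0 h0b, hconst z hz]

/-- a nonconstant function all of whose Moebius transforms are irreducible is prime -/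
theorem prime_of_irredM (hFa : P69.FACT) {F : Cn n → ℂ} (hF : P69.Hol n F)
    (hne : ∃ z ∈ ball (0 : Cn n) 1, F z ≠ F 0) (hI : IrredM F) : P69.PrimeF n F := by
  have hsurj := onto_of_irredM hF hne hI
  have h0B : (0 : Cn n) ∈ ball (0 : Cn n) 1 := mem_ball_self one_pos
  obtain ⟨e, he⟩ : ∃ e, (P69.Oe F e).Nonempty := by
    by_contra hcon
    push Not at hcon
    have hz : EqOn (fderiv ℂ F) 0 (ball (0 : Cn n) 1) := by
      intro z hz
      refine ContinuousLinearMap.ext fun e => ?_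
      by_contra h
      have h1 : z ∈ P69.Oe F e := ⟨hz, h⟩
      rw [hcon e] at h1
      exact h1
    obtain ⟨z, hzb, hzF⟩ := hne
    exact hzF (isOpen_ball.is_const_of_fderiv_eq_zero
      (convex_ball (0 : Cn n) 1).isPreconnected hF.an hz hzb h0B)
  intro k hk hD
  have hR := P69.krel P69.locf n F k e hF.an hk hD
  have hE : ∀ z1 ∈ P69.Oe F e, ∀ z2 ∈ P69.Oe F e, F z1 = F z2 → P69.Ek F k z1 z2 := by
    intro z1 h1 z2 h2 h12
    by_contra hnE
    obtain ⟨w, H, hw, hH, hb, hw1, hw2, hH1⟩ := hFa n F e _ hF hR z1 h1 z2 h2 h12 hnE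
    rcases irr_use hI (hF.lt z1 h1.1) hw hH hb with h | h
    · apply hw2
      rw [h z2 h2.1, ← h z1 h1.1, hw1]
    · have h3 := (hb z2 h2.1).2.2
      have h4 : P69.mob (F z1) (F z2) = 0 := by
        unfold P69.mob
        rw [← h12, sub_self, zero_div, mul_zero]
      rw [h4] at h3
      rcases mul_eq_zero.1 h3.symm with h5 | h5
      · exact hw2 h5
      · apply hH1
        rw [h z1 h1.1, ← h z2 h2.1, h5]
  exact P69.kof n F k e hF hk hsurj he fun z hz z' hz' hzz =>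
    (hE z hz z' hz' hzz).2.self_of_nhds hzz

/-- a function with a good boundary point is not constant (if `F 0 = 0`) -/
lemma nonconst_of_good {F : Cn n → ℂ} (h0 : F 0 = 0) {ζ : Cn n} (hg : GoodPt F ζ) :
    ∃ z ∈ ball (0 : Cn n) 1, F z ≠ F 0 := by
  obtain ⟨hhol, Θ, hΘ0, -, -, hch⟩ := hg
  have h1 := hch.self_of_nhds fun i => by simp
  rw [hΘ0] at h1
  have hc : ContinuousAt F ζ := (hhol.self_of_nhds).continuousAt
  have h2 : F ζ ≠ F 0 := by
    rw [h0]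
    exact norm_ne_zero_iff.1 (by rw [h1.2]; exact one_ne_zero)
  have h3 : ∀ᶠ z in 𝓝 ζ, F z ≠ F 0 := hc.eventually_ne h2
  have h4 : Tendsto (fun t : ℝ => (t : ℂ) • ζ) (𝓝[<] 1) (𝓝 ζ) := by
    have h5 : ContinuousAt (fun t : ℝ => (t : ℂ) • ζ) 1 := by fun_prop
    have h6 := h5.tendsto
    simp only [Complex.ofReal_one, one_smul] at h6
    exact h6.mono_left nhdsWithin_le_nhds
  have h5 : ∀ᶠ t : ℝ in 𝓝[<] 1, 0 < t := nhdsWithin_le_nhds (lt_mem_nhds one_pos)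
  obtain ⟨t, ⟨ht1, ht2⟩, ht3⟩ := (((h4.eventually h3).and h5).and self_mem_nhdsWithin).exists
  refine ⟨(t : ℂ) • ζ, ?_, ht1⟩
  rw [mem_ball_zero_iff, norm_smul, h1.1, mul_one, Complex.norm_real, Real.norm_of_nonneg ht2.le]
  exact ht3

/-- every extreme point is prime; with one good boundary point extreme, prime and irreducible
are the same -/
theorem main_of (hFa : P69.FACT) (n : ℕ) (hn : 1 ≤ n) (F : Cn n → ℂ)
    (hF : DifferentiableOn ℂ F (ball 0 1)) (hlt : ∀ z ∈ ball (0 : Cn n) 1, ‖F z‖ < 1)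
    (h0 : F 0 = 0) :
    (IsExtremePoint n (fun z => (1 + F z) / (1 - F z)) → PrimeF F) ∧
    ((∃ ζ, GoodPt F ζ) → List.TFAE [IsExtremePoint n (fun z => (1 + F z) / (1 - F z)),
      PrimeF F, IrredM F]) := by
  have hH : P69.Hol n F := ⟨hF, hlt⟩
  refine ⟨fun hex => ?_, ?_⟩
  · exact (primeF_iff _).1 (P69.thmg_of P69.locf hFa P69.irr (P69.surj P69.irr) P69.kof n F hn hH
      h0 hex)
  · rintro ⟨ζ, hg⟩
    tfae_have 1 → 3 := fun hex => irredM_of_extreme hH h0 hex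
    tfae_have 3 → 2 := fun hI =>
      (primeF_iff _).1 (prime_of_irredM hFa hH (nonconst_of_good h0 hg) hI)
    tfae_have 2 → 1 := by
      intro hP
      obtain ⟨ζ', hg', hne⟩ := good_ne_one hlt hg
      exact primeext H99.contl extl n F ζ' hF hlt h0 hg' hne hP
    tfae_finish

/-- the criterion by level sets -/
theorem level_criterion (n : ℕ) (F : Cn n → ℂ) (E : Set ℂ)
    (hF : DifferentiableOn ℂ F (ball 0 1)) (hlt : ∀ z ∈ ball (0 : Cn n) 1, ‖F z‖ < 1)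
    (hE : E.Finite) (honto : ∀ c ∈ ball (0 : ℂ) 1, ∃ z ∈ ball (0 : Cn n) 1, F z = c)
    (hconn : ∀ c ∈ ball (0 : ℂ) 1 \ E, IsPreconnected {z : Cn n | ‖z‖ < 1 ∧ F z = c}) :
    PrimeF F :=
  (primeF_iff _).1 (levprime (fibc resd sconst) P69.kof P69.sect F E ⟨hF, hlt⟩ hE honto hconn)

end

end Pool.Agent.Lib.MP_6ff8d9_an.H82L
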